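import Pool.Agent.Helper492_PTC.Stmts

/-!
Task Align of the periodic tiling project: all translation vectors of a tiling by the
marked tile lie in one class modulo the integer vectors.
-/

set_option autoImplicit false
set_option linter.unusedSectionVars false
open MeasureTheory

namespace Pool.Agent.Helper492_PTC

namespace Align256

theorem zc_add {ι : Type} (a b : ι → ℤ) : zc (a + b) = zc a + zc b := by
  funext i; simp [zc]

theorem zc_sub {ι : Type} (a b : ι → ℤ) : zc (a - b) = zc a - zc b := by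
  funext i; simp [zc]

theorem zc_zero {ι : Type} : zc (0 : ι → ℤ) = 0 := by
  funext i; simp [zc]

theorem zc_inj {ι : Type} {a b : ι → ℤ} (h : zc a = zc b) : a = b := by
  funext i
  have := congrFun h i
  simpa [zc] using this

theorem emb_add {ι : Type} (a b : ι → ℤ) (m n : ℤ) :
    emb (a + b) (m + n) = emb a m + emb b n := by
  unfold emb
  rw [zc_add]
  push_cast
  rfl

theorem emb_zero {ι : Type} : emb (0 : ι → ℤ) 0 = 0 := by
  unfold emb
  rw [zc_zero]
  simp

/-- A family of subsets of the lattice which contains the origin at time zero and spreads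
to all neighbours in each step contains every point from some time on. -/
theorem reach {ι : Type} [Fintype ι] [DecidableEq ι] (P : (ι → ℤ) → ℕ → Prop) (h0 : P 0 0)
    (hs : ∀ z k, P z k → P z (k + 1))
    (hp : ∀ z k i, P z k → P (z + Pi.single i 1) (k + 1))
    (hm : ∀ z k i, P z k → P (z - Pi.single i 1) (k + 1)) (z : ι → ℤ) :
    ∃ K, ∀ k, K ≤ k → P z k := by
  have key : ∃ K, P z K := by
    have step : ∀ (i : ι) (n : ℤ) (w : ι → ℤ), (∃ K, P w K) → ∃ K, P (w + Pi.single i n) K := by
      intro i n w hw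
      induction n using Int.induction_on with
      | zero => simpa using hw
      | succ n ih =>
        obtain ⟨K, hK⟩ := ih
        refine ⟨K + 1, ?_⟩
        have := hp _ _ i hK
        rwa [add_assoc, ← Pi.single_add] at this
      | pred n ih =>
        obtain ⟨K, hK⟩ := ih
        refine ⟨K + 1, ?_⟩
        have := hm _ _ i hK
        rwa [add_sub_assoc, ← Pi.single_sub] at this
    have all : ∀ s : Finset ι, ∃ K, P (∑ i ∈ s, Pi.single i (z i)) K := by
      intro s
      induction s using Finset.induction_on with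
      | empty => exact ⟨0, by simpa using h0⟩
      | insert i s hi ih =>
        rw [Finset.sum_insert hi, add_comm]
        exact step i (z i) _ ih
    have := all Finset.univ
    rwa [Finset.univ_sum_single] at this
  obtain ⟨K, hK⟩ := key
  refine ⟨K, fun k hk => ?_⟩
  induction k, hk using Nat.le_induction with
  | base => exact hK
  | succ k _ ih => exact hs _ _ ih

/-- Some shift by one third or two thirds has a fractional part which is not small. -/
theorem frac_shift (x r : ℝ) (hr : r < 1 / 8) :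
    ∃ y : ℝ, 1 / 3 ≤ y ∧ y ≤ 2 / 3 ∧ r < Int.fract (x + y) := by
  by_cases h : r < Int.fract (x + 1 / 3)
  · exact ⟨1 / 3, le_rfl, by norm_num, h⟩
  · refine ⟨2 / 3, by norm_num, le_rfl, ?_⟩
    push Not at h
    have h0 := Int.fract_nonneg (x + 1 / 3)
    have h1 := Int.floor_add_fract (x + 1 / 3)
    have h2 : Int.fract (x + 2 / 3) = Int.fract (x + 1 / 3) + 1 / 3 := by
      rw [Int.fract_eq_iff]
      refine ⟨by linarith, by linarith, ⌊x + 1 / 3⌋, ?_⟩
      linarith
    rw [h2]
    linarith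

variable {ι J : Type} [Fintype ι] [DecidableEq ι] [Fintype J] (G : Geo ι J)

/-- The half point. -/
noncomputable def hf : ι → ℝ := fun _ => 1 / 2

theorem hf_add_mem (z : ι → ℤ) (hz : z ∈ IBox G.b) : (hf + zc z : ι → ℝ) ∈ G.BBo := by
  intro i
  obtain ⟨h1, h2⟩ := hz i
  have h1' : (0 : ℝ) ≤ (z i : ℝ) := by exact_mod_cast h1
  have h2' : (z i : ℝ) + 1 ≤ (G.b i : ℝ) := by exact_mod_cast h2
  simp only [hf, zc, Pi.add_apply]
  constructor
  · linarith
  · linarith

/-- The neighbourhood predicate of a class. -/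
def Pr (L : Set (EE ι)) (l : EE ι) (z : ι → ℤ) (k : ℕ) : Prop :=
  ∃ a : ι → ℤ, l + emb a (-(k : ℤ)) ∈ L ∧ z - a ∈ IBox G.b

theorem class_reach (hR : Rich G) (L : Set (EE ι))
    (hM : ∀ l ∈ L, ∀ j, ∀ t ∈ G.X' j, ∃ t' ∈ G.X j, l + emb (t - t' - G.v j) (-1) ∈ L)
    (l : EE ι) (hl : l ∈ L) (z : ι → ℤ) : ∃ K, ∀ k, K ≤ k → Pr G L l z k := by
  have gen : ∀ j, (∀ t, t ∈ G.X j ↔ t ∈ IBox G.b) → (∀ t, t ∈ G.X' j ↔ t ∈ IBox G.b) →
      ∀ z k, Pr G L l z k → Pr G L l (z - G.v j) (k + 1) := by
    intro j hX hX' z k hP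
    obtain ⟨a, ha, hza⟩ := hP
    obtain ⟨t', ht', hL⟩ := hM _ ha j (z - a) ((hX' _).2 hza)
    refine ⟨a + (z - a - t' - G.v j), ?_, ?_⟩
    · rw [add_assoc, ← emb_add] at hL
      have e : (-((k + 1 : ℕ) : ℤ)) = -(k : ℤ) + -1 := by push_cast; ring
      rw [e]
      exact hL
    · have e : z - G.v j - (a + (z - a - t' - G.v j)) = t' := by abel
      rw [e]
      exact (hX _).1 ht'
  apply reach
  · refine ⟨0, ?_, ?_⟩
    · have : (-((0 : ℕ) : ℤ)) = 0 := by norm_num
      rw [this, emb_zero, add_zero]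
      exact hl
    · intro i
      simp [G.hb i]
  · intro z k h
    obtain ⟨j, h1, h2, h3⟩ := hR.zero
    have := gen j h1 h2 z k h
    rwa [h3, sub_zero] at this
  · intro z k i h
    obtain ⟨j, h1, h2, h3⟩ := hR.minus i
    have := gen j h1 h2 z k h
    rw [h3] at this
    have e : z - Pi.single i (-1) = z + Pi.single i 1 := by
      rw [Pi.single_neg, sub_neg_eq_add]
    rwa [e] at this
  · intro z k i h
    obtain ⟨j, h1, h2, h3⟩ := hR.plus i
    have := gen j h1 h2 z k h
    rwa [h3] at this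

end Align256

open Align256 in
theorem align : StmtAlign := by
  intro ι J _ _ _ G hS hB hT hR L hL hM l hl m hm
  by_contra hcon
  push Not at hcon
  obtain ⟨y', hy1, hy2, hy⟩ := frac_shift (m.2 - l.2) G.r G.hr8
  set x0 := m.2 - l.2 + y' with hx0
  set y := Int.fract x0 with hydef
  set n0 := ⌊x0⌋ with hn0
  have hfl : (n0 : ℝ) + y = x0 := Int.floor_add_fract x0
  have hy_lt : y < 1 := Int.fract_lt_one x0
  have hr := G.hr
  have hr8 := G.hr8
  -- the base point relative to `l`
  set W : ι → ℝ := m.1 - l.1 + G.Phi y' hf with hW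
  set w : ι → ℝ := G.Psi y W with hw
  set z : ι → ℤ := fun i => ⌊w i⌋ with hz
  obtain ⟨K1, hK1⟩ := class_reach G hR L hM m hm 0
  obtain ⟨K2, hK2⟩ := class_reach G hR L hM l hl z
  -- choose `m'` large
  set k : ℕ := K2 + K1 + n0.natAbs with hk
  obtain ⟨m', hm'⟩ : ∃ m' : ℕ, (m' : ℤ) = (k : ℤ) + n0 := by
    refine ⟨((k : ℤ) + n0).toNat, Int.toNat_of_nonneg ?_⟩
    have : -(n0.natAbs : ℤ) ≤ n0 := by omega
    omega
  have hm'K : K1 ≤ m' := by omega
  obtain ⟨a, ha, haB⟩ := hK1 m' hm'K
  obtain ⟨a', ha', haB'⟩ := hK2 k (by omega)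
  have hne : m + emb a (-(m' : ℤ)) ≠ l + emb a' (-(k : ℤ)) := by
    intro heq
    apply hcon (a' - a) (-(k : ℤ) + (m' : ℤ))
    have e : emb (a' - a) (-(k : ℤ) + (m' : ℤ)) = emb a' (-(k : ℤ)) - emb a (-(m' : ℤ)) := by
      rw [eq_sub_iff_add_eq, ← emb_add]
      congr 1
      · abel
      · ring
    rw [e]
    rw [← add_sub_assoc, ← heq]
    abel
  -- the point
  set p : EE ι := (m.1 + G.Phi y' hf, m.2 + y' - (m' : ℝ)) with hp
  apply hL.disj _ ha _ ha' hne p
  · rw [hT.interior_T]
    have e : p - (m + emb a (-(m' : ℤ))) = (G.Phi y' hf + zc (0 - a), y') := by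
      ext i
      · simp only [hp, emb, zc, Prod.fst_sub, Prod.fst_add, Pi.sub_apply, Pi.add_apply,
          Pi.zero_apply]
        push_cast
        ring
      · simp only [hp, emb, Prod.snd_sub, Prod.snd_add]
        push_cast
        ring
    rw [e, ← hS.phi_add]
    unfold Geo.To
    simp only [Set.mem_ofPred_eq, hS.psi_phi]
    refine ⟨hf_add_mem G _ haB, ?_, ?_⟩
    · have := hB.dn_le (hf + zc (0 - a))
      linarith
    · have := hB.up_nonneg (hf + zc (0 - a))
      linarith
  · have hheight : m.2 + y' - (m' : ℝ) - (l.2 - (k : ℝ)) = y := by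
      have : ((m' : ℤ) : ℝ) = ((k : ℤ) : ℝ) + (n0 : ℝ) := by exact_mod_cast hm'
      have h2 : (m' : ℝ) = (k : ℝ) + (n0 : ℝ) := by exact_mod_cast this
      rw [h2]
      linarith
    have e : p - (l + emb a' (-(k : ℤ))) = (W + zc (-a'), y) := by
      ext i
      · simp only [hp, hW, emb, zc, Prod.fst_sub, Prod.fst_add, Pi.sub_apply, Pi.add_apply,
          Pi.neg_apply]
        push_cast
        ring
      · simp only [hp, emb, Prod.snd_sub, Prod.snd_add]
        push_cast
        linarith
    rw [e]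
    unfold Geo.T
    simp only [Set.mem_ofPred_eq, hS.psi_add]
    refine ⟨?_, ?_, ?_⟩
    · intro i
      obtain ⟨h1, h2⟩ := haB' i
      have h1' : (0 : ℝ) ≤ (⌊w i⌋ : ℝ) - (a' i : ℝ) := by exact_mod_cast h1
      have h2' : (⌊w i⌋ : ℝ) - (a' i : ℝ) + 1 ≤ (G.b i : ℝ) := by exact_mod_cast h2
      have h3 := Int.floor_le (w i)
      have h4 := Int.lt_floor_add_one (w i)
      have e2 : (G.Psi y W + zc (-a')) i = w i - (a' i : ℝ) := by
        simp only [hw, zc, Pi.add_apply, Pi.neg_apply]
        push_cast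
        ring
      rw [e2]
      constructor
      · linarith
      · linarith
    · have := hB.dn_le (G.Psi y W + zc (-a'))
      linarith
    · have := hB.up_nonneg (G.Psi y W + zc (-a'))
      linarith

end Pool.Agent.Helper492_PTC
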