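import Pool.Agent.Helper492_PTC.Stmts

/-!
TASK Bump of the disproof of the periodic tiling conjecture for balls (helper699).
-/

set_option autoImplicit false
set_option linter.unusedSectionVars false
open MeasureTheory

namespace Pool.Agent.Helper492_PTC

namespace BumpAux

theorem locLip_sum {E A : Type} [PseudoEMetricSpace E] (s : Finset A) (f : A → E → ℝ)
    (h : ∀ a ∈ s, LocallyLipschitz (f a)) : LocallyLipschitz (fun x => ∑ a ∈ s, f a x) := by
  classical
  induction s using Finset.induction_on with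
  | empty => simpa using LocallyLipschitz.const (0 : ℝ)
  | insert a s ha ih =>
    have h1 := h a (Finset.mem_insert_self a s)
    have h2 := ih (fun b hb => h b (Finset.mem_insert_of_mem hb))
    have h3 := h1.add h2
    have h4 : (fun x => ∑ b ∈ insert a s, f b x) = fun x => f a x + ∑ b ∈ s, f b x := by
      funext x
      rw [Finset.sum_insert ha]
    rw [h4]
    exact h3

theorem lip_rho {ι : Type} [Fintype ι] (r : ℝ) : LipschitzWith 1 (rho (ι := ι) r) := by
  apply LipschitzWith.of_dist_le_mul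
  intro x y
  simp only [NNReal.coe_one, one_mul, Real.dist_eq, rho]
  calc |max 0 (r - ‖x‖) - max 0 (r - ‖y‖)| ≤ max |0 - 0| |(r - ‖x‖) - (r - ‖y‖)| :=
        abs_max_sub_max_le_max _ _ _ _
    _ ≤ dist x y := by
        apply max_le
        · simp
        · have : (r - ‖x‖) - (r - ‖y‖) = -(‖x‖ - ‖y‖) := by ring
          rw [this, abs_neg, dist_eq_norm]
          exact abs_norm_sub_norm_le x y

variable {ι J : Type} [Fintype ι] [DecidableEq ι] [Fintype J] (G : Geo ι J)

/-- common form of bumps and dents -/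
noncomputable def bf (X : J → Finset (ι → ℤ)) (w : ι → ℝ) : ℝ :=
  ∑ j, ∑ t ∈ X j, G.al j * rho G.r (w - G.sig j - zc t)

theorem bf_lip (X : J → Finset (ι → ℤ)) : LocallyLipschitz (bf G X) := by
  unfold bf
  apply locLip_sum
  intro j _
  apply locLip_sum
  intro t _
  have h1 : LipschitzWith 1 (fun w : ι → ℝ => w - G.sig j - zc t) := by
    apply LipschitzWith.of_dist_le_mul
    intro x y
    simp
  have h2 := ((lip_rho (ι := ι) G.r).comp h1)
  have h3 : LipschitzWith (Real.nnabs (G.al j) * (1 * 1))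
      (fun w : ι → ℝ => G.al j * rho G.r (w - G.sig j - zc t)) := by
    apply LipschitzWith.of_dist_le_mul
    intro x y
    have := h2.dist_le_mul x y
    simp only [Function.comp] at this
    rw [Real.dist_eq] at this ⊢
    rw [← mul_sub, abs_mul]
    push_cast
    simp only [NNReal.coe_one, mul_one, one_mul] at this ⊢
    exact mul_le_mul_of_nonneg_left this (abs_nonneg _)
  exact h3.locallyLipschitz

theorem rho_nonneg (r : ℝ) (w : ι → ℝ) : 0 ≤ rho r w := le_max_left _ _

theorem bf_nonneg (X : J → Finset (ι → ℤ)) (w : ι → ℝ) : 0 ≤ bf G X w := by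
  unfold bf
  apply Finset.sum_nonneg
  intro j _
  apply Finset.sum_nonneg
  intro t _
  exact mul_nonneg (G.hal j).1.le (rho_nonneg _ _)

theorem coord {w : ι → ℝ} {j : J} {z : ι → ℤ} (h : ‖w - G.sig j - zc z‖ ≤ G.r) (i : ι) :
    |w i - G.s j - (z i : ℝ)| ≤ G.r := by
  have := norm_le_pi_norm (w - G.sig j - zc z) i
  simp only [Pi.sub_apply, Real.norm_eq_abs, zc, Geo.sig] at this
  exact this.trans h

theorem cube_unique (w : ι → ℝ) (j : J) (z : ι → ℤ) (k : J) (z' : ι → ℤ)
    (h1 : ‖w - G.sig j - zc z‖ ≤ G.r) (h2 : ‖w - G.sig k - zc z'‖ ≤ G.r) : j = k ∧ z = z' := by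
  have hjk : j = k := by
    by_contra hne
    have a1 := coord G h1 G.i0
    have a2 := coord G h2 G.i0
    have a3 := G.hsep j k hne (z' G.i0 - z G.i0)
    have hr := G.hr
    rw [abs_le] at a1 a2
    rw [lt_abs] at a3
    push_cast at a3
    rcases a3 with a3 | a3 <;> linarith [a1.1, a1.2, a2.1, a2.2]
  refine ⟨hjk, ?_⟩
  subst hjk
  funext i
  have a1 := coord G h1 i
  have a2 := coord G h2 i
  have hr8 := G.hr8
  rw [abs_le] at a1 a2
  have h3 : |(z i : ℝ) - (z' i : ℝ)| < 1 := by
    rw [abs_lt]; constructor <;> linarith [a1.1, a1.2, a2.1, a2.2]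
  have h4 : |z i - z' i| < 1 := by exact_mod_cast h3
  have h5 : z i - z' i = 0 := Int.abs_lt_one_iff.mp h4
  omega

theorem cube_cell (w : ι → ℝ) (j : J) (z : ι → ℤ) (i : ι) (h : ‖w - G.sig j - zc z‖ ≤ G.r) :
    (z i : ℝ) < w i ∧ w i < (z i : ℝ) + 1 := by
  have a1 := coord G h i
  have hs := G.hs j
  rw [abs_le] at a1
  constructor <;> linarith [a1.1, a1.2, hs.1, hs.2]

theorem cube_box (w : ι → ℝ) (j : J) (z : ι → ℤ) (h : ‖w - G.sig j - zc z‖ ≤ G.r)
    (hz : z ∈ IBox G.b) : w ∈ G.BBo := by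
  intro i
  have h1 := cube_cell G w j z i h
  have h2 := hz i
  have h3 : (0 : ℝ) ≤ (z i : ℝ) := by exact_mod_cast h2.1
  have h4 : (z i : ℝ) + 1 ≤ (G.b i : ℝ) := by
    have : z i + 1 ≤ (G.b i : ℤ) := by omega
    exact_mod_cast this
  constructor <;> linarith [h1.1, h1.2]

theorem rho_out {r : ℝ} {w : ι → ℝ} (h : r ≤ ‖w‖) : rho r w = 0 := by
  unfold rho
  rw [max_eq_left]; linarith

theorem rho_in {r : ℝ} {w : ι → ℝ} (h : ‖w‖ ≤ r) : rho r w = r - ‖w‖ := by
  unfold rho
  rw [max_eq_right]; linarith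

/-- far from all cubes the function vanishes -/
theorem bf_far (X : J → Finset (ι → ℤ)) (w : ι → ℝ)
    (h : ∀ j, ∀ t ∈ X j, G.r ≤ ‖w - G.sig j - zc t‖) : bf G X w = 0 := by
  unfold bf
  apply Finset.sum_eq_zero
  intro j _
  apply Finset.sum_eq_zero
  intro t ht
  rw [rho_out (h j t ht), mul_zero]

theorem bf_out (X : J → Finset (ι → ℤ)) (w : ι → ℝ) (j : J) (z : ι → ℤ)
    (h : ‖w - G.sig j - zc z‖ ≤ G.r) (hz : z ∉ X j) : bf G X w = 0 := by
  apply bf_far
  intro k t ht
  by_contra hlt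
  push Not at hlt
  obtain ⟨rfl, rfl⟩ := cube_unique G w j z k t h hlt.le
  exact hz ht

theorem bf_in (X : J → Finset (ι → ℤ)) (w : ι → ℝ) (j : J) (z : ι → ℤ)
    (h : ‖w - G.sig j - zc z‖ ≤ G.r) (hz : z ∈ X j) :
    bf G X w = G.al j * (G.r - ‖w - G.sig j - zc z‖) := by
  unfold bf
  rw [Finset.sum_eq_single j, Finset.sum_eq_single z, rho_in h]
  · intro t _ hne
    rw [rho_out, mul_zero]
    by_contra hlt
    push Not at hlt
    exact hne (cube_unique G w j z j t h hlt.le).2.symm
  · intro hn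
    exact absurd hz hn
  · intro k _ hne
    apply Finset.sum_eq_zero
    intro t _
    rw [rho_out, mul_zero]
    by_contra hlt
    push Not at hlt
    exact hne (cube_unique G w j z k t h hlt.le).1.symm
  · intro hn
    exact absurd (Finset.mem_univ j) hn

theorem bf_pos (X : J → Finset (ι → ℤ)) (w : ι → ℝ) (h : 0 < bf G X w) :
    ∃ j, ∃ t ∈ X j, ‖w - G.sig j - zc t‖ < G.r := by
  by_contra hn
  push Not at hn
  rw [bf_far G X w hn] at h
  exact lt_irrefl _ h

theorem bf_le (X : J → Finset (ι → ℤ)) (w : ι → ℝ) : bf G X w ≤ G.r := by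
  by_cases h : 0 < bf G X w
  · obtain ⟨j, t, ht, h1⟩ := bf_pos G X w h
    rw [bf_in G X w j t h1.le ht]
    have h2 := G.hal j
    have h3 := norm_nonneg (w - G.sig j - zc t)
    calc G.al j * (G.r - ‖w - G.sig j - zc t‖) ≤ 1 * (G.r - ‖w - G.sig j - zc t‖) :=
          mul_le_mul_of_nonneg_right h2.2 (by linarith)
      _ ≤ G.r := by linarith
  · push Not at h
    exact h.trans G.hr.le

end BumpAux

open BumpAux in
theorem bump : StmtBump := by
  intro ι J _ _ _ G
  exact
    { up_lip := bf_lip G G.X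
      dn_lip := bf_lip G G.X'
      up_nonneg := bf_nonneg G G.X
      dn_nonneg := bf_nonneg G G.X'
      up_le := bf_le G G.X
      dn_le := bf_le G G.X'
      up_pos := bf_pos G G.X
      dn_pos := bf_pos G G.X'
      up_in := bf_in G G.X
      up_out := bf_out G G.X
      dn_in := bf_in G G.X'
      dn_out := bf_out G G.X'
      cube_unique := cube_unique G
      cube_cell := cube_cell G
      cube_box := cube_box G }

end Pool.Agent.Helper492_PTC
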