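import Mathlib

/-!
Definitions for the disproof of the periodic tiling conjecture for topological balls
(problem MP_0960bd_co, frozen statement S07062).
-/

set_option autoImplicit false
open MeasureTheory

namespace Pool.Agent.Helper492_PTC

/-! ### Part 1: finite-alphabet systems on the plane lattice -/

/-- A system of features (which are periodic) and clocks (which flip) on an alphabet. -/
structure FC (Om F C : Type) where
  SF : F → Om → Bool
  hF : F → ℤ × ℤ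
  SC : C → Om → Bool
  hC : C → ℤ × ℤ

/-- Solutions of such a system. -/
def FC.IsSol {Om F C : Type} (D : FC Om F C) (s : ℤ × ℤ → Om) : Prop :=
  (∀ f x, D.SF f (s (x + D.hF f)) = D.SF f (s x)) ∧
  (∀ c x, D.SC c (s (x + D.hC c)) = !(D.SC c (s x)))

/-- Part 1: some finite system has a solution but no periodic one. -/
def StmtPart1 : Prop :=
  ∃ (Om F C : Type) (_ : Fintype Om) (_ : Fintype F) (_ : Fintype C) (D : FC Om F C),
    (∃ s, D.IsSol s) ∧
    ∀ s, D.IsSol s → ∀ n : ℕ, 0 < n → ¬ ∀ x : ℤ × ℤ, s (x + ((n : ℤ), 0)) = s x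

/-! ### Part 2: tilings of an integer lattice by a box -/

/-- The integer box with sides `b`. -/
def IBox {ι : Type} (b : ι → ℕ) : Set (ι → ℤ) := {t | ∀ i, 0 ≤ t i ∧ t i < (b i : ℤ)}

/-- `A` is an exact tiling set of the integer lattice for the box. -/
def IsTil {ι : Type} (b : ι → ℕ) (A : Set (ι → ℤ)) : Prop :=
  ∀ z : ι → ℤ, ∃! a, a ∈ A ∧ z - a ∈ IBox b

/-- `z` lies in the sumset `A + X`. -/
def InSum {ι : Type} (A X : Set (ι → ℤ)) (z : ι → ℤ) : Prop := ∃ a ∈ A, z - a ∈ X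

/-- The relation attached to `(X, X', v)`. -/
def RelHolds {ι : Type} (A X X' : Set (ι → ℤ)) (v : ι → ℤ) : Prop :=
  ∀ z, InSum A X' z ↔ InSum A X (z - v)

/-- Part 2: some finite system of relations has a solution but no periodic one. -/
def StmtPart2 : Prop :=
  ∃ (ι J : Type) (_ : Fintype ι) (_ : DecidableEq ι) (_ : Fintype J)
    (b : ι → ℕ) (X X' : J → Finset (ι → ℤ)) (v : J → ι → ℤ) (i0 i1 : ι),
    (∀ i, 0 < b i) ∧ i0 ≠ i1 ∧
    (∀ j, ∀ t ∈ X j, t ∈ IBox b) ∧ (∀ j, ∀ t ∈ X' j, t ∈ IBox b) ∧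
    (∃ A, IsTil b A ∧ ∀ j, RelHolds A (X j) (X' j) (v j)) ∧
    ∀ A, IsTil b A → (∀ j, RelHolds A (X j) (X' j) (v j)) →
      ∀ n : ℕ, 0 < n → ¬ ∀ i, ∀ a ∈ A, a + Pi.single i (n : ℤ) ∈ A

/-! ### Part 3: geometry -/

/-- The ambient space: base coordinates and a height. -/
abbrev EE (ι : Type) := (ι → ℝ) × ℝ

/-- Real vector of an integer vector. -/
def zc {ι : Type} (z : ι → ℤ) : ι → ℝ := fun i => (z i : ℝ)

/-- Integer translations of the ambient space. -/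
def emb {ι : Type} (z : ι → ℤ) (n : ℤ) : EE ι := (zc z, (n : ℝ))

/-- Almost everywhere tilings. -/
def AETil {E : Type} [AddGroup E] [MeasureSpace E] (T L : Set E) : Prop :=
  ∀ᵐ x ∂(volume : Measure E), ∃! t, t ∈ L ∧ x - t ∈ T

/-- All geometric data. -/
structure Geo (ι J : Type) where
  b : ι → ℕ
  hb : ∀ i, 0 < b i
  X : J → Finset (ι → ℤ)
  X' : J → Finset (ι → ℤ)
  hX : ∀ j, ∀ t ∈ X j, t ∈ IBox b
  hX' : ∀ j, ∀ t ∈ X' j, t ∈ IBox b
  v : J → ι → ℤ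
  i0 : ι
  i1 : ι
  h01 : i0 ≠ i1
  s : J → ℝ
  al : J → ℝ
  r : ℝ
  hr : 0 < r
  hr8 : r < 1 / 8
  hs : ∀ j, r < s j ∧ s j < 1 - r
  hsep : ∀ j k, j ≠ k → ∀ n : ℤ, 3 * r < |s j - s k - n|
  hal : ∀ j, 0 < al j ∧ al j ≤ 1
  hinj : Function.Injective al

/-- pyramid -/
noncomputable def rho {ι : Type} [Fintype ι] (r : ℝ) (w : ι → ℝ) : ℝ := max 0 (r - ‖w‖)

/-- distance to the integers -/
noncomputable def dz (x : ℝ) : ℝ := |x - round x|

namespace Geo

variable {ι J : Type} [Fintype ι] [DecidableEq ι] [Fintype J] (G : Geo ι J)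

/-- base points of the markers -/
def sig (j : J) : ι → ℝ := fun _ => G.s j

/-- bumps -/
noncomputable def up (w : ι → ℝ) : ℝ :=
  ∑ j, ∑ t ∈ G.X j, G.al j * rho G.r (w - G.sig j - zc t)

/-- dents -/
noncomputable def dn (w : ι → ℝ) : ℝ :=
  ∑ j, ∑ t ∈ G.X' j, G.al j * rho G.r (w - G.sig j - zc t)

/-- plateau function -/
noncomputable def eta (x : ℝ) : ℝ := max 0 (min 1 (2 - dz x / G.r))

/-- shear profile -/
noncomputable def Fi (i : ι) (x : ℝ) : ℝ := ∑ j, (G.v j i : ℝ) * G.eta (x - G.s j)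

/-- first shear -/
noncomputable def shA (τ : ℝ) (w : ι → ℝ) : ι → ℝ :=
  fun i => if i = G.i0 then w G.i0 else w i + τ * G.Fi i (w G.i0)

/-- second shear -/
noncomputable def shB (τ : ℝ) (w : ι → ℝ) : ι → ℝ :=
  fun i => if i = G.i0 then w G.i0 + τ * G.Fi G.i0 (w G.i1) else w i

/-- time profile -/
noncomputable def cc (y : ℝ) : ℝ := max 0 (min 1 (2 * y - 1 / 2))

/-- the isotopy of the base -/
noncomputable def Phi (y : ℝ) (w : ι → ℝ) : ι → ℝ := G.shB (cc y) (G.shA (cc y) w)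

/-- its inverse -/
noncomputable def Psi (y : ℝ) (w : ι → ℝ) : ι → ℝ := G.shA (-cc y) (G.shB (-cc y) w)

/-- the base box -/
def BB : Set (ι → ℝ) := {w | ∀ i, 0 ≤ w i ∧ w i ≤ (G.b i : ℝ)}

/-- the open base box -/
def BBo : Set (ι → ℝ) := {w | ∀ i, 0 < w i ∧ w i < (G.b i : ℝ)}

/-- the tile -/
def T : Set (EE ι) :=
  {p | G.Psi p.2 p.1 ∈ G.BB ∧ G.dn (G.Psi p.2 p.1) ≤ p.2 ∧ p.2 ≤ 1 + G.up (G.Psi p.2 p.1)}

/-- its strict version -/
def To : Set (EE ι) :=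
  {p | G.Psi p.2 p.1 ∈ G.BBo ∧ G.dn (G.Psi p.2 p.1) < p.2 ∧ p.2 < 1 + G.up (G.Psi p.2 p.1)}

end Geo

end Pool.Agent.Helper492_PTC
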