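import Pool.Agent.Helper492_PTC.Tile

/-!
TASK Exist of the disproof of the periodic tiling conjecture for balls (helper463).
-/

set_option autoImplicit false
open MeasureTheory

namespace Pool.Agent.Helper492_PTC

namespace ExistAux

lemma zc_neg {ι : Type} (z : ι → ℤ) : zc (-z) = -zc z := by
  funext i; simp [zc]

lemma zc_add {ι : Type} (z w : ι → ℤ) : zc (z + w) = zc z + zc w := by
  funext i; simp [zc]

lemma zc_sub {ι : Type} (z w : ι → ℤ) : zc (z - w) = zc z - zc w := by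
  funext i; simp [zc]

variable {ι J : Type} [Fintype ι] [DecidableEq ι] [Fintype J] (G : Geo ι J)

lemma psi_sub (hS : ShearFacts G) (y : ℝ) (w : ι → ℝ) (z : ι → ℤ) :
    G.Psi y (w - zc z) = G.Psi y w - zc z := by
  have := hS.psi_add y w (-z)
  rwa [zc_neg, ← sub_eq_add_neg, ← sub_eq_add_neg] at this

/-- every point lies in a translate of the base box -/
lemma cover_base {A : Set (ι → ℤ)} (hA : IsTil G.b A) (w : ι → ℝ) :
    ∃ a ∈ A, w - zc a ∈ G.BB := by
  obtain ⟨a, ⟨haA, haz⟩, -⟩ := hA (fun i => ⌊w i⌋)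
  refine ⟨a, haA, fun i => ?_⟩
  have h := haz i
  simp only [Pi.sub_apply] at h
  have h1 := Int.floor_le (w i)
  have h2 := Int.lt_floor_add_one (w i)
  have h3 : ((0 : ℤ) : ℝ) ≤ ((⌊w i⌋ - a i : ℤ) : ℝ) := by exact_mod_cast h.1
  have h4 : ((⌊w i⌋ - a i + 1 : ℤ) : ℝ) ≤ ((G.b i : ℤ) : ℝ) := by
    exact_mod_cast (by omega : ⌊w i⌋ - a i + 1 ≤ (G.b i : ℤ))
  push_cast at h3 h4
  simp only [Pi.sub_apply, zc]
  constructor <;> linarith

lemma mem_ibox_of_BBo (w : ι → ℝ) (z a : ι → ℤ) (hz : ∀ i, (z i : ℝ) ≤ w i ∧ w i < (z i : ℝ) + 1)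
    (hw : w - zc a ∈ G.BBo) : z - a ∈ IBox G.b := by
  intro i
  have h := hw i
  simp only [Pi.sub_apply, zc] at h
  have h1 := hz i
  have h2 : ((a i : ℤ) : ℝ) < ((z i + 1 : ℤ) : ℝ) := by push_cast; linarith
  have h3 : ((z i : ℤ) : ℝ) < ((a i + G.b i : ℤ) : ℝ) := by push_cast; linarith
  have h4 : a i < z i + 1 := by exact_mod_cast h2
  have h5 : z i < a i + G.b i := by exact_mod_cast h3
  simp only [Pi.sub_apply]
  constructor <;> omega

/-- neighbouring levels do not overlap -/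
lemma levels (hS : ShearFacts G) (hB : BumpFacts G) {A : Set (ι → ℤ)} (hA : IsTil G.b A)
    (hR : ∀ j, RelHolds A (G.X j) (G.X' j) (G.v j)) (W : ι → ℝ) (y : ℝ) (a a' : ι → ℤ)
    (ha' : a' ∈ A) (ha : a ∈ A)
    (h1 : (W - zc a, y + 1) ∈ G.To) (h2 : (W - zc a', y) ∈ G.To) : False := by
  obtain ⟨h1a, h1b, h1c⟩ := h1
  obtain ⟨h2a, h2b, h2c⟩ := h2
  simp only at h1a h1b h1c h2a h2b h2c
  have hr8 := G.hr8
  have hup := hB.up_le (G.Psi (y + 1) (W - zc a))
  have hy0 : 0 < y := lt_of_le_of_lt (hB.dn_nonneg _) h2b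
  have hyr : y < G.r := by linarith
  have hlow : G.Psi y (W - zc a') = W - zc a' := hS.psi_low y _ (by linarith)
  rw [hlow] at h2a h2b h2c
  set w := G.Psi (y + 1) (W - zc a) with hw
  have hupos : 0 < G.up w := by linarith
  obtain ⟨k, t', ht', hk⟩ := hB.up_pos w hupos
  have hphi : G.Phi (y + 1) w = w + zc (G.v k) := hS.phi_high _ _ k t' (by linarith) hk.le
  have hW : W - zc a = w + zc (G.v k) := by rw [← hphi, hw, hS.phi_psi]
  -- the integer point
  set z : ι → ℤ := a + t' + G.v k with hz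
  have hin : InSum A (G.X k) (z - G.v k) := ⟨a, ha, by
    have : z - G.v k - a = t' := by rw [hz]; abel
    rw [this]; exact ht'⟩
  obtain ⟨a'', ha'', ht''⟩ := (hR k z).2 hin
  have hcell : ∀ i, (z i : ℝ) < W i ∧ W i < (z i : ℝ) + 1 := by
    intro i
    apply hB.cube_cell W k z i
    have : W - G.sig k - zc z = w - G.sig k - zc t' := by
      have hW' : W = w + zc (G.v k) + zc a := by rw [← hW]; abel
      rw [hW', hz, zc_add, zc_add]; abel
    rw [this]; exact hk.le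
  have hza' : z - a' ∈ IBox G.b :=
    mem_ibox_of_BBo G W z a' (fun i => ⟨(hcell i).1.le, (hcell i).2⟩) h2a
  have hza'' : z - a'' ∈ IBox G.b := G.hX' k _ ht''
  have heq : a'' = a' := (hA z).unique ⟨ha'', hza''⟩ ⟨ha', hza'⟩
  subst heq
  have hdiff : (W - zc a'') - G.sig k - zc (z - a'') = w - G.sig k - zc t' := by
    have hW' : W = w + zc (G.v k) + zc a := by rw [← hW]; abel
    rw [hW', hz, zc_sub, zc_add, zc_add]; abel
  have hdn : G.dn (W - zc a'') = G.up w := by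
    rw [hB.dn_in (W - zc a'') k (z - a'') (by rw [hdiff]; exact hk.le) ht'',
      hB.up_in w k t' hk.le ht', hdiff]
  linarith

lemma same_level (hS : ShearFacts G) {A : Set (ι → ℤ)} (hA : IsTil G.b A) (W : ι → ℝ) (y : ℝ)
    (a a' : ι → ℤ) (ha : a ∈ A) (ha' : a' ∈ A)
    (h1 : (W - zc a, y) ∈ G.To) (h2 : (W - zc a', y) ∈ G.To) : a = a' := by
  obtain ⟨h1a, -, -⟩ := h1
  obtain ⟨h2a, -, -⟩ := h2
  simp only at h1a h2a
  rw [psi_sub G hS] at h1a h2a
  set w := G.Psi y W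
  have hfl : ∀ i, (((fun i => ⌊w i⌋) i : ℤ) : ℝ) ≤ w i ∧ w i < (((fun i => ⌊w i⌋) i : ℤ) : ℝ) + 1 :=
    fun i => ⟨Int.floor_le _, Int.lt_floor_add_one _⟩
  exact (hA (fun i => ⌊w i⌋)).unique ⟨ha, mem_ibox_of_BBo G w _ a hfl h1a⟩
    ⟨ha', mem_ibox_of_BBo G w _ a' hfl h2a⟩

lemma uniq (hS : ShearFacts G) (hB : BumpFacts G) {A : Set (ι → ℤ)} (hA : IsTil G.b A)
    (hR : ∀ j, RelHolds A (G.X j) (G.X' j) (G.v j)) (x : EE ι) (a a' : ι → ℤ) (n n' : ℤ)
    (ha : a ∈ A) (ha' : a' ∈ A) (h1 : x - emb a n ∈ G.To) (h2 : x - emb a' n' ∈ G.To) :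
    emb a n = emb a' n' := by
  obtain ⟨W, Y⟩ := x
  have e1 : ((W, Y) : EE ι) - emb a n = (W - zc a, Y - n) := rfl
  have e2 : ((W, Y) : EE ι) - emb a' n' = (W - zc a', Y - n') := rfl
  rw [e1] at h1
  rw [e2] at h2
  have hr8 := G.hr8
  have hb1 : 0 < Y - n ∧ Y - n < 2 := by
    obtain ⟨-, h1b, h1c⟩ := h1
    simp only at h1b h1c
    have := hB.dn_nonneg (G.Psi (Y - n) (W - zc a))
    have := hB.up_le (G.Psi (Y - n) (W - zc a))
    constructor <;> linarith
  have hb2 : 0 < Y - n' ∧ Y - n' < 2 := by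
    obtain ⟨-, h1b, h1c⟩ := h2
    simp only at h1b h1c
    have := hB.dn_nonneg (G.Psi (Y - n') (W - zc a'))
    have := hB.up_le (G.Psi (Y - n') (W - zc a'))
    constructor <;> linarith
  have h3 : n < n' + 2 := by
    have : (n : ℝ) < ((n' + 2 : ℤ) : ℝ) := by push_cast; linarith
    exact_mod_cast this
  have h4 : n' < n + 2 := by
    have : (n' : ℝ) < ((n + 2 : ℤ) : ℝ) := by push_cast; linarith
    exact_mod_cast this
  have h5 : n = n' ∨ n' = n + 1 ∨ n = n' + 1 := by omega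
  rcases h5 with h5 | h5 | h5
  · subst h5
    rw [same_level G hS hA W (Y - n) a a' ha ha' h1 h2]
  · exfalso
    subst h5
    apply levels G hS hB hA hR W (Y - n - 1) a a' ha' ha
    · convert h1 using 2; ring
    · convert h2 using 2; push_cast; ring
  · exfalso
    subst h5
    apply levels G hS hB hA hR W (Y - n' - 1) a' a ha ha'
    · convert h2 using 2; ring
    · convert h1 using 2; push_cast; ring

lemma BBo_sub_BB : G.BBo ⊆ G.BB := fun _ h i => ⟨(h i).1.le, (h i).2.le⟩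

lemma cover (hS : ShearFacts G) (hB : BumpFacts G) {A : Set (ι → ℤ)} (hA : IsTil G.b A)
    (hR : ∀ j, RelHolds A (G.X j) (G.X' j) (G.v j)) (x : EE ι) :
    ∃ t, t ∈ Lam A ∧ x - t ∈ G.T := by
  obtain ⟨W, Y⟩ := x
  have hr8 := G.hr8
  set y : ℝ := Y - ⌊Y⌋ with hy
  have hy0 : 0 ≤ y := by rw [hy]; linarith [Int.floor_le Y]
  have hy1 : y < 1 := by rw [hy]; linarith [Int.lt_floor_add_one Y]
  obtain ⟨a, ha, haw⟩ := cover_base G hA (G.Psi y W)
  rw [← psi_sub G hS] at haw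
  by_cases hd : G.dn (G.Psi y (W - zc a)) ≤ y
  · refine ⟨emb a ⌊Y⌋, ⟨a, ha, _, rfl⟩, ?_⟩
    have e1 : ((W, Y) : EE ι) - emb a ⌊Y⌋ = (W - zc a, y) := rfl
    rw [e1]
    refine ⟨haw, hd, ?_⟩
    have := hB.up_nonneg (G.Psi y (W - zc a))
    simp only
    linarith
  · push Not at hd
    have hdr := hB.dn_le (G.Psi y (W - zc a))
    have hlow : G.Psi y (W - zc a) = W - zc a := hS.psi_low y _ (by linarith)
    rw [hlow] at hd haw hdr
    obtain ⟨j, t, ht, hj⟩ := hB.dn_pos (W - zc a) (by linarith)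
    have hin : InSum A (G.X' j) (a + t) := ⟨a, ha, by rw [add_sub_cancel_left]; exact ht⟩
    obtain ⟨a', ha', ht'⟩ := (hR j _).1 hin
    set t' : ι → ℤ := a + t - G.v j - a' with hteq
    refine ⟨emb a' (⌊Y⌋ - 1), ⟨a', ha', _, rfl⟩, ?_⟩
    have e1 : ((W, Y) : EE ι) - emb a' (⌊Y⌋ - 1) = (W - zc a', y + 1) := by
      show (W - zc a', Y - ((⌊Y⌋ - 1 : ℤ) : ℝ)) = (W - zc a', y + 1)
      rw [hy]; push_cast
      congr 1; ring
    rw [e1]
    have hpsi : G.Psi (y + 1) (W - zc a') = W - zc a' - zc (G.v j) := by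
      apply hS.psi_high _ _ j (a + t - a') (by linarith)
      have : W - zc a' - G.sig j - zc (a + t - a') = W - zc a - G.sig j - zc t := by
        rw [zc_sub, zc_add]; abel
      rw [this]; exact hj.le
    have hdiff : W - zc a' - zc (G.v j) - G.sig j - zc t' = W - zc a - G.sig j - zc t := by
      rw [hteq, zc_sub, zc_sub, zc_add]; abel
    have hle : ‖W - zc a' - zc (G.v j) - G.sig j - zc t'‖ ≤ G.r := by rw [hdiff]; exact hj.le
    have hup : G.up (W - zc a' - zc (G.v j)) = G.dn (W - zc a) := by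
      rw [hB.up_in _ j t' hle ht', hB.dn_in _ j t hj.le ht, hdiff]
    refine ⟨?_, ?_, ?_⟩
    · simp only
      rw [hpsi]
      exact BBo_sub_BB G (hB.cube_box _ j t' hle (G.hX j _ ht'))
    · simp only
      rw [hpsi]
      have := hB.dn_le (W - zc a' - zc (G.v j))
      linarith
    · simp only
      rw [hpsi, hup]
      linarith

end ExistAux

open ExistAux TileA in
theorem exist : StmtExist := by
  intro ι J _ _ _ G hS hB hT A hA hR
  haveI := haarEE ι
  have hnull : ∀ᵐ x ∂(volume : Measure (EE ι)), ∀ (z : ι → ℤ) (n : ℤ),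
      x - emb z n ∉ frontier G.T := by
    rw [ae_all_iff]; intro z
    rw [ae_all_iff]; intro n
    rw [ae_iff]
    have h1 : {x : EE ι | ¬ (x - emb z n ∉ frontier G.T)} =
        (fun x : EE ι => x + (-emb z n)) ⁻¹' (frontier G.T) := by
      ext x; simp [sub_eq_add_neg]
    rw [h1, measure_preimage_add_right]
    exact hT.null
  filter_upwards [hnull] with x hx
  obtain ⟨t, ht, hxt⟩ := cover G hS hB hA hR x
  refine ⟨t, ⟨ht, hxt⟩, ?_⟩
  rintro s ⟨hs, hxs⟩
  obtain ⟨a, ha, n, rfl⟩ := ht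
  obtain ⟨a', ha', n', rfl⟩ := hs
  have key : ∀ (z : ι → ℤ) (m : ℤ), x - emb z m ∈ G.T → x - emb z m ∈ G.To := by
    intro z m h
    rw [← hT.interior_T]
    by_contra hcon
    exact hx z m ⟨subset_closure h, hcon⟩
  exact uniq G hS hB hA hR x a' a n' n ha' ha (key _ _ hxs) (key _ _ hxt)

end Pool.Agent.Helper492_PTC
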