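import Pool.Agent.Helper492_PTC.Defs

/-!
Statements of the pieces of Part 1 and Part 2.
-/

set_option autoImplicit false

namespace Pool.Agent.Helper492_PTC

/-! ### Part 1 -/

/-- One-variable form of a solution of the system of Part 1.  Indices live in `Fin 3`,
with cyclic addition. -/
structure Sol1 (L : Fin 3 → ℤ → Fin 3) (T : Fin 3 → ℤ → Bool)
    (LD : Fin 3 → ℤ → Fin 3) (TD : Fin 3 → ℤ → Bool)
    (K M : Fin 3 → ℤ → Bool) : Prop where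
  S3 : ∀ a : Fin 3 → ℤ, a 0 + a 1 + a 2 = 0 → ∀ X : Fin 3,
    L X (a X) = L (X + 1) (a (X + 1)) → T X (a X) = T (X + 1) (a (X + 1)) →
      L (X + 2) (a (X + 2)) = L X (a X) + 1 ∨
      (L (X + 2) (a (X + 2)) = L X (a X) ∧ T (X + 2) (a (X + 2)) ≠ T X (a X))
  Q1 : ∀ a : Fin 3 → ℤ, a 0 + a 1 + a 2 = 0 → ∀ X : Fin 3,
    L (X + 1) (a (X + 1)) = L (X + 2) (a (X + 2)) →
    T (X + 1) (a (X + 1)) = T (X + 2) (a (X + 2)) →
    L X (a X) = L (X + 1) (a (X + 1)) + 1 →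
      LD X (a X + 4 * a (X + 1)) = L X (a X) ∧ TD X (a X + 4 * a (X + 1)) ≠ T X (a X)
  Q2 : ∀ a : Fin 3 → ℤ, a 0 + a 1 + a 2 = 0 → ∀ X : Fin 3,
    L X (a X) = L (X + 1) (a (X + 1)) → L X (a X) = LD X (a X + 4 * a (X + 1)) →
      TD X (a X + 4 * a (X + 1)) = T X (a X)
  B1 : ∀ (X : Fin 3) (n : ℤ), K X n = true → L X n = 0 ∧ T X n = M X n
  B2 : ∀ a : Fin 3 → ℤ, a 0 + a 1 + a 2 = 0 →
    (K 0 (a 0) ^^ K 1 (a 1) ^^ K 2 (a 2)) = false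
  CK : ∀ (X : Fin 3) (n : ℤ), K X (n + 1) = !(K X n)
  CM : ∀ (X : Fin 3) (n : ℤ), M X (n + 2) = !(M X n)

/-- TASK P1Ex. -/
def StmtP1Ex : Prop := ∃ L T LD TD K M, Sol1 L T LD TD K M

/-- TASK P1Non. -/
def StmtP1Non : Prop := ∀ L T LD TD K M, Sol1 L T LD TD K M →
  ∀ n : ℕ, 0 < n → ¬ ∀ m : ℤ, T 0 (m + n) = T 0 m

/-- TASK P1Asm. -/
def StmtP1Asm : Prop := StmtP1Ex → StmtP1Non → StmtPart1

/-! ### Part 2 -/

/-- The index set of coordinates. -/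
inductive Ix (Om C : Type) : Type
  | g1 : Ix Om C
  | g2 : Ix Om C
  | u : Ix Om C
  | w : Ix Om C
  | P (i : Om) : Ix Om C
  | R (i : Om) : Ix Om C
  | p (c : C) (l : Fin 3) : Ix Om C
  deriving DecidableEq

/-- The sides of the box. -/
def bIx {Om C : Type} : Ix Om C → ℕ
  | .g1 => 1
  | .g2 => 1
  | .u => 1
  | .w => 1
  | .P _ => 2
  | .R _ => 2
  | .p _ _ => 2

/-- A linear relation between corner parities. -/
def Lin {ι : Type} (b : ι → ℕ) (A : Set (ι → ℤ)) (S : Finset ι) (v : ι → ℤ) (c : ZMod 2) : Prop :=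
  ∀ z a a', a ∈ A → z - a ∈ IBox b → a' ∈ A → z + v - a' ∈ IBox b →
    ∑ i ∈ S, ((a' i : ℤ) : ZMod 2) = ∑ i ∈ S, ((a i : ℤ) : ZMod 2) + c

section
variable {Om F C : Type} [DecidableEq Om] [DecidableEq C] [Fintype Om]

/-- Embedding of a plane vector. -/
def hv (h : ℤ × ℤ) : Ix Om C → ℤ := Pi.single .g1 h.1 + Pi.single .g2 h.2

/-- All relations of Part 2. -/
structure P2Rel (D : FC Om F C) (A : Set (Ix Om C → ℤ)) : Prop where
  r1 : ∀ (i : Om) (k : Ix Om C), k ≠ .g1 → k ≠ .g2 → k ≠ .u →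
    Lin bIx A {.R i} (Pi.single k 1) 0
  r2 : ∀ i : Om, Lin bIx A {.R i} (Pi.single .u 2) 0
  r3 : ∀ i : Om, Lin bIx A {.P i, .R i} (Pi.single .u 1) 0
  r4 : ∀ i j : Om, i ≠ j → Lin bIx A {.P i} (Pi.single (.P j) 2 + Pi.single .u 1) 0
  r5 : Lin bIx A (Finset.univ.image Ix.R) (Pi.single .u 1) 1
  r6 : ∀ f, Lin bIx A ((Finset.univ.filter (fun i => D.SF f i = true)).image Ix.R) (hv (D.hF f)) 0
  r7a : ∀ c, Lin bIx A ((Finset.univ.filter (fun i => D.SC c i = true)).image Ix.R ∪ {.p c 0})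
    (Pi.single .u 1) 0
  r7b : ∀ c, ∀ a : Fin 3 → Bool, (∃ l, a l = true) →
    Lin bIx A ((Finset.univ.filter (fun l => a l = true)).image (Ix.p c))
      (Pi.single .w (if a 0 then 1 else 0) + Pi.single .u (if a 1 then 1 else 0) +
        hv (if a 2 then D.hC c else 0)) 1

end

/-- TASK P2Conv. -/
def StmtP2Conv : Prop :=
  ∀ (Om F C : Type) [DecidableEq Om] [DecidableEq C] [Fintype Om] (D : FC Om F C)
    (A : Set (Ix Om C → ℤ)), IsTil bIx A → P2Rel D A →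
    ∃ s, D.IsSol s ∧ ∀ n : ℤ, (∀ i, ∀ a ∈ A, a + Pi.single i n ∈ A) →
      ∀ x : ℤ × ℤ, s (x + (n, 0)) = s x

/-- TASK P2Ex. -/
def StmtP2Ex : Prop :=
  ∀ (Om F C : Type) [DecidableEq Om] [DecidableEq C] [Fintype Om] (D : FC Om F C)
    (s : ℤ × ℤ → Om), D.IsSol s → ∃ A : Set (Ix Om C → ℤ), IsTil bIx A ∧ P2Rel D A

/-- TASK P2Lin: linear relations are tile relations. -/
def StmtP2Lin : Prop :=
  ∀ (ι : Type) [Fintype ι] [DecidableEq ι] (b : ι → ℕ) (S : Finset ι) (v : ι → ℤ) (c : ZMod 2),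
    ∃ X X' : Finset (ι → ℤ), (∀ t ∈ X, t ∈ IBox b) ∧ (∀ t ∈ X', t ∈ IBox b) ∧
      ∀ A, IsTil b A → (RelHolds A X X' v ↔ Lin b A S v c)

/-- TASK P2Asm. -/
def StmtP2Asm : Prop := StmtPart1 → StmtP2Conv → StmtP2Ex → StmtP2Lin → StmtPart2

end Pool.Agent.Helper492_PTC
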