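import Pool.Agent.Helper492_PTC.Stmts
import Pool.Agent.Helper492_PTC.Stmts2

/-!
Assembly of Part 3.
-/

set_option autoImplicit false
open MeasureTheory

namespace Pool.Agent.Helper492_PTC
namespace Fin0

variable {ι : Type} [Fintype ι] [DecidableEq ι]

/-- The box as a finite set. -/
noncomputable def boxF (b : ι → ℕ) : Finset (ι → ℤ) := Fintype.piFinset (fun i => Finset.Ico 0 (b i : ℤ))

lemma mem_boxF (b : ι → ℕ) (t : ι → ℤ) : t ∈ boxF b ↔ t ∈ IBox b := by
  simp [boxF, IBox, Fintype.mem_piFinset]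

lemma rel_box (b : ι → ℕ) (A : Set (ι → ℤ)) (hA : IsTil b A) (v : ι → ℤ) :
    RelHolds A (boxF b : Set (ι → ℤ)) (boxF b : Set (ι → ℤ)) v := by
  have h : ∀ z, InSum A (boxF b : Set (ι → ℤ)) z := by
    intro z
    obtain ⟨a, ⟨ha, hz⟩, -⟩ := hA z
    exact ⟨a, ha, by simpa [mem_boxF] using hz⟩
  intro z
  exact ⟨fun _ => h _, fun _ => h _⟩

omit [Fintype ι] [DecidableEq ι] in
lemma rel_zero (A : Set (ι → ℤ)) :
    RelHolds A (({0} : Finset (ι → ℤ)) : Set (ι → ℤ)) (({0} : Finset (ι → ℤ)) : Set (ι → ℤ)) 0 := by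
  intro z
  simp

/-- All translates of a point by integer combinations of periods. -/
lemma comb_mem {E : Type} [AddCommGroup E] {L : Set E} {n : ℕ} (v : Fin n → E)
    (hv : ∀ i, ∀ t ∈ L, t + v i ∈ L ∧ t - v i ∈ L) (c : Fin n → ℤ) (s : Finset (Fin n)) :
    ∀ t ∈ L, t + ∑ k ∈ s, c k • v k ∈ L := by
  have h1 : ∀ (i : Fin n) (m : ℕ), ∀ t ∈ L, t + (m : ℤ) • v i ∈ L ∧ t - (m : ℤ) • v i ∈ L := by
    intro i m
    induction m with
    | zero => intro t ht; simpa using ht
    | succ m ih =>
      intro t ht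
      constructor
      · have := (hv i _ (ih t ht).1).1
        have e : t + ((m + 1 : ℕ) : ℤ) • v i = t + (m : ℤ) • v i + v i := by
          push_cast; rw [add_smul, one_smul]; abel
        rw [e]; exact this
      · have := (hv i _ (ih t ht).2).2
        have e : t - ((m + 1 : ℕ) : ℤ) • v i = t - (m : ℤ) • v i - v i := by
          push_cast; rw [add_smul, one_smul]; abel
        rw [e]; exact this
  have h2 : ∀ (i : Fin n) (m : ℤ), ∀ t ∈ L, t + m • v i ∈ L := by
    intro i m t ht
    obtain ⟨k, rfl | rfl⟩ := m.eq_nat_or_neg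
    · exact (h1 i k t ht).1
    · have := (h1 i k t ht).2
      rw [neg_smul, ← sub_eq_add_neg]
      exact this
  induction s using Finset.induction_on with
  | empty => intro t ht; simpa using ht
  | insert a s ha ih =>
    intro t ht
    rw [Finset.sum_insert ha]
    have := h2 a (c a) _ (ih t ht)
    have e : t + (c a • v a + ∑ k ∈ s, c k • v k) = t + ∑ k ∈ s, c k • v k + c a • v a := by abel
    rw [e]; exact this

omit [Fintype ι] [DecidableEq ι] in
lemma emb_add (a b : ι → ℤ) (m n : ℤ) : emb a m + emb b n = emb (a + b) (m + n) := by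
  unfold emb zc
  ext
  · simp
  · simp

end Fin0

open Fin0 in
theorem final (hP : StmtPart2) (hShear : StmtShear) (hBump : StmtBump) (hTile : StmtTile)
    (hExist : StmtExist) (hGen : StmtGen) (hTip : StmtTip) (hM : StmtLemM) (hAlign : StmtAlign)
    (hSlices : StmtSlices) (hParam : StmtParam) (hPeriod : StmtPeriod)
    (hTransfer : StmtTransfer) : Goal := by
  obtain ⟨ι, J, _, _, _, b, X, X', v, i0, i1, hb, h01, hX, hX', ⟨A0, hA0, hA0r⟩, hno⟩ := hP
  classical
  -- augmented family
  let J2 : Type := J ⊕ (Option (ι × Bool) ⊕ Unit)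
  let X2 : J2 → Finset (ι → ℤ) := fun j => match j with
    | Sum.inl j => X j
    | Sum.inr (Sum.inl _) => boxF b
    | Sum.inr (Sum.inr _) => {0}
  let X2' : J2 → Finset (ι → ℤ) := fun j => match j with
    | Sum.inl j => X' j
    | Sum.inr (Sum.inl _) => boxF b
    | Sum.inr (Sum.inr _) => {0}
  let v2 : J2 → ι → ℤ := fun j => match j with
    | Sum.inl j => v j
    | Sum.inr (Sum.inl none) => 0
    | Sum.inr (Sum.inl (some (i, true))) => Pi.single i 1
    | Sum.inr (Sum.inl (some (i, false))) => Pi.single i (-1)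
    | Sum.inr (Sum.inr _) => 0
  have h0box : (0 : ι → ℤ) ∈ IBox b := by
    intro i
    have := hb i
    simp only [Pi.zero_apply]
    omega
  obtain ⟨G, hGb, hGX, hGX', hGv⟩ := hParam ι J2 b hb X2 X2' v2 i0 i1 h01
    (by
      rintro (j | (j | j)) t ht
      · exact hX j t ht
      · exact (mem_boxF b t).1 ht
      · have : t = 0 := by simpa [X2] using ht
        rw [this]; exact h0box)
    (by
      rintro (j | (j | j)) t ht
      · exact hX' j t ht
      · exact (mem_boxF b t).1 ht
      · have : t = 0 := by simpa [X2'] using ht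
        rw [this]; exact h0box)
  subst hGb
  -- relations
  have hrel : ∀ A, IsTil G.b A → ((∀ j, RelHolds A (X j : Set (ι → ℤ)) (X' j : Set (ι → ℤ)) (v j)) ↔
      ∀ j, RelHolds A (G.X j : Set (ι → ℤ)) (G.X' j : Set (ι → ℤ)) (G.v j)) := by
    intro A hA
    rw [hGX, hGX', hGv]
    constructor
    · rintro h (j | (j | j))
      · exact h j
      · exact rel_box _ A hA _
      · exact rel_zero A
    · intro h j
      exact h (Sum.inl j)
  have hR : Rich G := by
    constructor
    · refine ⟨Sum.inr (Sum.inl none), ?_, ?_, ?_⟩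
      · rw [hGX]; exact mem_boxF _
      · rw [hGX']; exact mem_boxF _
      · rw [hGv]
    · intro i
      refine ⟨Sum.inr (Sum.inl (some (i, true))), ?_, ?_, ?_⟩
      · rw [hGX]; exact mem_boxF _
      · rw [hGX']; exact mem_boxF _
      · rw [hGv]
    · intro i
      refine ⟨Sum.inr (Sum.inl (some (i, false))), ?_, ?_, ?_⟩
      · rw [hGX]; exact mem_boxF _
      · rw [hGX']; exact mem_boxF _
      · rw [hGv]
    · refine ⟨Sum.inr (Sum.inr ()), ?_, ?_, ?_⟩
      · rw [hGX]; intro t; simp [X2]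
      · rw [hGX']; intro t; simp [X2']
      · rw [hGv]
  have hS := hShear ι J2 G
  have hB := hBump ι J2 G
  have hT := hTile ι J2 G hS hB
  refine hTransfer ι G.b G.hb G.T hT.homeo ?_ ?_
  · exact ⟨_, hExist ι J2 G hS hB hT A0 hA0 ((hrel A0 hA0).1 hA0r)⟩
  · intro L hL n w hn hw hper
    have hne : (interior G.T).Nonempty := by
      rw [hT.interior_T]
      by_contra hcon
      rw [Set.not_nonempty_iff_eq_empty] at hcon
      have h1 := hT.closure_To
      rw [hcon, closure_empty] at h1
      -- then no point is covered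
      have h2 : ∀ᵐ x ∂(volume : Measure (EE ι)), False := by
        filter_upwards [hL] with x hx
        obtain ⟨t, ⟨-, ht⟩, -⟩ := hx
        rw [← h1] at ht
        exact ht
      rw [Filter.eventually_false_iff_eq_bot, ae_eq_bot] at h2
      have h3 : (volume : Measure (EE ι)) Set.univ ≠ 0 :=
        isOpen_univ.measure_ne_zero _ Set.univ_nonempty
      rw [h2] at h3
      exact h3 rfl
    have hF : TilFacts G.T L := by
      refine hGen ι G.T L hT.compact ?_ (hne.mono interior_subset) hL
      rw [hT.interior_T, hT.closure_To]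
    have hM' := hM ι J2 G hS hB hT (hTip ι J2 G hS hB) L hF
    have hAl := hAlign ι J2 G hS hB hT hR L hF hM'
    obtain ⟨l, hl, -⟩ := hF.cover 0
    obtain ⟨A, hA1, hA2, hA3⟩ := hSlices ι J2 G hS hB hT hR L hF hM' hAl l hl
    obtain ⟨N, hN, hNi⟩ := hPeriod ι n w hn hw (by
      intro k
      obtain ⟨z, m, hzm⟩ := hAl l hl _ (hper k l hl).1
      exact ⟨z, m, add_left_cancel hzm⟩)
    refine hno A hA2 ((hrel A hA2).2 hA3) N hN ?_
    intro i a ha
    obtain ⟨c, hc⟩ := hNi i
    have h1 : l + emb a 0 ∈ L := (hA1 a 0).2 ha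
    have h2 := comb_mem w hper c Finset.univ _ h1
    rw [← hc, add_assoc, emb_add, add_zero] at h2
    exact (hA1 _ 0).1 h2

end Pool.Agent.Helper492_PTC
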