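import Pool.Agent.Helper492_PTC.Tile

/-!
General facts about almost everywhere tilings.
-/

set_option autoImplicit false
open MeasureTheory

namespace Pool.Agent.Helper492_PTC
namespace GenA

set_option linter.unusedSectionVars false

variable {ι : Type} [Fintype ι]

/-- Almost everywhere facts hold somewhere in each nonempty open set. -/
lemma ae_open {P : EE ι → Prop} (h : ∀ᵐ x ∂(volume : Measure (EE ι)), P x) {U : Set (EE ι)}
    (hU : IsOpen U) (hne : U.Nonempty) : ∃ x ∈ U, P x := by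
  have := TileA.haarEE ι
  by_contra hcon
  push Not at hcon
  have h1 : (volume : Measure (EE ι)) U = 0 := by
    refine measure_mono_null ?_ h
    intro x hx
    exact hcon x hx
  exact (hU.measure_pos _ hne).ne' h1

/-- translated preimages of open sets are open -/
lemma open_tr {U : Set (EE ι)} (hU : IsOpen U) (l : EE ι) : IsOpen {x | x - l ∈ U} :=
  hU.preimage (continuous_id.sub continuous_const)

lemma closed_tr {U : Set (EE ι)} (hU : IsClosed U) (l : EE ι) : IsClosed {x | x - l ∈ U} :=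
  hU.preimage (continuous_id.sub continuous_const)

lemma disj {T L : Set (EE ι)} (hcl : T ⊆ closure (interior T)) (h : AETil T L) :
    ∀ l ∈ L, ∀ m ∈ L, l ≠ m → ∀ x, x - l ∈ interior T → x - m ∉ T := by
  intro l hl m hm hlm x hx hxm
  -- find a point in both interiors
  have h1 : x - m ∈ closure (interior T) := hcl hxm
  let U : Set (EE ι) := {y | y - l ∈ interior T} ∩ {y | y - m ∈ interior T}
  have hU : IsOpen U := (open_tr isOpen_interior l).inter (open_tr isOpen_interior m)
  have hne : U.Nonempty := by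
    rw [mem_closure_iff] at h1
    have hV : IsOpen {y : EE ι | y + m - l ∈ interior T} :=
      isOpen_interior.preimage ((continuous_id.add continuous_const).sub continuous_const)
    obtain ⟨y, hy1, hy2⟩ := h1 _ hV (by
      show x - m + m - l ∈ interior T
      rw [sub_add_cancel]; exact hx)
    refine ⟨y + m, hy1, ?_⟩
    show y + m - m ∈ interior T
    rw [add_sub_cancel_right]; exact hy2
  obtain ⟨y, hyU, hy⟩ := ae_open h hU hne
  exact hlm (hy.unique ⟨hl, interior_subset hyU.1⟩ ⟨hm, interior_subset hyU.2⟩)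

/-- The translation set is separated. -/
lemma sep {T L : Set (EE ι)} (hcl : T ⊆ closure (interior T)) (hne : T.Nonempty)
    (h : AETil T L) : ∃ δ > 0, ∀ l ∈ L, ∀ m ∈ L, ‖l - m‖ < δ → l = m := by
  have h1 : (interior T).Nonempty := by
    obtain ⟨t, ht⟩ := hne
    exact closure_nonempty_iff.1 ⟨t, hcl ht⟩
  obtain ⟨c, hc⟩ := h1
  obtain ⟨δ, hδ, hball⟩ := Metric.isOpen_iff.1 isOpen_interior c hc
  refine ⟨δ, hδ, ?_⟩
  intro l hl m hm hlm
  by_contra hne
  refine disj hcl h l hl m hm hne (c + l) (by simpa using hc) ?_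
  apply interior_subset
  apply hball
  rw [Metric.mem_ball, dist_eq_norm]
  have e : c + l - m - c = l - m := by abel
  rw [e]; exact hlm

/-- Separated sets are locally finite. -/
lemma fin_ball {L : Set (EE ι)} {δ : ℝ} (hδ : 0 < δ)
    (h : ∀ l ∈ L, ∀ m ∈ L, ‖l - m‖ < δ → l = m) (x : EE ι) (R : ℝ) :
    (L ∩ Metric.closedBall x R).Finite := by
  by_contra hcon
  have hinf : (L ∩ Metric.closedBall x R).Infinite := hcon
  obtain ⟨y, -, hy⟩ := hinf.exists_accPt_of_subset_isCompact (isCompact_closedBall x R)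
    Set.inter_subset_right
  rw [accPt_iff_nhds] at hy
  obtain ⟨a, ⟨ha1, ha2⟩, ha3⟩ := hy (Metric.ball y (δ / 2)) (Metric.ball_mem_nhds _ (by positivity))
  have hpos : 0 < dist a y := dist_pos.2 ha3
  obtain ⟨b, ⟨hb1, hb2⟩, hb3⟩ := hy (Metric.ball y (min (δ / 2) (dist a y)))
    (Metric.ball_mem_nhds _ (by positivity))
  rw [Metric.mem_ball] at ha1 hb1
  have h1 := (lt_min_iff.1 hb1)
  have h2 : ‖a - b‖ < δ := by
    rw [← dist_eq_norm]
    calc dist a b ≤ dist a y + dist b y := dist_triangle_right a b y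
      _ < δ / 2 + δ / 2 := by linarith [h1.1]
      _ = δ := by ring
  have h3 := h a ha2.1 b hb2.1 h2
  rw [h3] at h1
  exact lt_irrefl _ h1.2

end GenA

open GenA in
theorem gen : StmtGen := by
  intro ι _ T L hT hcl hne h
  obtain ⟨δ, hδ, hsep⟩ := sep hcl hne h
  obtain ⟨R, hR⟩ : ∃ R : ℝ, ∀ t ∈ T, ‖t‖ ≤ R := hT.isBounded.exists_norm_le
  -- tiles meeting the unit ball around x
  have hfin : ∀ x : EE ι, (L ∩ Metric.closedBall x (R + 1)).Finite := fun x => fin_ball hδ hsep x _
  have hin : ∀ x y : EE ι, ‖y - x‖ < 1 → ∀ l, y - l ∈ T → l ∈ Metric.closedBall x (R + 1) := by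
    intro x y hxy l hl
    rw [Metric.mem_closedBall, dist_eq_norm]
    have h1 := hR _ hl
    have e : l - x = (y - x) - (y - l) := by abel
    rw [e]
    calc ‖(y - x) - (y - l)‖ ≤ ‖y - x‖ + ‖y - l‖ := norm_sub_le _ _
      _ ≤ R + 1 := by linarith
  have hlocfin : ∀ x, ∃ ε > 0, ∀ y, ‖y - x‖ < ε → ∀ l ∈ L, y - l ∈ T → x - l ∈ T := by
    intro x
    -- the union of the finitely many tiles not containing x is closed
    let F : Set (EE ι) := {l ∈ L ∩ Metric.closedBall x (R + 1) | x - l ∉ T}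
    have hF : F.Finite := (hfin x).subset (fun l hl => hl.1)
    let C : Set (EE ι) := ⋃ l ∈ F, {y | y - l ∈ T}
    have hC : IsClosed C := hF.isClosed_biUnion (fun l _ => closed_tr hT.isClosed l)
    have hx : x ∈ Cᶜ := by
      intro hx
      obtain ⟨l, hl, hxl⟩ := Set.mem_iUnion₂.1 hx
      exact hl.2 hxl
    obtain ⟨ε, hε, hball⟩ := Metric.isOpen_iff.1 hC.isOpen_compl x hx
    refine ⟨min ε 1, by positivity, ?_⟩
    intro y hy l hl hyl
    by_contra hcon
    have h1 : y ∈ Cᶜ := hball (by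
      rw [Metric.mem_ball, dist_eq_norm]; exact lt_of_lt_of_le hy (min_le_left _ _))
    apply h1
    apply Set.mem_iUnion₂.2
    exact ⟨l, ⟨⟨hl, hin x y (lt_of_lt_of_le hy (min_le_right _ _)) l hyl⟩, hcon⟩, hyl⟩
  refine ⟨disj hcl h, ?_, hlocfin⟩
  intro x
  by_contra hcon
  push Not at hcon
  obtain ⟨ε, hε, hx⟩ := hlocfin x
  obtain ⟨y, hy, hy2⟩ := ae_open h (Metric.isOpen_ball (x := x) (ε := ε))
    ⟨x, Metric.mem_ball_self hε⟩
  obtain ⟨l, ⟨hl, hyl⟩, -⟩ := hy2
  rw [Metric.mem_ball, dist_eq_norm] at hy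
  exact hcon l hl (hx y hy l hl hyl)

end Pool.Agent.Helper492_PTC
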