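import Pool.Agent.Helper492_PTC.Stmts

/-!
Task LemM: the matching lemma at an apex of a dent.
-/

set_option autoImplicit false
open MeasureTheory

namespace Pool.Agent.Helper492_PTC
namespace LemMaux

variable {ι J : Type} [Fintype ι] [DecidableEq ι] [Fintype J] {G : Geo ι J}

omit [Fintype ι] [DecidableEq ι] [Fintype J] in
lemma al_r_le (G : Geo ι J) (j : J) : 0 < G.al j * G.r ∧ G.al j * G.r < 1 / 8 := by
  have h1 := (G.hal j).1
  have h2 := (G.hal j).2
  have h3 := G.hr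
  have h4 := G.hr8
  constructor
  · positivity
  · nlinarith

omit [Fintype ι] [DecidableEq ι] in
lemma sub_sub_cancel3 (a b c : ι → ℝ) : a + b + c - a - b = c := by abel

/-- The low part of the tile near the apex of a dent. -/
lemma dent_in (hS : ShearFacts G) (hB : BumpFacts G) (j : J) (t : ι → ℤ) (ht : t ∈ G.X' j)
    (ξ : ι → ℝ) (h : ℝ) (hξ : ‖ξ‖ ≤ G.r) (hh : |h| ≤ 1 / 8) (hlt : - (G.al j * ‖ξ‖) < h) :
    ((G.sig j + zc t + ξ, G.al j * G.r + h) : EE ι) ∈ G.To := by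
  have hal := al_r_le G j
  obtain ⟨hh1, hh2⟩ := abs_le.1 hh
  have hpsi : G.Psi (G.al j * G.r + h) (G.sig j + zc t + ξ) = G.sig j + zc t + ξ := by
    apply hS.psi_low
    linarith [hal.2]
  have hn : ‖G.sig j + zc t + ξ - G.sig j - zc t‖ ≤ G.r := by
    rw [sub_sub_cancel3]; exact hξ
  have hdn := hB.dn_in (G.sig j + zc t + ξ) j t hn ht
  rw [sub_sub_cancel3] at hdn
  have hup := hB.up_nonneg (G.sig j + zc t + ξ)
  refine ⟨?_, ?_, ?_⟩
  · change G.Psi (G.al j * G.r + h) (G.sig j + zc t + ξ) ∈ G.BBo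
    rw [hpsi]
    exact hB.cube_box _ j t hn (G.hX' j t ht)
  · change G.dn (G.Psi (G.al j * G.r + h) (G.sig j + zc t + ξ)) < G.al j * G.r + h
    rw [hpsi, hdn]
    nlinarith
  · change G.al j * G.r + h < 1 + G.up (G.Psi (G.al j * G.r + h) (G.sig j + zc t + ξ))
    rw [hpsi]
    linarith [hal.2]

lemma dent_out (hS : ShearFacts G) (hB : BumpFacts G) (j : J) (t : ι → ℤ) (ht : t ∈ G.X' j)
    (ξ : ι → ℝ) (h : ℝ) (hξ : ‖ξ‖ ≤ G.r) (hh : |h| ≤ 1 / 8) (hlt : h < - (G.al j * ‖ξ‖)) :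
    ((G.sig j + zc t + ξ, G.al j * G.r + h) : EE ι) ∉ G.T := by
  have hal := al_r_le G j
  obtain ⟨hh1, hh2⟩ := abs_le.1 hh
  have hpsi : G.Psi (G.al j * G.r + h) (G.sig j + zc t + ξ) = G.sig j + zc t + ξ := by
    apply hS.psi_low
    linarith [hal.2]
  have hn : ‖G.sig j + zc t + ξ - G.sig j - zc t‖ ≤ G.r := by
    rw [sub_sub_cancel3]; exact hξ
  have hdn := hB.dn_in (G.sig j + zc t + ξ) j t hn ht
  rw [sub_sub_cancel3] at hdn
  rintro ⟨-, h2, -⟩
  change G.dn (G.Psi (G.al j * G.r + h) (G.sig j + zc t + ξ)) ≤ G.al j * G.r + h at h2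
  rw [hpsi, hdn] at h2
  nlinarith

/-- The high part of the tile near the tip of a bump. -/
lemma tip_psi (hS : ShearFacts G) (k : J) (t : ι → ℤ)
    (ξ : ι → ℝ) (h : ℝ) (hξ : ‖ξ‖ ≤ G.r) (hh : |h| ≤ 1 / 8) :
    G.Psi (1 + G.al k * G.r + h) (G.sig k + zc t + zc (G.v k) + ξ) = G.sig k + zc t + ξ := by
  have hal := al_r_le G k
  obtain ⟨hh1, hh2⟩ := abs_le.1 hh
  have e : G.sig k + zc t + zc (G.v k) + ξ - G.sig k - zc (t + G.v k) = ξ := by
    funext i
    simp [zc]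
    ring
  have := hS.psi_high (1 + G.al k * G.r + h) (G.sig k + zc t + zc (G.v k) + ξ) k (t + G.v k)
    (by linarith [hal.1]) (by rw [e]; exact hξ)
  rw [this]
  abel

lemma tip_in (hS : ShearFacts G) (hB : BumpFacts G) (k : J) (t : ι → ℤ) (ht : t ∈ G.X k)
    (ξ : ι → ℝ) (h : ℝ) (hξ : ‖ξ‖ ≤ G.r) (hh : |h| ≤ 1 / 8) (hle : h ≤ - (G.al k * ‖ξ‖)) :
    ((G.sig k + zc t + zc (G.v k) + ξ, 1 + G.al k * G.r + h) : EE ι) ∈ G.T := by
  have hal := al_r_le G k
  obtain ⟨hh1, hh2⟩ := abs_le.1 hh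
  have hpsi := tip_psi hS k t ξ h hξ hh
  have hn : ‖G.sig k + zc t + ξ - G.sig k - zc t‖ ≤ G.r := by
    rw [sub_sub_cancel3]; exact hξ
  have hup := hB.up_in (G.sig k + zc t + ξ) k t hn ht
  rw [sub_sub_cancel3] at hup
  have hdn := hB.dn_le (G.sig k + zc t + ξ)
  have hbox := hB.cube_box _ k t hn (G.hX k t ht)
  have h8 := G.hr8
  refine ⟨?_, ?_, ?_⟩
  · change G.Psi (1 + G.al k * G.r + h) (G.sig k + zc t + zc (G.v k) + ξ) ∈ G.BB
    rw [hpsi]
    exact fun i => ⟨(hbox i).1.le, (hbox i).2.le⟩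
  · change G.dn (G.Psi (1 + G.al k * G.r + h) (G.sig k + zc t + zc (G.v k) + ξ)) ≤ _
    rw [hpsi]
    linarith [hal.1]
  · change 1 + G.al k * G.r + h ≤
      1 + G.up (G.Psi (1 + G.al k * G.r + h) (G.sig k + zc t + zc (G.v k) + ξ))
    rw [hpsi, hup]
    nlinarith

lemma tip_int (hS : ShearFacts G) (hB : BumpFacts G) (k : J) (t : ι → ℤ) (ht : t ∈ G.X k)
    (ξ : ι → ℝ) (h : ℝ) (hξ : ‖ξ‖ ≤ G.r) (hh : |h| ≤ 1 / 8) (hle : h < - (G.al k * ‖ξ‖)) :
    ((G.sig k + zc t + zc (G.v k) + ξ, 1 + G.al k * G.r + h) : EE ι) ∈ G.To := by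
  have hal := al_r_le G k
  obtain ⟨hh1, hh2⟩ := abs_le.1 hh
  have hpsi := tip_psi hS k t ξ h hξ hh
  have hn : ‖G.sig k + zc t + ξ - G.sig k - zc t‖ ≤ G.r := by
    rw [sub_sub_cancel3]; exact hξ
  have hup := hB.up_in (G.sig k + zc t + ξ) k t hn ht
  rw [sub_sub_cancel3] at hup
  have hdn := hB.dn_le (G.sig k + zc t + ξ)
  have hbox := hB.cube_box _ k t hn (G.hX k t ht)
  have h8 := G.hr8
  refine ⟨?_, ?_, ?_⟩
  · change G.Psi (1 + G.al k * G.r + h) (G.sig k + zc t + zc (G.v k) + ξ) ∈ G.BBo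
    rw [hpsi]
    exact hbox
  · change G.dn (G.Psi (1 + G.al k * G.r + h) (G.sig k + zc t + zc (G.v k) + ξ)) < _
    rw [hpsi]
    linarith [hal.1]
  · change 1 + G.al k * G.r + h <
      1 + G.up (G.Psi (1 + G.al k * G.r + h) (G.sig k + zc t + zc (G.v k) + ξ))
    rw [hpsi, hup]
    nlinarith

lemma tip_out (hS : ShearFacts G) (hB : BumpFacts G) (k : J) (t : ι → ℤ) (ht : t ∈ G.X k)
    (ξ : ι → ℝ) (h : ℝ) (hξ : ‖ξ‖ ≤ G.r) (hh : |h| ≤ 1 / 8) (hlt : - (G.al k * ‖ξ‖) < h) :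
    ((G.sig k + zc t + zc (G.v k) + ξ, 1 + G.al k * G.r + h) : EE ι) ∉ G.T := by
  have hpsi := tip_psi hS k t ξ h hξ hh
  have hn : ‖G.sig k + zc t + ξ - G.sig k - zc t‖ ≤ G.r := by
    rw [sub_sub_cancel3]; exact hξ
  have hup := hB.up_in (G.sig k + zc t + ξ) k t hn ht
  rw [sub_sub_cancel3] at hup
  rintro ⟨-, -, h3⟩
  change 1 + G.al k * G.r + h ≤
      1 + G.up (G.Psi (1 + G.al k * G.r + h) (G.sig k + zc t + zc (G.v k) + ξ)) at h3
  rw [hpsi, hup] at h3
  nlinarith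

end LemMaux

open LemMaux in
theorem lemM : StmtLemM := by
  intro ι J _ _ _ G hS hB hT htip L hL l hl j t ht
  set P : EE ι := (G.sig j + zc t, G.al j * G.r) with hP
  have hr := G.hr
  have hr8 := G.hr8
  obtain ⟨ε, hε, hloc⟩ := hL.locfin (P + l)
  -- every other tile through the apex has a tip there
  have key : ∀ m ∈ L, m ≠ l → P + l - m ∈ G.T →
      ∃ k, ∃ t' ∈ G.X k, P + l - m = (G.sig k + zc t' + zc (G.v k), 1 + G.al k * G.r) := by
    intro m hm hml hmT
    apply htip _ hmT (min (G.r) (1 / 8)) (lt_min hr (by norm_num))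
    intro q' hq' hn hne
    by_contra hlt
    push Not at hlt
    set ξ : ι → ℝ := (q' - (P + l - m)).1 with hξ
    set h : ℝ := (q' - (P + l - m)).2 with hh
    have hn1 : ‖ξ‖ ≤ G.r := by
      have := norm_fst_le (q' - (P + l - m))
      have h2 := lt_of_lt_of_le hn (min_le_left _ _)
      linarith
    have hn2 : |h| ≤ 1 / 8 := by
      have := norm_snd_le (q' - (P + l - m))
      have h2 := lt_of_lt_of_le hn (min_le_right _ _)
      rw [Real.norm_eq_abs] at this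
      linarith
    have hh0 : 0 ≤ h := by
      have : h = q'.2 - (P + l - m).2 := rfl
      rw [this]; linarith
    have hpos : - (G.al j * ‖ξ‖) < h := by
      have ha := (G.hal j).1
      rcases lt_or_eq_of_le hh0 with h1 | h1
      · have : 0 ≤ G.al j * ‖ξ‖ := by positivity
        linarith
      · have hx : ξ ≠ 0 := by
          intro h0
          apply hne
          have : q' - (P + l - m) = 0 := Prod.ext h0 h1.symm
          exact sub_eq_zero.1 this
        have : 0 < ‖ξ‖ := norm_pos_iff.2 hx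
        have : 0 < G.al j * ‖ξ‖ := by positivity
        linarith
    have hin := dent_in hS hB j t ht ξ h hn1 hn2 hpos
    rw [← hT.interior_T] at hin
    have e1 : ((G.sig j + zc t + ξ, G.al j * G.r + h) : EE ι) = (q' + m) - l := by
      have : ((G.sig j + zc t + ξ, G.al j * G.r + h) : EE ι) = P + (q' - (P + l - m)) := by
        rw [hP, hξ, hh]; rfl
      rw [this]; abel
    rw [e1] at hin
    exact hL.disj l hl m hm (Ne.symm hml) (q' + m) hin (by simpa using hq')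
  -- a small number
  set δ : ℝ := min (ε / 2) (G.r / 2) with hδ
  have hδ0 : 0 < δ := lt_min (by linarith) (by linarith)
  have hδε : δ < ε := lt_of_le_of_lt (min_le_left _ _) (by linarith)
  have hδr : δ < G.r := lt_of_le_of_lt (min_le_right _ _) (by linarith)
  -- covering just below the apex
  have cov : ∀ (ξ : ι → ℝ) (h : ℝ), ‖ξ‖ ≤ δ → |h| ≤ δ → h < - (G.al j * ‖ξ‖) →
      ∃ m ∈ L, m ≠ l ∧ P + l - m ∈ G.T ∧ P + (ξ, h) + l - m ∈ G.T := by
    intro ξ h hξ hh hlt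
    obtain ⟨m, hm, hmT⟩ := hL.cover (P + (ξ, h) + l)
    have hout := dent_out hS hB j t ht ξ h (by linarith) (by linarith) hlt
    refine ⟨m, hm, ?_, ?_, hmT⟩
    · rintro rfl
      apply hout
      have : ((G.sig j + zc t + ξ, G.al j * G.r + h) : EE ι) = P + (ξ, h) + m - m := by
        rw [hP]; simp
      rw [this]; exact hmT
    · apply hloc (P + (ξ, h) + l) _ m hm hmT
      have : P + (ξ, h) + l - (P + l) = (ξ, h) := by abel
      rw [this, Prod.norm_def]
      exact lt_of_le_of_lt (max_le hξ (by rw [Real.norm_eq_abs]; exact hh)) hδε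
  -- the tile below the apex
  obtain ⟨m, hm, hml, hmP, -⟩ := cov 0 (-δ) (by simpa using hδ0.le) (by rw [abs_neg, abs_of_pos hδ0])
    (by simpa using hδ0)
  obtain ⟨k, t', ht', hq⟩ := key m hm hml hmP
  -- uniqueness
  have uniq : ∀ m' ∈ L, m' ≠ l → P + l - m' ∈ G.T → m' = m := by
    intro m' hm' hm'l hm'P
    by_contra hne
    obtain ⟨k', t'', ht'', hq'⟩ := key m' hm' hm'l hm'P
    have h1 := tip_int hS hB k t' ht' 0 (-δ) (by simpa using hr.le)
      (by rw [abs_neg, abs_of_pos hδ0]; linarith) (by simpa using hδ0)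
    have h2 := tip_in hS hB k' t'' ht'' 0 (-δ) (by simpa using hr.le)
      (by rw [abs_neg, abs_of_pos hδ0]; linarith) (by simpa using hδ0.le)
    rw [← hT.interior_T] at h1
    have e1 : ((G.sig k + zc t' + zc (G.v k) + 0, 1 + G.al k * G.r + -δ) : EE ι)
        = (P + (0, -δ) + l) - m := by
      have : ((G.sig k + zc t' + zc (G.v k) + 0, 1 + G.al k * G.r + -δ) : EE ι)
        = (G.sig k + zc t' + zc (G.v k), 1 + G.al k * G.r) + (0, -δ) := rfl
      rw [this, ← hq]; abel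
    have e2 : ((G.sig k' + zc t'' + zc (G.v k') + 0, 1 + G.al k' * G.r + -δ) : EE ι)
        = (P + (0, -δ) + l) - m' := by
      have : ((G.sig k' + zc t'' + zc (G.v k') + 0, 1 + G.al k' * G.r + -δ) : EE ι)
        = (G.sig k' + zc t'' + zc (G.v k'), 1 + G.al k' * G.r) + (0, -δ) := rfl
      rw [this, ← hq']; abel
    rw [e1] at h1
    rw [e2] at h2
    exact hL.disj m hm m' hm' (Ne.symm hne) _ h1 h2
  -- a vector of norm δ
  obtain ⟨ξ, hξ⟩ : ∃ ξ : ι → ℝ, ‖ξ‖ = δ := by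
    refine ⟨Pi.single G.i0 δ, ?_⟩
    rw [Pi.norm_single, Real.norm_eq_abs, abs_of_pos hδ0]
  have haj := G.hal j
  have hak := G.hal k
  have hle1 : G.al j ≤ G.al k := by
    by_contra hlt
    push Not at hlt
    have hab : |(-(G.al k * δ))| ≤ 1 / 8 := by
      rw [abs_neg, abs_of_pos (by nlinarith [hak.1])]
      nlinarith [hak.1, hak.2]
    have h1 := dent_in hS hB j t ht ξ (-(G.al k * δ)) (by rw [hξ]; exact hδr.le) hab
      (by rw [hξ]; nlinarith)
    have h2 := tip_in hS hB k t' ht' ξ (-(G.al k * δ)) (by rw [hξ]; exact hδr.le) hab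
      (by rw [hξ])
    rw [← hT.interior_T] at h1
    have e1 : ((G.sig j + zc t + ξ, G.al j * G.r + -(G.al k * δ)) : EE ι)
        = (P + (ξ, -(G.al k * δ)) + l) - l := by
      rw [hP]; simp
    have e2 : ((G.sig k + zc t' + zc (G.v k) + ξ, 1 + G.al k * G.r + -(G.al k * δ)) : EE ι)
        = (P + (ξ, -(G.al k * δ)) + l) - m := by
      have : ((G.sig k + zc t' + zc (G.v k) + ξ, 1 + G.al k * G.r + -(G.al k * δ)) : EE ι)
        = (G.sig k + zc t' + zc (G.v k), 1 + G.al k * G.r) + (ξ, -(G.al k * δ)) := rfl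
      rw [this, ← hq]; abel
    rw [e1] at h1
    rw [e2] at h2
    exact hL.disj l hl m hm (Ne.symm hml) _ h1 h2
  have hle2 : G.al k ≤ G.al j := by
    by_contra hlt
    push Not at hlt
    set h : ℝ := -((G.al j + G.al k) / 2 * δ) with hh
    have hab : |h| ≤ δ := by
      rw [hh, abs_neg, abs_of_pos (by nlinarith [hak.1, haj.1])]
      nlinarith [hak.1, hak.2, haj.1, haj.2]
    obtain ⟨m', hm', hm'l, hm'P, hm'x⟩ := cov ξ h hξ.le hab (by rw [hξ, hh]; nlinarith)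
    have hmm := uniq m' hm' hm'l hm'P
    subst hmm
    have h2 := tip_out hS hB k t' ht' ξ h (by rw [hξ]; exact hδr.le) (by linarith)
      (by rw [hξ, hh]; nlinarith)
    apply h2
    have e2 : ((G.sig k + zc t' + zc (G.v k) + ξ, 1 + G.al k * G.r + h) : EE ι)
        = P + (ξ, h) + l - m' := by
      have : ((G.sig k + zc t' + zc (G.v k) + ξ, 1 + G.al k * G.r + h) : EE ι)
        = (G.sig k + zc t' + zc (G.v k), 1 + G.al k * G.r) + (ξ, h) := rfl
      rw [this, ← hq]; abel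
    rw [e2]; exact hm'x
  have hkj : k = j := G.hinj (le_antisymm hle2 hle1)
  subst hkj
  refine ⟨t', ht', ?_⟩
  have e : l + emb (t - t' - G.v k) (-1) = m := by
    have h1 : m = P + l - (P + l - m) := by abel
    rw [h1, hq, hP]
    refine Prod.ext ?_ ?_
    · funext i
      simp [emb, zc]
      ring
    · simp [emb]
      ring
  rw [e]; exact hm

end Pool.Agent.Helper492_PTC
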