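import Pool.Agent.Helper492_PTC.Stmts2

/-!
Part 1, assembly: from one-variable solutions to a finite system on the plane lattice.
-/

set_option autoImplicit false

namespace Pool.Agent.Helper492_PTC
namespace P1A

/-- a state: lam, lamD, t, tD, kap, mu -/
abbrev St : Type := (Fin 3 → Fin 3) × (Fin 3 → Fin 3) × (Fin 3 → Bool) × (Fin 3 → Bool) ×
  (Fin 3 → Bool) × (Fin 3 → Bool)

/-- first component -/
def lam (s : St) : Fin 3 → Fin 3 := s.1
/-- second component -/
def lamD (s : St) : Fin 3 → Fin 3 := s.2.1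
/-- third component -/
def t (s : St) : Fin 3 → Bool := s.2.2.1
/-- fourth component -/
def tD (s : St) : Fin 3 → Bool := s.2.2.2.1
/-- fifth component -/
def kap (s : St) : Fin 3 → Bool := s.2.2.2.2.1
/-- sixth component -/
def mu (s : St) : Fin 3 → Bool := s.2.2.2.2.2

/-- the pointwise rules -/
structure Ok (s : St) : Prop where
  S3 : ∀ X : Fin 3, lam s X = lam s (X + 1) → t s X = t s (X + 1) →
    lam s (X + 2) = lam s X + 1 ∨ (lam s (X + 2) = lam s X ∧ t s (X + 2) ≠ t s X)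
  Q1 : ∀ X : Fin 3, lam s (X + 1) = lam s (X + 2) → t s (X + 1) = t s (X + 2) →
    lam s X = lam s (X + 1) + 1 → lamD s X = lam s X ∧ tD s X ≠ t s X
  Q2 : ∀ X : Fin 3, lam s X = lam s (X + 1) → lam s X = lamD s X → tD s X = t s X
  B1 : ∀ X : Fin 3, kap s X = true → lam s X = 0 ∧ t s X = mu s X
  B2 : (kap s 0 ^^ kap s 1 ^^ kap s 2) = false

/-- the alphabet -/
abbrev Om : Type := {s : St // Ok s}

/-- the linear forms -/
def lf (X : Fin 3) (x : ℤ × ℤ) : ℤ := ![x.1, x.2, -x.1 - x.2] X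
/-- kernel vectors -/
def hh (X : Fin 3) : ℤ × ℤ := ![(0, 1), (1, 0), (1, -1)] X
/-- kernel vectors of the derived forms -/
def hD (X : Fin 3) : ℤ × ℤ := ![(4, -1), (3, -4), (1, 3)] X
/-- unit vectors for the forms -/
def gg (X : Fin 3) : ℤ × ℤ := ![(1, 0), (0, 1), (-1, 0)] X
/-- points with given value of the form -/
def pt (X : Fin 3) (m : ℤ) : ℤ × ℤ := ![(m, 0), (0, m), (-m, 0)] X
/-- points with given value of the derived form -/
def ptD (X : Fin 3) (m : ℤ) : ℤ × ℤ := ![(m, 0), (-m, m), (0, -m)] X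
/-- coefficient -/
def kk (X : Fin 3) (x : ℤ × ℤ) : ℤ := ![x.2, x.1, -x.2] X
/-- coefficient -/
def kD (X : Fin 3) (x : ℤ × ℤ) : ℤ := ![-x.2, -(x.1 + x.2), x.1] X

/-- the derived forms -/
def df (X : Fin 3) (x : ℤ × ℤ) : ℤ := lf X x + 4 * lf (X + 1) x

lemma lf_hh (X : Fin 3) (x : ℤ × ℤ) : lf X (x + hh X) = lf X x := by
  fin_cases X
  · simp [lf, hh]
  · simp [lf, hh]
  · simp [lf, hh]
    ring

lemma df_hD (X : Fin 3) (x : ℤ × ℤ) : df X (x + hD X) = df X x := by
  fin_cases X <;> simp [df, lf, hD] <;> ring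

lemma lf_gg (X : Fin 3) (x : ℤ × ℤ) : lf X (x + gg X) = lf X x + 1 := by
  fin_cases X <;> simp [lf, gg]; ring

lemma lf_gg2 (X : Fin 3) (x : ℤ × ℤ) : lf X (x + (gg X + gg X)) = lf X x + 2 := by
  rw [← add_assoc, lf_gg, lf_gg]; ring

lemma lf_sum (x : ℤ × ℤ) : lf 0 x + lf 1 x + lf 2 x = 0 := by
  simp [lf]

lemma lf_pt (X : Fin 3) (m : ℤ) : lf X (pt X m) = m := by
  fin_cases X <;> simp [lf, pt]

lemma pt_eq (X : Fin 3) (x : ℤ × ℤ) : x = pt X (lf X x) + kk X x • hh X := by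
  fin_cases X <;> simp [lf, pt, kk, hh]

lemma ptD_eq (X : Fin 3) (x : ℤ × ℤ) : x = ptD X (df X x) + kD X x • hD X := by
  fin_cases X <;> simp [df, lf, ptD, kD, hD] <;> ext <;> simp <;> ring

/-- invariance under multiples -/
lemma inv_smul {B : Type} (f : ℤ × ℤ → B) (h : ℤ × ℤ) (hf : ∀ x, f (x + h) = f x) (k : ℤ)
    (x : ℤ × ℤ) : f (x + k • h) = f x := by
  induction k using Int.induction_on with
  | zero => simp
  | succ n ih =>
    rw [add_smul, one_smul, ← add_assoc, hf, ih]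
  | pred n ih =>
    rw [← ih, ← hf (x + (-(n : ℤ) - 1) • h), add_assoc, ← add_one_zsmul]
    congr 3
    ring

lemma via_pt {B : Type} (f : ℤ × ℤ → B) (X : Fin 3) (hf : ∀ x, f (x + hh X) = f x) (x : ℤ × ℤ) :
    f x = f (pt X (lf X x)) := by
  conv_lhs => rw [pt_eq X x]
  exact inv_smul f _ hf _ _

lemma via_ptD {B : Type} (f : ℤ × ℤ → B) (X : Fin 3) (hf : ∀ x, f (x + hD X) = f x) (x : ℤ × ℤ) :
    f x = f (ptD X (df X x)) := by
  conv_lhs => rw [ptD_eq X x]
  exact inv_smul f _ hf _ _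

/-- index of features -/
abbrev Fe : Type := (Fin 3 × Fin 3 × Bool) ⊕ (Fin 3 × Fin 3 × Bool) ⊕ Fin 3 ⊕ Fin 3
/-- index of clocks -/
abbrev Ck : Type := Fin 3 ⊕ Fin 3

/-- the system -/
def Sys : FC Om Fe Ck where
  SF
    | .inl (X, l, b), s => decide (lam s.1 X = l ∧ t s.1 X = b)
    | .inr (.inl (X, l, b)), s => decide (lamD s.1 X = l ∧ tD s.1 X = b)
    | .inr (.inr (.inl X)), s => kap s.1 X
    | .inr (.inr (.inr X)), s => mu s.1 X
  hF
    | .inl (X, _, _) => hh X
    | .inr (.inl (X, _, _)) => hD X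
    | .inr (.inr (.inl X)) => hh X
    | .inr (.inr (.inr X)) => hh X
  SC
    | .inl X, s => kap s.1 X
    | .inr X, s => mu s.1 X
  hC
    | .inl X => gg X
    | .inr X => gg X + gg X

/-- from one-variable solutions to solutions of the system -/
lemma exists_sol (h : StmtP1Ex) : ∃ s, Sys.IsSol s := by
  obtain ⟨L, T, LD, TD, K, M, H⟩ := h
  refine ⟨fun x => ⟨(fun X => L X (lf X x), fun X => LD X (df X x), fun X => T X (lf X x),
    fun X => TD X (df X x), fun X => K X (lf X x), fun X => M X (lf X x)), ?_⟩, ?_, ?_⟩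
  · constructor
    · intro X h1 h2
      exact H.S3 (fun X => lf X x) (lf_sum x) X h1 h2
    · intro X h1 h2 h3
      exact H.Q1 (fun X => lf X x) (lf_sum x) X h1 h2 h3
    · intro X h1 h2
      exact H.Q2 (fun X => lf X x) (lf_sum x) X h1 h2
    · intro X h1
      exact H.B1 X (lf X x) h1
    · exact H.B2 (fun X => lf X x) (lf_sum x)
  · rintro (⟨X, l, b⟩ | ⟨X, l, b⟩ | X | X) x
    · simp only [Sys, lam, t, lf_hh]
      congr
    · simp only [Sys, lamD, tD, df_hD]
      congr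
    · simp only [Sys, kap, lf_hh]
    · simp only [Sys, mu, lf_hh]
  · rintro (X | X) x
    · simp only [Sys, kap, lf_gg]
      exact H.CK X _
    · simp only [Sys, mu, lf_gg2]
      exact H.CM X _

lemma sol_pair {s : ℤ × ℤ → Om} (h : Sys.IsSol s) (X : Fin 3) (x : ℤ × ℤ) :
    lam (s (x + hh X)).1 X = lam (s x).1 X ∧ t (s (x + hh X)).1 X = t (s x).1 X := by
  have h1 := h.1 (.inl (X, lam (s x).1 X, t (s x).1 X)) x
  simpa [Sys] using h1

lemma sol_pairD {s : ℤ × ℤ → Om} (h : Sys.IsSol s) (X : Fin 3) (x : ℤ × ℤ) :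
    lamD (s (x + hD X)).1 X = lamD (s x).1 X ∧ tD (s (x + hD X)).1 X = tD (s x).1 X := by
  have h1 := h.1 (.inr (.inl (X, lamD (s x).1 X, tD (s x).1 X))) x
  simpa [Sys] using h1

/-- from solutions of the system to one-variable solutions -/
lemma to_sol1 {s : ℤ × ℤ → Om} (h : Sys.IsSol s) :
    Sol1 (fun X m => lam (s (pt X m)).1 X) (fun X m => t (s (pt X m)).1 X)
      (fun X m => lamD (s (ptD X m)).1 X) (fun X m => tD (s (ptD X m)).1 X)
      (fun X m => kap (s (pt X m)).1 X) (fun X m => mu (s (pt X m)).1 X) := by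
  have eL : ∀ X x, lam (s (pt X (lf X x))).1 X = lam (s x).1 X := fun X x =>
    (via_pt (fun x => lam (s x).1 X) X (fun x => (sol_pair h X x).1) x).symm
  have eT : ∀ X x, t (s (pt X (lf X x))).1 X = t (s x).1 X := fun X x =>
    (via_pt (fun x => t (s x).1 X) X (fun x => (sol_pair h X x).2) x).symm
  have eLD : ∀ X x, lamD (s (ptD X (df X x))).1 X = lamD (s x).1 X := fun X x =>
    (via_ptD (fun x => lamD (s x).1 X) X (fun x => (sol_pairD h X x).1) x).symm
  have eTD : ∀ X x, tD (s (ptD X (df X x))).1 X = tD (s x).1 X := fun X x =>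
    (via_ptD (fun x => tD (s x).1 X) X (fun x => (sol_pairD h X x).2) x).symm
  have eK : ∀ X x, kap (s (pt X (lf X x))).1 X = kap (s x).1 X := fun X x =>
    (via_pt (fun x => kap (s x).1 X) X (fun x => h.1 (.inr (.inr (.inl X))) x) x).symm
  have eM : ∀ X x, mu (s (pt X (lf X x))).1 X = mu (s x).1 X := fun X x =>
    (via_pt (fun x => mu (s x).1 X) X (fun x => h.1 (.inr (.inr (.inr X))) x) x).symm
  have key : ∀ a : Fin 3 → ℤ, a 0 + a 1 + a 2 = 0 → ∃ x : ℤ × ℤ, ∀ X, a X = lf X x := by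
    intro a ha
    refine ⟨(a 0, a 1), fun X => ?_⟩
    fin_cases X
    · simp [lf]
    · simp [lf]
    · simp only [lf]
      show a 2 = -a 0 - a 1
      linarith
  constructor
  · intro a ha X
    obtain ⟨x, hx⟩ := key a ha
    simp only [hx, eL, eT]
    exact (s x).2.S3 X
  · intro a ha X
    obtain ⟨x, hx⟩ := key a ha
    have e : a X + 4 * a (X + 1) = df X x := by rw [hx, hx, df]
    simp only [e]
    simp only [hx, eL, eT, eLD, eTD]
    exact (s x).2.Q1 X
  · intro a ha X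
    obtain ⟨x, hx⟩ := key a ha
    have e : a X + 4 * a (X + 1) = df X x := by rw [hx, hx, df]
    simp only [e]
    simp only [hx, eL, eT, eLD, eTD]
    exact (s x).2.Q2 X
  · intro X n hK
    exact (s (pt X n)).2.B1 X hK
  · intro a ha
    obtain ⟨x, hx⟩ := key a ha
    simp only [hx, eK]
    exact (s x).2.B2
  · intro X n
    have h1 : kap (s (pt X n + gg X)).1 X = !(kap (s (pt X n)).1 X) := h.2 (.inl X) (pt X n)
    have h2 := eK X (pt X n + gg X)
    rw [lf_gg, lf_pt] at h2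
    show kap (s (pt X (n + 1))).1 X = !(kap (s (pt X n)).1 X)
    rw [h2, h1]
  · intro X n
    have h1 : mu (s (pt X n + (gg X + gg X))).1 X = !(mu (s (pt X n)).1 X) :=
      h.2 (.inr X) (pt X n)
    have h2 := eM X (pt X n + (gg X + gg X))
    rw [lf_gg2, lf_pt] at h2
    show mu (s (pt X (n + 2))).1 X = !(mu (s (pt X n)).1 X)
    rw [h2, h1]

end P1A

open P1A in
theorem p1Asm : StmtP1Asm := by
  intro hEx hNon
  refine ⟨Om, Fe, Ck, Fintype.ofFinite _, inferInstance, inferInstance, Sys, exists_sol hEx, ?_⟩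
  intro s hs n hn hper
  refine hNon _ _ _ _ _ _ (to_sol1 hs) n hn fun m => ?_
  show t (s (pt 0 (m + n))).1 0 = t (s (pt 0 m)).1 0
  have e : pt 0 (m + n) = pt 0 m + ((n : ℤ), 0) := by
    simp [pt]
  rw [e, hper]

end Pool.Agent.Helper492_PTC
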