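import Pool.Agent.Helper492_PTC.Stmts2

/-!
Part 1, existence of a solution (Claim 1a).
-/

set_option autoImplicit false

namespace Pool.Agent.Helper492_PTC
namespace P1E

/-- residue of a natural number modulo 3 -/
def c3 (x : ℕ) : Fin 3 := ⟨x % 3, Nat.mod_lt _ (by norm_num)⟩

lemma c3_eq_iff (x y : ℕ) : c3 x = c3 y ↔ x % 3 = y % 3 := by
  unfold c3
  rw [Fin.mk.injEq]

lemma c3_add_one (x : ℕ) : c3 x + 1 = c3 (x + 1) := by
  ext
  simp [c3, Fin.val_add]

/-- every nonzero integer is a power of 2 times an odd integer -/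
lemma exists_dec (n : ℤ) (hn : n ≠ 0) : ∃ (v : ℕ) (m : ℤ), m % 2 = 1 ∧ n = 2 ^ v * m := by
  induction h : n.natAbs using Nat.strong_induction_on generalizing n with
  | _ k ih =>
    by_cases hodd : n % 2 = 1
    · exact ⟨0, n, hodd, by ring⟩
    · obtain ⟨m, hm⟩ : ∃ m, n = 2 * m := ⟨n / 2, by omega⟩
      have hm0 : m ≠ 0 := by omega
      obtain ⟨v, m', h1, h2⟩ := ih m.natAbs (by omega) m hm0 rfl
      exact ⟨v + 1, m', h1, by rw [hm, h2]; ring⟩

lemma dec_unique_aux {v w : ℕ} {m k : ℤ} (hm : m % 2 = 1)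
    (h : (2 : ℤ) ^ v * m = 2 ^ w * k) (hvw : v ≤ w) : v = w ∧ m = k := by
  obtain ⟨d, rfl⟩ := Nat.exists_eq_add_of_le hvw
  have h2 : (2 : ℤ) ^ v ≠ 0 := by positivity
  have h3 : m = 2 ^ d * k := by
    apply mul_left_cancel₀ h2
    rw [h]; ring
  cases d with
  | zero => simpa using h3
  | succ d =>
    exfalso
    have : m = 2 * (2 ^ d * k) := by rw [h3]; ring
    omega

lemma dec_unique {v w : ℕ} {m k : ℤ} (hm : m % 2 = 1) (hk : k % 2 = 1)
    (h : (2 : ℤ) ^ v * m = 2 ^ w * k) : v = w ∧ m = k := by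
  rcases le_total v w with hvw | hvw
  · exact dec_unique_aux hm h hvw
  · obtain ⟨h1, h2⟩ := dec_unique_aux hk h.symm hvw
    exact ⟨h1.symm, h2.symm⟩

open Classical in
/-- the valuation -/
noncomputable def V (n : ℤ) : ℕ :=
  if h : n ≠ 0 then (exists_dec n h).choose else 0

open Classical in
/-- the odd part -/
noncomputable def O (n : ℤ) : ℤ :=
  if h : n ≠ 0 then (exists_dec n h).choose_spec.choose else 1

lemma VO_spec {n : ℤ} (h : n ≠ 0) : O n % 2 = 1 ∧ n = 2 ^ V n * O n := by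
  unfold O V
  rw [dif_pos h, dif_pos h]
  exact (exists_dec n h).choose_spec.choose_spec

/-- residue mod 3 of the valuation -/
noncomputable def lam (n : ℤ) : Fin 3 := c3 (V n)

/-- whether the odd part is 1 mod 4 -/
noncomputable def tt (n : ℤ) : Bool := decide (O n % 4 = 1)

lemma VO_eq {v : ℕ} {m : ℤ} (hm : m % 2 = 1) : V (2 ^ v * m) = v ∧ O (2 ^ v * m) = m := by
  have h0 : (2 : ℤ) ^ v * m ≠ 0 := by
    apply mul_ne_zero
    · positivity
    · omega
  obtain ⟨h1, h2⟩ := VO_spec h0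
  obtain ⟨h3, h4⟩ := dec_unique hm h1 h2
  exact ⟨h3.symm, h4.symm⟩

lemma lam_eq {v : ℕ} {m n : ℤ} (hm : m % 2 = 1) (hn : n = 2 ^ v * m) : lam n = c3 v := by
  rw [hn, lam, (VO_eq hm).1]

lemma tt_eq {v : ℕ} {m n : ℤ} (hm : m % 2 = 1) (hn : n = 2 ^ v * m) :
    tt n = decide (m % 4 = 1) := by
  rw [hn, tt, (VO_eq hm).2]

lemma tt_flip {m k : ℤ} (hm : m % 2 = 1) (h : k % 4 = (m + 2) % 4) :
    decide (k % 4 = 1) ≠ decide (m % 4 = 1) := by
  intro hc
  have h2 : (k % 4 = 1) ↔ (m % 4 = 1) := decide_eq_decide.mp hc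
  omega

/-- splitting a large power of two -/
lemma pow_ge {d : ℕ} (hd : 3 ≤ d) : ∃ c : ℤ, (2 : ℤ) ^ d = 8 * c := by
  obtain ⟨e, rfl⟩ := Nat.exists_eq_add_of_le hd
  exact ⟨2 ^ e, by ring⟩

/-- sum of two numbers whose valuations agree mod 3 and whose odd parts agree mod 4 -/
lemma sum_cases {a b : ℕ} {α β s : ℤ} (hα : α % 2 = 1) (hβ : β % 2 = 1)
    (hab : a % 3 = b % 3) (h4 : (α % 4 = 1) ↔ (β % 4 = 1)) (hs : 2 ^ a * α + 2 ^ b * β + s = 0) :
    (a = b ∧ ∃ γ : ℤ, γ % 2 = 1 ∧ α + β = 2 * γ ∧ s = 2 ^ (a + 1) * (-γ)) ∨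
    (∃ (c : ℕ) (γ : ℤ), c % 3 = a % 3 ∧ γ % 2 = 1 ∧ s = 2 ^ c * γ ∧ γ % 4 = (α + 2) % 4) := by
  rcases lt_trichotomy a b with h | h | h
  · right
    obtain ⟨d, rfl⟩ := Nat.exists_eq_add_of_le h.le
    obtain ⟨c, hc⟩ := pow_ge (d := d) (by omega)
    refine ⟨a, -(α + 2 ^ d * β), rfl, ?_, ?_, ?_⟩
    · rw [hc]
      have : 8 * c * β = 2 * (4 * c * β) := by ring
      omega
    · have : s = -(2 ^ a * α + 2 ^ (a + d) * β) := by linarith
      rw [this]; ring
    · rw [hc]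
      have : 8 * c * β = 4 * (2 * c * β) := by ring
      omega
  · left
    subst h
    refine ⟨rfl, (α + β) / 2, by omega, by omega, ?_⟩
    have h5 : 2 ^ (a + 1) * (-((α + β) / 2)) = -(2 ^ a * (2 * ((α + β) / 2))) := by ring
    have h6 : 2 * ((α + β) / 2) = α + β := by omega
    rw [h5, h6]
    linarith
  · right
    obtain ⟨d, rfl⟩ := Nat.exists_eq_add_of_le h.le
    obtain ⟨c, hc⟩ := pow_ge (d := d) (by omega)
    refine ⟨b, -(β + 2 ^ d * α), by omega, ?_, ?_, ?_⟩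
    · rw [hc]
      have : 8 * c * α = 2 * (4 * c * α) := by ring
      omega
    · have : s = -(2 ^ (b + d) * α + 2 ^ b * β) := by linarith
      rw [this]; ring
    · rw [hc]
      have : 8 * c * α = 4 * (2 * c * α) := by ring
      omega

lemma S3' {p q s : ℤ} (hp : p ≠ 0) (hq : q ≠ 0) (h : p + q + s = 0)
    (h1 : lam p = lam q) (h2 : tt p = tt q) :
    lam s = lam p + 1 ∨ (lam s = lam p ∧ tt s ≠ tt p) := by
  obtain ⟨hα, hp'⟩ := VO_spec hp
  obtain ⟨hβ, hq'⟩ := VO_spec hq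
  have hab : V p % 3 = V q % 3 := (c3_eq_iff _ _).mp h1
  have h4 : (O p % 4 = 1) ↔ (O q % 4 = 1) := decide_eq_decide.mp h2
  rcases sum_cases (s := s) hα hβ hab h4 (by rw [← hp', ← hq', h]) with
    ⟨-, γ, hγ, -, hs⟩ | ⟨c, γ, hc, hγ, hs, hm⟩
  · left
    rw [lam_eq (by omega) hs, lam, c3_add_one]
  · right
    refine ⟨?_, ?_⟩
    · rw [lam_eq hγ hs, lam]
      exact (c3_eq_iff _ _).mpr hc
    · rw [tt_eq hγ hs, tt]
      exact tt_flip hα hm

lemma Q1' {p q s : ℤ} (hq : q ≠ 0) (hs : s ≠ 0) (h : p + q + s = 0)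
    (h1 : lam q = lam s) (h2 : tt q = tt s) (h3 : lam p = lam q + 1) :
    lam (p + 4 * q) = lam p ∧ tt (p + 4 * q) ≠ tt p := by
  obtain ⟨hα, hq'⟩ := VO_spec hq
  obtain ⟨hβ, hs'⟩ := VO_spec hs
  have hab : V q % 3 = V s % 3 := (c3_eq_iff _ _).mp h1
  have h4 : (O q % 4 = 1) ↔ (O s % 4 = 1) := decide_eq_decide.mp h2
  rcases sum_cases (s := p) hα hβ hab h4 (by rw [← hq', ← hs']; linarith) with
    ⟨-, γ, hγ, -, hp⟩ | ⟨c, γ, hc, hγ, hp, -⟩
  · have hg : (-γ) % 2 = 1 := by omega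
    have hg2 : (-γ + 2 * O q) % 2 = 1 := by omega
    have e : p + 4 * q = 2 ^ (V q + 1) * (-γ + 2 * O q) := by
      calc p + 4 * q = 2 ^ (V q + 1) * (-γ) + 4 * (2 ^ V q * O q) := by rw [← hp, ← hq']
        _ = _ := by ring
    refine ⟨?_, ?_⟩
    · rw [lam_eq hg2 e, lam_eq hg hp]
    · rw [tt_eq hg2 e, tt_eq hg hp]
      refine tt_flip hg ?_
      omega
  · exfalso
    rw [lam_eq hγ hp, lam, c3_add_one, c3_eq_iff] at h3
    omega

lemma Q2' {p q : ℤ} (hp : p ≠ 0) (hq : q ≠ 0)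
    (h1 : lam p = lam q) (h2 : lam p = lam (p + 4 * q)) :
    tt (p + 4 * q) = tt p := by
  obtain ⟨hα, hp'⟩ := VO_spec hp
  obtain ⟨hβ, hq'⟩ := VO_spec hq
  have hab : V p % 3 = V q % 3 := (c3_eq_iff _ _).mp h1
  rcases le_or_gt (V p) (V q) with h | h
  · obtain ⟨d, hd⟩ := Nat.exists_eq_add_of_le h
    have e : p + 4 * q = 2 ^ V p * (O p + 4 * (2 ^ d * O q)) := by
      calc p + 4 * q = 2 ^ V p * O p + 4 * (2 ^ V q * O q) := by rw [← hp', ← hq']
        _ = 2 ^ V p * O p + 4 * (2 ^ (V p + d) * O q) := by rw [hd]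
        _ = _ := by ring
    have h5 : (O p + 4 * (2 ^ d * O q)) % 2 = 1 := by omega
    rw [tt_eq h5 e, tt]
    have h6 : (O p + 4 * (2 ^ d * O q)) % 4 = O p % 4 := by omega
    rw [h6]
  · exfalso
    obtain ⟨d, hd⟩ := Nat.exists_eq_add_of_le (show V q + 3 ≤ V p by omega)
    have e : p + 4 * q = 2 ^ (V q + 2) * (2 * (2 ^ d * O p) + O q) := by
      calc p + 4 * q = 2 ^ V p * O p + 4 * (2 ^ V q * O q) := by rw [← hp', ← hq']
        _ = 2 ^ (V q + 3 + d) * O p + 4 * (2 ^ V q * O q) := by rw [hd]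
        _ = _ := by ring
    have h5 : (2 * (2 ^ d * O p) + O q) % 2 = 1 := by omega
    rw [lam_eq h5 e, lam, c3_eq_iff] at h2
    omega

/-- offsets -/
def rr : Fin 3 → ℤ := ![1, 1, -2]

lemma rr_cyc (X : Fin 3) : rr X + rr (X + 1) + rr (X + 2) = 0 := by
  fin_cases X <;> simp [rr]

lemma rr_ne (X : Fin 3) (n : ℤ) : 3 * n + rr X ≠ 0 := by
  fin_cases X <;> simp [rr] <;> omega

lemma cyc (a : Fin 3 → ℤ) (h : a 0 + a 1 + a 2 = 0) (X : Fin 3) :
    a X + a (X + 1) + a (X + 2) = 0 := by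
  fin_cases X
  · simpa using h
  · have : a 1 + a 2 + a 0 = 0 := by linarith
    simpa using this
  · have : a 2 + a 0 + a 1 = 0 := by linarith
    simpa using this

end P1E

open P1E in
theorem p1Ex : StmtP1Ex := by
  refine ⟨fun X n => lam (3 * n + rr X), fun X n => tt (3 * n + rr X),
    fun X n => lam (3 * n + rr X + 4 * rr (X + 1)), fun X n => tt (3 * n + rr X + 4 * rr (X + 1)),
    fun X n => decide ((3 * n + rr X) % 2 = 1),
    fun X n => decide ((3 * n + rr X) % 4 = 0 ∨ (3 * n + rr X) % 4 = 1), ?_⟩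
  constructor
  · intro a ha X h1 h2
    have hc := cyc a ha X
    have hr := rr_cyc X
    exact S3' (rr_ne _ _) (rr_ne _ _) (by linarith) h1 h2
  · intro a ha X h1 h2 h3
    have hc := cyc a ha X
    have hr := rr_cyc X
    have e : 3 * (a X + 4 * a (X + 1)) + rr X + 4 * rr (X + 1) =
        (3 * a X + rr X) + 4 * (3 * a (X + 1) + rr (X + 1)) := by ring
    simp only [e]
    exact Q1' (rr_ne _ _) (rr_ne _ _) (by linarith) h1 h2 h3
  · intro a ha X h1 h2
    have e : 3 * (a X + 4 * a (X + 1)) + rr X + 4 * rr (X + 1) =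
        (3 * a X + rr X) + 4 * (3 * a (X + 1) + rr (X + 1)) := by ring
    simp only [e] at h2 ⊢
    exact Q2' (rr_ne _ _) (rr_ne _ _) h1 h2
  · intro X n hK
    have hodd : (3 * n + rr X) % 2 = 1 := of_decide_eq_true hK
    have e : 3 * n + rr X = 2 ^ 0 * (3 * n + rr X) := by ring
    refine ⟨?_, ?_⟩
    · show lam (3 * n + rr X) = 0
      rw [lam_eq hodd e]
      rfl
    · show tt (3 * n + rr X) = decide _
      rw [tt_eq hodd e]
      apply decide_eq_decide.mpr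
      omega
  · intro a ha
    have h0 : rr 0 = 1 := rfl
    have h1 : rr 1 = 1 := rfl
    have h2 : rr 2 = -2 := rfl
    simp only [h0, h1, h2]
    rcases Int.emod_two_eq_zero_or_one (a 0) with e0 | e0 <;>
    rcases Int.emod_two_eq_zero_or_one (a 1) with e1 | e1
    · have : a 2 % 2 = 0 := by omega
      have q0 : (3 * a 0 + 1) % 2 = 1 := by omega
      have q1 : (3 * a 1 + 1) % 2 = 1 := by omega
      have q2 : ¬ (3 * a 2 + -2) % 2 = 1 := by omega
      rw [decide_eq_true q0, decide_eq_true q1, decide_eq_false q2]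
      rfl
    · have : a 2 % 2 = 1 := by omega
      have q0 : (3 * a 0 + 1) % 2 = 1 := by omega
      have q1 : ¬ (3 * a 1 + 1) % 2 = 1 := by omega
      have q2 : (3 * a 2 + -2) % 2 = 1 := by omega
      rw [decide_eq_true q0, decide_eq_false q1, decide_eq_true q2]
      rfl
    · have : a 2 % 2 = 1 := by omega
      have q0 : ¬ (3 * a 0 + 1) % 2 = 1 := by omega
      have q1 : (3 * a 1 + 1) % 2 = 1 := by omega
      have q2 : (3 * a 2 + -2) % 2 = 1 := by omega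
      rw [decide_eq_false q0, decide_eq_true q1, decide_eq_true q2]
      rfl
    · have : a 2 % 2 = 0 := by omega
      have q0 : ¬ (3 * a 0 + 1) % 2 = 1 := by omega
      have q1 : ¬ (3 * a 1 + 1) % 2 = 1 := by omega
      have q2 : ¬ (3 * a 2 + -2) % 2 = 1 := by omega
      rw [decide_eq_false q0, decide_eq_false q1, decide_eq_false q2]
      rfl
  · intro X n
    by_cases h : (3 * n + rr X) % 2 = 1
    · have h' : ¬ (3 * (n + 1) + rr X) % 2 = 1 := by omega
      simp [h, h']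
    · have h' : (3 * (n + 1) + rr X) % 2 = 1 := by omega
      simp [h, h']
  · intro X n
    by_cases h : (3 * n + rr X) % 4 = 0 ∨ (3 * n + rr X) % 4 = 1
    · have h' : ¬ ((3 * (n + 2) + rr X) % 4 = 0 ∨ (3 * (n + 2) + rr X) % 4 = 1) := by omega
      rw [decide_eq_true h, decide_eq_false h']
      rfl
    · have h' : (3 * (n + 2) + rr X) % 4 = 0 ∨ (3 * (n + 2) + rr X) % 4 = 1 := by omega
      rw [decide_eq_false h, decide_eq_true h']
      rfl

end Pool.Agent.Helper492_PTC
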