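import Pool.Agent.Helper492_PTC.Stmts2

/-!
Part 1, non-periodicity.
-/

set_option autoImplicit false

namespace Pool.Agent.Helper492_PTC
namespace P1N

/-- `w` is 1 mod 4 -/
def one4 (w : ℤ) : Bool := decide (w % 4 = 1)

lemma one4_add_two {w : ℤ} (hw : w % 2 = 1) : one4 (w + 2) = !(one4 w) := by
  unfold one4
  by_cases h : w % 4 = 1
  · have : ¬ (w + 2) % 4 = 1 := by omega
    simp [h, this]
  · have : (w + 2) % 4 = 1 := by omega
    simp [h, this]

lemma one4_sub {w y : ℤ} (hw : w % 2 = 1) :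
    one4 (w - 2 * y) = (one4 w ^^ decide (y % 2 = 1)) := by
  unfold one4
  by_cases h : w % 4 = 1 <;> by_cases h' : y % 2 = 1
  · have : ¬ (w - 2 * y) % 4 = 1 := by omega
    simp [h, h', this]
  · have : (w - 2 * y) % 4 = 1 := by omega
    simp [h, h', this]
  · have : (w - 2 * y) % 4 = 1 := by omega
    simp [h, h', this]
  · have : ¬ (w - 2 * y) % 4 = 1 := by omega
    simp [h, h', this]

/-- An alternating function on odd integers is determined by one bit. -/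
lemma alt_form (f : ℤ → Bool) (hf : ∀ w : ℤ, w % 2 = 1 → f (w + 2) = !(f w)) :
    ∃ e : Bool, ∀ w : ℤ, w % 2 = 1 → f w = (e ^^ one4 w) := by
  refine ⟨!(f 1), ?_⟩
  have key : ∀ n : ℕ, f (1 + 2 * n) = (!(f 1) ^^ one4 (1 + 2 * n)) ∧
      f (1 - 2 * n) = (!(f 1) ^^ one4 (1 - 2 * n)) := by
    intro n
    induction n with
    | zero => simp [one4]
    | succ n ih =>
      constructor
      · have h1 : (1 + 2 * (n : ℤ)) % 2 = 1 := by omega
        have e : (1 + 2 * ((n + 1 : ℕ) : ℤ)) = (1 + 2 * (n : ℤ)) + 2 := by push_cast; ring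
        rw [e, hf _ h1, one4_add_two h1, ih.1]
        cases f 1 <;> cases one4 (1 + 2 * (n : ℤ)) <;> rfl
      · have h1 : (1 - 2 * ((n + 1 : ℕ) : ℤ)) % 2 = 1 := by omega
        have e : (1 - 2 * (n : ℤ)) = (1 - 2 * ((n + 1 : ℕ) : ℤ)) + 2 := by push_cast; ring
        have h2 := ih.2
        rw [e, hf _ h1, one4_add_two h1] at h2
        revert h2
        cases f 1 <;> cases one4 (1 - 2 * ((n + 1 : ℕ) : ℤ)) <;>
          cases f (1 - 2 * ((n + 1 : ℕ) : ℤ)) <;> simp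
  intro w hw
  rcases le_total 1 w with h | h
  · obtain ⟨n, hn⟩ : ∃ n : ℕ, w = 1 + 2 * n := ⟨((w - 1) / 2).toNat, by omega⟩
    rw [hn]; exact (key n).1
  · obtain ⟨n, hn⟩ : ∃ n : ℕ, w = 1 - 2 * n := ⟨((1 - w) / 2).toNat, by omega⟩
    rw [hn]; exact (key n).2

/-- Level statement. -/
def H (L : Fin 3 → ℤ → Fin 3) (T : Fin 3 → ℤ → Bool) (k : ℕ) : Prop :=
  ∃ (c : Fin 3 → ℤ) (e : Bool), c 0 + c 1 + c 2 = 0 ∧
    ∀ (X : Fin 3) (w : ℤ), w % 2 = 1 →
      L X (c X + 2 ^ k * w) = Fin.ofNat 3 k ∧ T X (c X + 2 ^ k * w) = (e ^^ one4 w)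

/-- Recentring. -/
lemma recentre (L : Fin 3 → ℤ → Fin 3) (T : Fin 3 → ℤ → Bool) (k : ℕ) (c : Fin 3 → ℤ)
    (M : ℤ) (hM : c 0 + c 1 + c 2 = 2 ^ (k + 1) * M)
    (hL : ∀ (X : Fin 3) (w : ℤ), w % 2 = 1 → L X (c X + 2 ^ k * w) = Fin.ofNat 3 k)
    (hT : ∀ (X : Fin 3) (w : ℤ), w % 2 = 1 →
      T X (c X + 2 ^ k * (w + 2)) = !(T X (c X + 2 ^ k * w))) : H L T k := by
  have hex : ∀ X : Fin 3, ∃ e : Bool, ∀ w : ℤ, w % 2 = 1 → T X (c X + 2 ^ k * w) = (e ^^ one4 w) :=
    fun X => alt_form (fun w => T X (c X + 2 ^ k * w)) (hT X)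
  choose eps heps using hex
  -- choose the shifts
  have hchoice : ∃ (e : Bool) (y : Fin 3 → ℤ), y 0 + y 1 + y 2 = -M ∧
      ∀ X, decide (y X % 2 = 1) = (eps X ^^ e) := by
    have hb : ∀ (q : Bool), decide ((if q then (1 : ℤ) else 0) % 2 = 1) = q := by
      intro q; cases q <;> simp
    -- parity condition
    have hpar : ∃ e : Bool, decide ((-M - (if (eps 0 ^^ e) then (1 : ℤ) else 0)
        - (if (eps 1 ^^ e) then (1 : ℤ) else 0)) % 2 = 1) = (eps 2 ^^ e) := by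
      rcases Int.emod_two_eq_zero_or_one M with h | h
      · have h2 : ∀ a b : ℤ, ((-M - a - b) % 2 = 1 ↔ (a + b) % 2 = 1) := by intro a b; omega
        simp only [h2]
        cases eps 0 <;> cases eps 1 <;> cases eps 2 <;>
          first
          | exact ⟨false, by decide⟩
          | exact ⟨true, by decide⟩
      · have h2 : ∀ a b : ℤ, ((-M - a - b) % 2 = 1 ↔ (a + b) % 2 = 0) := by intro a b; omega
        simp only [h2]
        cases eps 0 <;> cases eps 1 <;> cases eps 2 <;>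
          first
          | exact ⟨false, by decide⟩
          | exact ⟨true, by decide⟩
    obtain ⟨e, he⟩ := hpar
    refine ⟨e, ![(if (eps 0 ^^ e) then (1 : ℤ) else 0), (if (eps 1 ^^ e) then (1 : ℤ) else 0),
      (-M - (if (eps 0 ^^ e) then (1 : ℤ) else 0) - (if (eps 1 ^^ e) then (1 : ℤ) else 0))],
      ?_, ?_⟩
    · simp only [Matrix.cons_val_zero, Matrix.cons_val_one, Matrix.cons_val_two,
        Matrix.head_cons, Matrix.tail_cons]
      simp
    · intro X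
      fin_cases X
      · simpa using hb (eps 0 ^^ e)
      · simpa using hb (eps 1 ^^ e)
      · simpa using he
  obtain ⟨e, y, hy, hpy⟩ := hchoice
  refine ⟨fun X => c X + 2 ^ (k + 1) * y X, e, ?_, ?_⟩
  · have : (2 : ℤ) ^ (k + 1) * (y 0 + y 1 + y 2) = 2 ^ (k + 1) * (-M) := by rw [hy]
    simp only
    linear_combination hM + this
  · intro X w hw
    have hodd : (w + 2 * y X) % 2 = 1 := by omega
    have e1 : c X + 2 ^ (k + 1) * y X + 2 ^ k * w = c X + 2 ^ k * (w + 2 * y X) := by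
      rw [pow_succ]; ring
    simp only [e1]
    refine ⟨hL X _ hodd, ?_⟩
    rw [heps X _ hodd]
    have h3 := one4_sub (w := w + 2 * y X) (y := y X) hodd
    have e2 : w + 2 * y X - 2 * y X = w := by ring
    rw [e2, hpy X] at h3
    rw [h3]
    cases eps X <;> cases e <;> cases one4 (w + 2 * y X) <;> rfl

lemma fin3_sum (f : Fin 3 → ℤ) (X : Fin 3) : f X + f (X + 1) + f (X + 2) = f 0 + f 1 + f 2 := by
  fin_cases X
  · rfl
  · show f 1 + f 2 + f 0 = _
    ring
  · show f 2 + f 0 + f 1 = _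
    ring

lemma ofNat_succ (k : ℕ) : Fin.ofNat 3 (k + 1) = Fin.ofNat 3 k + 1 := by
  apply Fin.ext
  simp [Fin.ofNat, Fin.val_add]

lemma fin3_ne (x : Fin 3) : x ≠ x + 1 := by
  fin_cases x <;> decide

/-- The base case. -/
lemma base {L : Fin 3 → ℤ → Fin 3} {T : Fin 3 → ℤ → Bool} {LD : Fin 3 → ℤ → Fin 3}
    {TD : Fin 3 → ℤ → Bool} {K M : Fin 3 → ℤ → Bool} (h : Sol1 L T LD TD K M) : H L T 0 := by
  -- `K X n` alternates
  have hK2 : ∀ X n, K X (n + 2) = K X n := by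
    intro X n
    have e : n + 2 = (n + 1) + 1 := by ring
    rw [e, h.CK, h.CK, Bool.not_not]
  have hKe : ∀ X, ∀ m : ℤ, K X (2 * m) = K X 0 := by
    intro X m
    induction m using Int.induction_on with
    | zero => rfl
    | succ i ih =>
      have e : 2 * ((i : ℤ) + 1) = 2 * i + 2 := by ring
      rw [e, hK2]; exact ih
    | pred i ih =>
      have e : 2 * (-(i : ℤ)) = 2 * (-(i : ℤ) - 1) + 2 := by ring
      rw [e, hK2] at ih; exact ih
  have hKo : ∀ X, ∀ m : ℤ, K X (2 * m + 1) = !(K X 0) := by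
    intro X m; rw [h.CK, hKe]
  -- centres
  let c : Fin 3 → ℤ := fun X => if K X 0 then 1 else 0
  have hKc : ∀ X, ∀ w : ℤ, w % 2 = 1 → K X (c X + w) = true := by
    intro X w hw
    by_cases hx : K X 0 = true
    · have : c X + w = 2 * ((w + 1) / 2) := by
        simp only [c, hx, if_true]; omega
      rw [this, hKe, hx]
    · have : c X + w = 2 * ((w - 1) / 2) + 1 := by
        simp only [c, hx]
        simp only [Bool.false_eq_true, if_false]
        omega
      rw [this, hKo]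
      simp at hx
      rw [hx]; rfl
  have hB := h.B2 (fun _ => 0) (by norm_num)
  have hsum : ∃ Mm : ℤ, c 0 + c 1 + c 2 = 2 ^ (0 + 1) * Mm := by
    simp only [c]
    revert hB
    cases K 0 0 <;> cases K 1 0 <;> cases K 2 0 <;>
      first
      | (intro hh; exact absurd hh (by decide))
      | (intro _; refine ⟨0, ?_⟩; norm_num; done)
      | (intro _; refine ⟨1, ?_⟩; norm_num; done)
  obtain ⟨Mm, hMm⟩ := hsum
  apply recentre L T 0 c Mm hMm
  · intro X w hw
    simp only [pow_zero, one_mul]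
    exact (h.B1 X _ (hKc X w hw)).1
  · intro X w hw
    simp only [pow_zero, one_mul]
    have hw2 : (w + 2) % 2 = 1 := by omega
    rw [(h.B1 X _ (hKc X w hw)).2, (h.B1 X _ (hKc X (w + 2) hw2)).2]
    rw [← add_assoc]
    exact h.CM X _

/-- The step. -/
lemma step {L : Fin 3 → ℤ → Fin 3} {T : Fin 3 → ℤ → Bool} {LD : Fin 3 → ℤ → Fin 3}
    {TD : Fin 3 → ℤ → Bool} {K M : Fin 3 → ℤ → Bool} (h : Sol1 L T LD TD K M) (k : ℕ)
    (hk : H L T k) : H L T (k + 1) := by
  obtain ⟨c, e, hc, hLT⟩ := hk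
  have hx3 : ∀ X : Fin 3, X + 1 + 1 = X + 2 ∧ X + 1 + 2 = X := by
    intro X; fin_cases X <;> decide
  -- sum conditions
  have hsum : ∀ X : Fin 3, c X + c (X + 1) + c (X + 2) = 0 := by
    intro X; rw [fin3_sum c X, hc]
  -- the point with prescribed values at X and X+1
  have hpt : ∀ (X : Fin 3) (a b : ℤ), ∃ f : Fin 3 → ℤ, f 0 + f 1 + f 2 = 0 ∧
      f X = a ∧ f (X + 1) = b ∧ f (X + 2) = -(a + b) := by
    intro X a b
    have n1 : X + 1 ≠ X := by fin_cases X <;> decide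
    have n2 : X + 2 ≠ X := by fin_cases X <;> decide
    have n3 : X + 2 ≠ X + 1 := by fin_cases X <;> decide
    refine ⟨fun Y => if Y = X then a else if Y = X + 1 then b else -(a + b), ?_, ?_, ?_, ?_⟩
    · have h3 := fin3_sum (fun Y => if Y = X then a else if Y = X + 1 then b else -(a + b)) X
      rw [← h3]
      simp [n1, n2, n3]
    · simp
    · simp [n1]
    · simp [n2, n3]
  -- third value
  have hthird : ∀ (X : Fin 3) (α w : ℤ), α % 2 = 1 → w % 2 = 1 →
      -(c X + 2 ^ (k + 1) * α + (c (X + 1) + 2 ^ k * w)) = c (X + 2) + 2 ^ k * (-2 * α - w) ∧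
      (-2 * α - w) % 2 = 1 ∧ one4 (-2 * α - w) = one4 w := by
    intro X α w hα hw
    refine ⟨?_, by omega, ?_⟩
    · have := hsum X
      rw [pow_succ]
      linear_combination (-1 : ℤ) * this
    · unfold one4
      have : ((-2 * α - w) % 4 = 1) ↔ (w % 4 = 1) := by omega
      simp only [this]
  -- the value of L at the next level
  have hL : ∀ (X : Fin 3) (α : ℤ), α % 2 = 1 →
      L X (c X + 2 ^ (k + 1) * α) = Fin.ofNat 3 (k + 1) := by
    intro X α hα
    have main : ∀ w : ℤ, w % 2 = 1 →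
        L X (c X + 2 ^ (k + 1) * α) = Fin.ofNat 3 k + 1 ∨
        (L X (c X + 2 ^ (k + 1) * α) = Fin.ofNat 3 k ∧
          T X (c X + 2 ^ (k + 1) * α) ≠ (e ^^ one4 w)) := by
      intro w hw
      obtain ⟨f, hf0, hfX, hfY, hfZ⟩ := hpt X (c X + 2 ^ (k + 1) * α) (c (X + 1) + 2 ^ k * w)
      obtain ⟨t1, t2, t3⟩ := hthird X α w hα hw
      rw [t1] at hfZ
      have hS := h.S3 f hf0 (X + 1)
      rw [(hx3 X).1, (hx3 X).2, hfX, hfY, hfZ, (hLT (X + 1) w hw).1, (hLT (X + 1) w hw).2,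
        (hLT (X + 2) _ t2).1, (hLT (X + 2) _ t2).2, t3] at hS
      exact hS rfl rfl
    rw [ofNat_succ]
    rcases main 1 (by norm_num) with h1 | ⟨h1, h2⟩
    · exact h1
    · rcases main 3 (by norm_num) with h3 | ⟨h3, h4⟩
      · exact h3
      · exfalso
        have o1 : one4 1 = true := by simp [one4]
        have o3 : one4 3 = false := by simp [one4]
        rw [o1] at h2
        rw [o3] at h4
        revert h2 h4
        cases T X (c X + 2 ^ (k + 1) * α) <;> cases e <;> simp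
  -- Q1
  have hQ1 : ∀ (X : Fin 3) (α w : ℤ), α % 2 = 1 → w % 2 = 1 →
      LD X (c X + 2 ^ (k + 1) * α + 4 * (c (X + 1) + 2 ^ k * w)) = Fin.ofNat 3 (k + 1) ∧
      TD X (c X + 2 ^ (k + 1) * α + 4 * (c (X + 1) + 2 ^ k * w)) ≠ T X (c X + 2 ^ (k + 1) * α) := by
    intro X α w hα hw
    obtain ⟨f, hf0, hfX, hfY, hfZ⟩ := hpt X (c X + 2 ^ (k + 1) * α) (c (X + 1) + 2 ^ k * w)
    obtain ⟨t1, t2, t3⟩ := hthird X α w hα hw
    rw [t1] at hfZ
    have hQ := h.Q1 f hf0 X
    rw [hfX, hfY, hfZ, (hLT (X + 1) w hw).1, (hLT (X + 1) w hw).2,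
        (hLT (X + 2) _ t2).1, (hLT (X + 2) _ t2).2, t3, hL X α hα] at hQ
    exact hQ rfl rfl (ofNat_succ k)
  -- Q2
  have hT : ∀ (X : Fin 3) (α : ℤ), α % 2 = 1 →
      T X (c X + 2 ^ (k + 1) * (α + 2)) = !(T X (c X + 2 ^ (k + 1) * α)) := by
    intro X α hα
    obtain ⟨f, hf0, hfX, hfY, -⟩ := hpt X (c X + 2 ^ (k + 1) * α) (c (X + 1) + 2 ^ (k + 1) * 1)
    have hα2 : (α + 2) % 2 = 1 := by omega
    obtain ⟨q1, q2⟩ := hQ1 X (α + 2) 1 hα2 (by norm_num)
    have e1 : c X + 2 ^ (k + 1) * (α + 2) + 4 * (c (X + 1) + 2 ^ k * 1) =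
        c X + 2 ^ (k + 1) * α + 4 * (c (X + 1) + 2 ^ (k + 1) * 1) := by
      rw [pow_succ]; ring
    rw [e1] at q1 q2
    have hQ := h.Q2 f hf0 X
    rw [hfX, hfY, hL X α hα, hL (X + 1) 1 (by norm_num), q1] at hQ
    rw [hQ rfl rfl] at q2
    revert q2
    cases T X (c X + 2 ^ (k + 1) * α) <;> cases T X (c X + 2 ^ (k + 1) * (α + 2)) <;> simp
  exact recentre L T (k + 1) c 0 (by rw [hc]; ring) hL hT

end P1N

theorem p1Non : StmtP1Non := by
  intro L T LD TD K M h n hn hper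
  have hall : ∀ k, P1N.H L T k := by
    intro k
    induction k with
    | zero => exact P1N.base h
    | succ k ih => exact P1N.step h k ih
  obtain ⟨j, q, hq, hnq⟩ : ∃ j q : ℕ, q % 2 = 1 ∧ n = 2 ^ j * q := by
    obtain ⟨j, q, hq, hn'⟩ := Nat.exists_eq_two_pow_mul_odd (n := n) (by omega)
    exact ⟨j, q, Nat.odd_iff.mp hq, hn'⟩
  obtain ⟨c, e, -, hc⟩ := hall j
  have h1 := (hc 0 1 (by norm_num)).2
  have h2 := (hc 0 (1 + 2 * q) (by omega)).2
  have hp2 : ∀ m : ℤ, T 0 (m + 2 * n) = T 0 m := by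
    intro m
    have e2 : m + 2 * (n : ℤ) = m + n + n := by ring
    rw [e2, hper, hper]
  have e3 : c 0 + 2 ^ j * (1 + 2 * (q : ℤ)) = c 0 + 2 ^ j * 1 + 2 * n := by
    rw [hnq]; push_cast; ring
  rw [e3, hp2, h1] at h2
  have o1 : P1N.one4 1 = true := by simp [P1N.one4]
  have o2 : P1N.one4 (1 + 2 * (q : ℤ)) = false := by
    have : ¬ (1 + 2 * (q : ℤ)) % 4 = 1 := by omega
    simp [P1N.one4, this]
  rw [o1, o2] at h2
  revert h2
  cases e <;> simp

end Pool.Agent.Helper492_PTC
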