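import Pool.Agent.Helper492_PTC.Stmts2

/-!
Assembly of Part 2.
-/

set_option autoImplicit false

namespace Pool.Agent.Helper492_PTC
namespace P2As

instance finIx (Om C : Type) [Finite Om] [Finite C] : Finite (Ix Om C) := by
  let f : Ix Om C → (Fin 4 ⊕ (Om ⊕ (Om ⊕ (C × Fin 3)))) := fun x => match x with
    | .g1 => Sum.inl 0
    | .g2 => Sum.inl 1
    | .u => Sum.inl 2
    | .w => Sum.inl 3
    | .P i => Sum.inr (Sum.inl i)
    | .R i => Sum.inr (Sum.inr (Sum.inl i))
    | .p c l => Sum.inr (Sum.inr (Sum.inr (c, l)))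
  apply Finite.of_injective f
  intro x y h
  cases x <;> cases y <;> simp_all [f]

section
variable {Om F C : Type} [DecidableEq Om] [DecidableEq C] [Fintype Om]

/-- index type of the relations -/
abbrev JJ (Om F C : Type) : Type :=
  (Om × Ix Om C) ⊕ (Om ⊕ (Om ⊕ ((Om × Om) ⊕ (Unit ⊕ (F ⊕ (C ⊕ (C × (Fin 3 → Bool))))))))

/-- the relations as triples -/
noncomputable def rel (D : FC Om F C) : JJ Om F C → Finset (Ix Om C) × (Ix Om C → ℤ) × ZMod 2
  | Sum.inl (i, k) =>
      if k ≠ .g1 ∧ k ≠ .g2 ∧ k ≠ .u then ({.R i}, Pi.single k 1, 0) else (∅, 0, 0)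
  | Sum.inr (Sum.inl i) => ({.R i}, Pi.single .u 2, 0)
  | Sum.inr (Sum.inr (Sum.inl i)) => ({.P i, .R i}, Pi.single .u 1, 0)
  | Sum.inr (Sum.inr (Sum.inr (Sum.inl (i, j)))) =>
      if i ≠ j then ({.P i}, Pi.single (.P j) 2 + Pi.single .u 1, 0) else (∅, 0, 0)
  | Sum.inr (Sum.inr (Sum.inr (Sum.inr (Sum.inl _)))) =>
      (Finset.univ.image Ix.R, Pi.single .u 1, 1)
  | Sum.inr (Sum.inr (Sum.inr (Sum.inr (Sum.inr (Sum.inl f))))) =>
      ((Finset.univ.filter (fun i => D.SF f i = true)).image Ix.R, hv (D.hF f), 0)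
  | Sum.inr (Sum.inr (Sum.inr (Sum.inr (Sum.inr (Sum.inr (Sum.inl c)))))) =>
      ((Finset.univ.filter (fun i => D.SC c i = true)).image Ix.R ∪ {.p c 0}, Pi.single .u 1, 0)
  | Sum.inr (Sum.inr (Sum.inr (Sum.inr (Sum.inr (Sum.inr (Sum.inr (c, a))))))) =>
      if ∃ l, a l = true then
      ((Finset.univ.filter (fun l => a l = true)).image (Ix.p c),
      (Pi.single .w (if a 0 then 1 else 0) + Pi.single .u (if a 1 then 1 else 0) +
        hv (if a 2 then D.hC c else 0)), 1) else (∅, 0, 0)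

lemma lin_triv {ι : Type} (b : ι → ℕ) (A : Set (ι → ℤ)) : Lin b A ∅ 0 0 := by
  intro z a a' _ _ _ _
  simp

lemma rel_iff (D : FC Om F C) (A : Set (Ix Om C → ℤ)) :
    P2Rel D A ↔ ∀ j, Lin bIx A (rel D j).1 (rel D j).2.1 (rel D j).2.2 := by
  constructor
  · intro h j
    rcases j with ⟨i, k⟩ | i | i | ⟨i, j⟩ | _ | f | c | ⟨c, a⟩
    · simp only [rel]
      split_ifs with hk
      · exact h.r1 i k hk.1 hk.2.1 hk.2.2
      · exact lin_triv _ _
    · exact h.r2 i
    · exact h.r3 i
    · simp only [rel]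
      split_ifs with hk
      · exact h.r4 i j hk
      · exact lin_triv _ _
    · exact h.r5
    · exact h.r6 f
    · exact h.r7a c
    · by_cases hk : ∃ l, a l = true
      · have := h.r7b c a hk
        simp only [rel]
        rw [if_pos hk]
        exact this
      · simp only [rel]
        rw [if_neg hk]
        exact lin_triv _ _
  · intro h
    constructor
    · intro i k h1 h2 h3
      have := h (Sum.inl (i, k))
      simp only [rel] at this
      rw [if_pos ⟨h1, h2, h3⟩] at this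
      exact this
    · intro i
      exact h (Sum.inr (Sum.inl i))
    · intro i
      exact h (Sum.inr (Sum.inr (Sum.inl i)))
    · intro i j hij
      have := h (Sum.inr (Sum.inr (Sum.inr (Sum.inl (i, j)))))
      simp only [rel] at this
      rw [if_pos hij] at this
      exact this
    · exact h (Sum.inr (Sum.inr (Sum.inr (Sum.inr (Sum.inl ())))))
    · intro f
      exact h (Sum.inr (Sum.inr (Sum.inr (Sum.inr (Sum.inr (Sum.inl f))))))
    · intro c
      exact h (Sum.inr (Sum.inr (Sum.inr (Sum.inr (Sum.inr (Sum.inr (Sum.inl c)))))))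
    · intro c a ha
      have := h (Sum.inr (Sum.inr (Sum.inr (Sum.inr (Sum.inr (Sum.inr (Sum.inr (c, a))))))))
      simp only [rel] at this
      rw [if_pos ha] at this
      exact this

end
end P2As

open P2As in
theorem p2Asm : StmtP2Asm := by
  rintro ⟨Om, F, C, _, _, _, D, ⟨s, hs⟩, hno⟩ hConv hEx hLin
  classical
  let _ : Fintype (Ix Om C) := Fintype.ofFinite _
  choose X X' hX hX' hrel using fun j : JJ Om F C =>
    hLin (Ix Om C) bIx (rel D j).1 (rel D j).2.1 (rel D j).2.2
  have key : ∀ A, IsTil bIx A → ((∀ j, RelHolds A (X j : Set _) (X' j : Set _) (rel D j).2.1) ↔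
      P2Rel D A) := by
    intro A hA
    rw [rel_iff]
    exact forall_congr' (fun j => hrel j A hA)
  obtain ⟨A0, hA0, hA0r⟩ := hEx Om F C D s hs
  refine ⟨Ix Om C, JJ Om F C, inferInstance, inferInstance, inferInstance, bIx, X, X',
    fun j => (rel D j).2.1, .g1, .g2, ?_, ?_, hX, hX', ⟨A0, hA0, (key A0 hA0).2 hA0r⟩, ?_⟩
  · intro i
    cases i <;> simp [bIx]
  · simp
  · intro A hA hr n hn hper
    obtain ⟨s', hs', hs'n⟩ := hConv Om F C D A hA ((key A hA).1 hr)
    exact hno s' hs' n hn (hs'n n hper)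

end Pool.Agent.Helper492_PTC
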