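import Pool.Agent.Helper492_PTC.Stmts2

/-!
Task P2Conv: every tiling satisfying the relations of Part 2 gives a solution of the
feature and clock system, and periods of the tiling give periods of the solution.
-/

set_option autoImplicit false

namespace Pool.Agent.Helper492_PTC

namespace P2ConvAux

section general
variable {ι : Type} {b : ι → ℕ} {A : Set (ι → ℤ)}

/-- The corner of the cell of `z`. -/
noncomputable def cor (hA : IsTil b A) (z : ι → ℤ) : ι → ℤ := (hA z).choose

lemma cor_mem (hA : IsTil b A) (z : ι → ℤ) : cor hA z ∈ A := (hA z).choose_spec.1.1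

lemma cor_box (hA : IsTil b A) (z : ι → ℤ) : z - cor hA z ∈ IBox b := (hA z).choose_spec.1.2

lemma cor_eq (hA : IsTil b A) {z a : ι → ℤ} (ha : a ∈ A) (hz : z - a ∈ IBox b) :
    cor hA z = a := ((hA z).choose_spec.2 a ⟨ha, hz⟩).symm

/-- The parity of the corner. -/
noncomputable def par (hA : IsTil b A) (i : ι) (z : ι → ℤ) : ZMod 2 :=
  ((cor hA z i : ℤ) : ZMod 2)

lemma lin_par (hA : IsTil b A) {S : Finset ι} {v : ι → ℤ} {c : ZMod 2}
    (h : Lin b A S v c) (z : ι → ℤ) :
    ∑ i ∈ S, par hA i (z + v) = ∑ i ∈ S, par hA i z + c :=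
  h z _ _ (cor_mem hA z) (cor_box hA z) (cor_mem hA (z + v)) (cor_box hA (z + v))

lemma lin_par1 (hA : IsTil b A) {i : ι} {v : ι → ℤ} {c : ZMod 2}
    (h : Lin b A {i} v c) (z : ι → ℤ) :
    par hA i (z + v) = par hA i z + c := by
  have := lin_par hA h z
  simpa using this

variable [DecidableEq ι]

/-- Along a direction of side two the cells pair up. -/
lemma par_add_self (hA : IsTil b A) (i : ι) (hi : b i = 2) (z : ι → ℤ) :
    par hA i (z + Pi.single i 1) = par hA i z := by
  have hz := cor_box hA z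
  have hz' := cor_box hA (z + Pi.single i 1)
  set a := cor hA z with ha
  set a' := cor hA (z + Pi.single i 1) with ha'
  have h1 := hz i
  have h2 := hz' i
  simp only [Pi.sub_apply, Pi.add_apply, Pi.single_eq_same, hi] at h1 h2
  by_cases h : z i - a i = 0
  · have : a' = a := by
      apply cor_eq hA (cor_mem hA z)
      intro k
      by_cases hk : k = i
      · subst hk
        simp only [Pi.sub_apply, Pi.add_apply, Pi.single_eq_same, hi]
        change 0 ≤ z k + 1 - a k ∧ z k + 1 - a k < ((2 : ℕ) : ℤ)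
        push_cast
        omega
      · have := hz k
        simpa [Pi.single_eq_of_ne hk] using this
    unfold par
    rw [← ha', ← ha, this]
  · have h3 : z i - a i = 1 := by push_cast at h1; omega
    by_cases h4 : z i + 1 - a' i = 1
    · have : a = a' := by
        apply cor_eq hA (cor_mem hA _)
        intro k
        by_cases hk : k = i
        · subst hk
          simp only [Pi.sub_apply, hi]
          change 0 ≤ z k - a' k ∧ z k - a' k < ((2 : ℕ) : ℤ)
          push_cast
          omega
        · have := hz' k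
          simpa [Pi.single_eq_of_ne hk] using this
      rw [← this] at h4
      omega
    · have h5 : z i + 1 - a' i = 0 := by push_cast at h2; omega
      have h6 : a' i = a i + 2 := by omega
      unfold par
      rw [← ha', ← ha, h6]
      push_cast
      have : (2 : ZMod 2) = 0 := by decide
      rw [this, add_zero]

/-- A function invariant under all unit vectors in a finite set of directions is invariant under
changes of these coordinates. -/
lemma inv_single {β : Type} (f : (ι → ℤ) → β) (k : ι)
    (h : ∀ z, f (z + Pi.single k 1) = f z) (z : ι → ℤ) (n : ℤ) :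
    f (z + Pi.single k n) = f z := by
  have hnat : ∀ (n : ℕ) (z : ι → ℤ), f (z + Pi.single k (n : ℤ)) = f z := by
    intro n
    induction n with
    | zero => intro z; simp
    | succ n ih =>
      intro z
      have : z + Pi.single k ((n + 1 : ℕ) : ℤ) = (z + Pi.single k (n : ℤ)) + Pi.single k 1 := by
        push_cast
        rw [Pi.single_add, add_assoc]
      rw [this, h, ih]
  rcases Int.eq_nat_or_neg n with ⟨m, rfl | rfl⟩
  · exact hnat m z
  · have := hnat m (z + Pi.single k (-(m : ℤ)))
    rw [← this]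
    congr 1
    rw [add_assoc, ← Pi.single_add]
    simp

end general

section main
variable {Om F C : Type} [DecidableEq Om] [DecidableEq C] [Fintype Om]
variable {D : FC Om F C} {A : Set (Ix Om C → ℤ)}

/-- Unit vectors. -/
def e (k : Ix Om C) : Ix Om C → ℤ := Pi.single k 1

lemma z2_self (x : ZMod 2) : x + x = 0 := by revert x; decide

lemma z2_two : (2 : ZMod 2) = 0 := by decide

/-- The marker `m_i`. -/
noncomputable def mm (hA : IsTil bIx A) (i : Om) (z : Ix Om C → ℤ) : ZMod 2 :=
  par hA (.R i) (z + Pi.single .u 1) + par hA (.R i) z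

lemma mm_inv_e (hA : IsTil bIx A) (hR : P2Rel D A) (i : Om) (k : Ix Om C)
    (h1 : k ≠ .g1) (h2 : k ≠ .g2) (z : Ix Om C → ℤ) :
    mm hA i (z + Pi.single k 1) = mm hA i z := by
  by_cases hu : k = .u
  · subst hu
    unfold mm
    have h := lin_par1 hA (hR.r2 i) z
    have e2 : z + Pi.single Ix.u 1 + Pi.single Ix.u 1 = z + Pi.single Ix.u 2 := by
      rw [add_assoc, ← Pi.single_add]; norm_num
    rw [e2, h, add_zero, add_comm]
  · unfold mm
    have h := lin_par1 hA (hR.r1 i k h1 h2 hu)
    rw [add_right_comm z, h, h, add_zero, add_zero]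

lemma mm_inv (hA : IsTil bIx A) (hR : P2Rel D A) (i : Om) (k : Ix Om C)
    (h1 : k ≠ .g1) (h2 : k ≠ .g2) (z : Ix Om C → ℤ) (n : ℤ) :
    mm hA i (z + Pi.single k n) = mm hA i z :=
  inv_single (fun z => mm hA i z) k (mm_inv_e hA hR i k h1 h2) z n

omit [Fintype Om] in
lemma sum_image_R (hA : IsTil bIx A) (S : Finset Om) (z : Ix Om C → ℤ) :
    ∑ k ∈ S.image Ix.R, par hA k z = ∑ i ∈ S, par hA (.R i) z := by
  apply Finset.sum_image
  intro a _ b _ h
  exact Ix.R.inj h

omit [Fintype Om] in
/-- the sum of the markers over a set of states -/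
lemma sum_mm (hA : IsTil bIx A) (S : Finset Om) (z : Ix Om C → ℤ) :
    ∑ i ∈ S, mm hA i z =
      ∑ k ∈ S.image Ix.R, par hA k (z + Pi.single .u 1) + ∑ k ∈ S.image Ix.R, par hA k z := by
  rw [sum_image_R, sum_image_R, ← Finset.sum_add_distrib]
  rfl

lemma sum_mm_univ (hA : IsTil bIx A) (hR : P2Rel D A) (z : Ix Om C → ℤ) :
    ∑ i, mm hA i z = 1 := by
  rw [sum_mm, lin_par hA hR.r5 z, add_right_comm, z2_self, zero_add]

lemma par_P_u (hA : IsTil bIx A) (hR : P2Rel D A) (i : Om) (z : Ix Om C → ℤ) :
    par hA (.P i) (z + Pi.single .u 1) = par hA (.P i) z + mm hA i z := by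
  have h := lin_par hA (hR.r3 i) z
  rw [Finset.sum_pair (by simp), Finset.sum_pair (by simp), add_zero] at h
  unfold mm
  generalize par hA (.P i) (z + Pi.single .u 1) = a at *
  generalize par hA (.R i) (z + Pi.single .u 1) = b at *
  generalize par hA (.P i) z = c at *
  generalize par hA (.R i) z = d at *
  revert a b c d
  decide

lemma par_P_two (hA : IsTil bIx A) (hR : P2Rel D A) (i j : Om) (hij : i ≠ j)
    (z : Ix Om C → ℤ) :
    par hA (.P i) (z + Pi.single (.P j) 2) = par hA (.P i) z + mm hA i z := by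
  have h := lin_par1 hA (hR.r4 i j hij) z
  rw [← add_assoc, par_P_u hA hR, mm_inv hA hR i (.P j) (by simp) (by simp)] at h
  generalize par hA (.P i) (z + Pi.single (.P j) 2) = a at *
  generalize par hA (.P i) z = b at *
  generalize mm hA i z = c at *
  revert a b c
  decide

/-- At most one marker is nonzero. -/
lemma mm_unique (hA : IsTil bIx A) (hR : P2Rel D A) (i j : Om) (z0 : Ix Om C → ℤ)
    (hi : mm hA i z0 = 1) (hj : mm hA j z0 = 1) : i = j := by
  by_contra hij
  set a := cor hA z0 with ha
  -- lower the two coordinates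
  set z1 : Ix Om C → ℤ := z0 + Pi.single (.P i) (a (.P i) - z0 (.P i)) +
    Pi.single (.P j) (a (.P j) - z0 (.P j)) with hz1
  have hPij : (Ix.P i : Ix Om C) ≠ .P j := fun h => hij (Ix.P.inj h)
  have z1i : z1 (.P i) = a (.P i) := by
    simp [hz1, Pi.single_eq_of_ne hPij]
  have z1j : z1 (.P j) = a (.P j) := by
    simp [hz1, Pi.single_eq_of_ne hPij.symm]
  have z1k : ∀ k, k ≠ .P i → k ≠ .P j → z1 k = z0 k := by
    intro k h1 h2
    simp [hz1, Pi.single_eq_of_ne h1, Pi.single_eq_of_ne h2]
  have hbox := cor_box hA z0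
  rw [← ha] at hbox
  have hbi : bIx (Ix.P i : Ix Om C) = 2 := rfl
  have hbj : bIx (Ix.P j : Ix Om C) = 2 := rfl
  have hm : ∀ k, mm hA k z1 = mm hA k z0 := by
    intro k
    rw [hz1, mm_inv hA hR k _ (by simp) (by simp), mm_inv hA hR k _ (by simp) (by simp)]
  have c1 : cor hA z1 = a := by
    apply cor_eq hA (cor_mem hA z0)
    intro k
    by_cases h1 : k = .P i
    · subst h1
      simp only [Pi.sub_apply, ← ha, z1i, hbi]
      norm_num
    · by_cases h2 : k = .P j
      · subst h2
        simp only [Pi.sub_apply, ← ha, z1j, hbj]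
        norm_num
      · have := hbox k
        simpa only [Pi.sub_apply, z1k k h1 h2] using this
  -- the far point
  set z2 : Ix Om C → ℤ := z1 + Pi.single (.P i) 2 + Pi.single (.P j) 2 with hz2
  set a' := cor hA z2 with ha'
  have two : ∀ (k : Ix Om C) (z : Ix Om C → ℤ), bIx k = 2 →
      par hA k (z + Pi.single k 2) = par hA k z := by
    intro k z hk
    have : (Pi.single k 2 : Ix Om C → ℤ) = Pi.single k 1 + Pi.single k 1 := by
      rw [← Pi.single_add]; norm_num
    rw [this, ← add_assoc, par_add_self hA k hk, par_add_self hA k hk]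
  have pi2 : par hA (.P i) z2 = par hA (.P i) z1 + 1 := by
    rw [hz2, par_P_two hA hR i j hij, two _ _ hbi, mm_inv hA hR i _ (by simp) (by simp), hm i, hi]
  have pj2 : par hA (.P j) z2 = par hA (.P j) z1 + 1 := by
    rw [hz2, two _ _ hbj, par_P_two hA hR j i (Ne.symm hij), hm j, hj]
  have hbox2 := cor_box hA z2
  rw [← ha'] at hbox2
  have z2i : z2 (.P i) = a (.P i) + 2 := by
    simp [hz2, Pi.single_eq_of_ne hPij, z1i]
  have z2j : z2 (.P j) = a (.P j) + 2 := by
    simp [hz2, Pi.single_eq_of_ne hPij.symm, z1j]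
  have z2k : ∀ k, k ≠ .P i → k ≠ .P j → z2 k = z1 k := by
    intro k h1 h2
    simp [hz2, Pi.single_eq_of_ne h1, Pi.single_eq_of_ne h2]
  have key : ∀ (k : Ix Om C), bIx k = 2 → z2 k = a k + 2 →
      par hA k z2 = par hA k z1 + 1 → a' k = a k + 1 := by
    intro k hk h2 hp
    have h3 := hbox2 k
    rw [hk, Pi.sub_apply, h2] at h3
    push_cast at h3
    unfold par at hp
    rw [c1, ← ha'] at hp
    by_contra hne
    have h4 : a' k = a k + 2 := by omega
    rw [h4] at hp
    push_cast at hp
    rw [z2_two, add_zero] at hp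
    have : (0 : ZMod 2) = 1 := by
      have h5 : ((a k : ℤ) : ZMod 2) + 0 = ((a k : ℤ) : ZMod 2) + 1 := by rw [add_zero]; exact hp
      exact add_left_cancel h5
    exact absurd this (by decide)
  have ai := key _ hbi z2i pi2
  have aj := key _ hbj z2j pj2
  -- the common point
  set z3 : Ix Om C → ℤ := z1 + Pi.single (.P i) 1 + Pi.single (.P j) 1 with hz3
  have z3i : z3 (.P i) = a (.P i) + 1 := by
    simp [hz3, Pi.single_eq_of_ne hPij, z1i]
  have z3j : z3 (.P j) = a (.P j) + 1 := by
    simp [hz3, Pi.single_eq_of_ne hPij.symm, z1j]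
  have z3k : ∀ k, k ≠ .P i → k ≠ .P j → z3 k = z1 k := by
    intro k h1 h2
    simp [hz3, Pi.single_eq_of_ne h1, Pi.single_eq_of_ne h2]
  have c3 : cor hA z3 = a := by
    apply cor_eq hA (cor_mem hA z0)
    intro k
    by_cases h1 : k = .P i
    · subst h1
      simp only [Pi.sub_apply, ← ha, z3i, hbi]
      norm_num
    · by_cases h2 : k = .P j
      · subst h2
        simp only [Pi.sub_apply, ← ha, z3j, hbj]
        norm_num
      · have := hbox k
        simpa only [Pi.sub_apply, z3k k h1 h2, z1k k h1 h2] using this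
  have c3' : cor hA z3 = a' := by
    apply cor_eq hA (cor_mem hA z2)
    intro k
    by_cases h1 : k = .P i
    · subst h1
      simp only [Pi.sub_apply, ← ha', z3i, hbi, ai]
      norm_num
    · by_cases h2 : k = .P j
      · subst h2
        simp only [Pi.sub_apply, ← ha', z3j, hbj, aj]
        norm_num
      · have := hbox2 k
        simpa only [Pi.sub_apply, z3k k h1 h2, z2k k h1 h2] using this
  have : a (.P i) = a' (.P i) := by rw [← c3, c3']
  omega

lemma exists_unique_mm (hA : IsTil bIx A) (hR : P2Rel D A) (z : Ix Om C → ℤ) :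
    ∃ i, ∀ j, mm hA j z = if j = i then 1 else 0 := by
  have h1 : ∃ i, mm hA i z = 1 := by
    by_contra h
    push Not at h
    have : ∑ i, mm hA i z = 0 := by
      apply Finset.sum_eq_zero
      intro i _
      have h2 := h i
      generalize mm hA i z = x at *
      revert x; decide
    rw [sum_mm_univ hA hR] at this
    exact absurd this (by decide)
  obtain ⟨i, hi⟩ := h1
  refine ⟨i, fun j => ?_⟩
  split_ifs with h
  · rw [h, hi]
  · have h2 : mm hA j z ≠ 1 := fun h3 => h (mm_unique hA hR j i z h3 hi)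
    generalize mm hA j z = x at *
    revert x; decide

/-- The state at a point. -/
noncomputable def st (hA : IsTil bIx A) (hR : P2Rel D A) (x : ℤ × ℤ) : Om :=
  (exists_unique_mm hA hR (hv x)).choose

lemma st_spec (hA : IsTil bIx A) (hR : P2Rel D A) (x : ℤ × ℤ) (j : Om) :
    mm hA j (hv x) = if j = st hA hR x then 1 else 0 :=
  (exists_unique_mm hA hR (hv x)).choose_spec j

lemma sum_st (hA : IsTil bIx A) (hR : P2Rel D A) (x : ℤ × ℤ) (S : Om → Bool) :
    ∑ i ∈ Finset.univ.filter (fun i => S i = true), mm hA i (hv x) =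
      if S (st hA hR x) = true then 1 else 0 := by
  simp_rw [st_spec hA hR x]
  rw [Finset.sum_ite_eq']
  simp

lemma bool_of_ite {p q : Bool} (h : (if p = true then (1 : ZMod 2) else 0) =
    if q = true then 1 else 0) : p = q := by
  revert p q; decide

lemma bool_of_ite' {p q : Bool} (h : (if p = true then (1 : ZMod 2) else 0) =
    (if q = true then 1 else 0) + 1) : p = !q := by
  revert p q; decide

omit [Fintype Om] in
lemma hv_add (x y : ℤ × ℤ) : (hv (x + y) : Ix Om C → ℤ) = hv x + hv y := by
  unfold hv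
  rw [Prod.fst_add, Prod.snd_add, Pi.single_add, Pi.single_add]
  abel

/-- Features are periodic. -/
lemma feature (hA : IsTil bIx A) (hR : P2Rel D A) (f : F) (x : ℤ × ℤ) :
    D.SF f (st hA hR (x + D.hF f)) = D.SF f (st hA hR x) := by
  apply bool_of_ite
  rw [← sum_st, ← sum_st, sum_mm, sum_mm, hv_add, add_right_comm]
  rw [lin_par hA (hR.r6 f), lin_par hA (hR.r6 f), add_zero, add_zero]

/-- The parity of one clock coordinate. -/
noncomputable def pp (hA : IsTil bIx A) (c : C) (l : Fin 3) (z : Ix Om C → ℤ) : ZMod 2 :=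
  par hA (.p c l) z

omit [Fintype Om] in
lemma sum_image_p (hA : IsTil bIx A) (c : C) (S : Finset (Fin 3)) (z : Ix Om C → ℤ) :
    ∑ k ∈ S.image (Ix.p c), par hA k z = ∑ l ∈ S, pp hA c l z := by
  apply Finset.sum_image
  intro a _ b _ h
  exact (Ix.p.inj h).2

lemma clock_rel (hA : IsTil bIx A) (hR : P2Rel D A) (c : C) (a : Fin 3 → Bool)
    (ha : ∃ l, a l = true) (z : Ix Om C → ℤ) :
    ∑ l, (if a l = true then pp hA c l
        (z + (Pi.single .w (if a 0 then 1 else 0) + Pi.single .u (if a 1 then 1 else 0) +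
        hv (if a 2 then D.hC c else 0))) else 0) =
      ∑ l, (if a l = true then pp hA c l z else 0) + 1 := by
  have h := lin_par hA (hR.r7b c a ha) z
  rw [sum_image_p, sum_image_p, Finset.sum_filter, Finset.sum_filter] at h
  exact h

lemma phi_eq (hA : IsTil bIx A) (hR : P2Rel D A) (c : C) (z : Ix Om C → ℤ) :
    ∑ i ∈ Finset.univ.filter (fun i => D.SC c i = true), mm hA i z =
      pp hA c 0 (z + Pi.single .u 1) + pp hA c 0 z := by
  have h := lin_par hA (hR.r7a c) z
  rw [sum_mm]
  rw [Finset.sum_union (by simp [Finset.disjoint_left]), Finset.sum_union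
    (by simp [Finset.disjoint_left]), Finset.sum_singleton, Finset.sum_singleton, add_zero] at h
  unfold pp
  generalize ∑ k ∈ (Finset.univ.filter (fun i => D.SC c i = true)).image Ix.R,
    par hA k (z + Pi.single .u 1) = a at *
  generalize ∑ k ∈ (Finset.univ.filter (fun i => D.SC c i = true)).image Ix.R,
    par hA k z = b at *
  generalize par hA (.p c 0) (z + Pi.single .u 1) = a' at *
  generalize par hA (.p c 0) z = b' at *
  revert a b a' b'
  decide

/-- The clock identity. -/
lemma clock_id (hA : IsTil bIx A) (hR : P2Rel D A) (c : C) (z : Ix Om C → ℤ) :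
    pp hA c 0 (z + hv (D.hC c) + Pi.single .u 1) + pp hA c 0 (z + hv (D.hC c)) =
      pp hA c 0 (z + Pi.single .u 1) + pp hA c 0 z + 1 := by
  set h : Ix Om C → ℤ := hv (D.hC c) with hh
  set w : Ix Om C → ℤ := Pi.single .w 1 with hw
  set u : Ix Om C → ℤ := Pi.single .u 1 with hu
  have hv0 : (hv (0 : ℤ × ℤ) : Ix Om C → ℤ) = 0 := by simp [hv]
  have q001 := clock_rel hA hR c ![false, false, true] ⟨2, rfl⟩
  have q010 := clock_rel hA hR c ![false, true, false] ⟨1, rfl⟩
  have q011 := clock_rel hA hR c ![false, true, true] ⟨2, rfl⟩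
  have q100 := clock_rel hA hR c ![true, false, false] ⟨0, rfl⟩
  have q101 := clock_rel hA hR c ![true, false, true] ⟨2, rfl⟩
  have q110 := clock_rel hA hR c ![true, true, false] ⟨0, rfl⟩
  have q111 := clock_rel hA hR c ![true, true, true] ⟨2, rfl⟩
  simp only [Fin.sum_univ_three, Matrix.cons_val_zero, Matrix.cons_val_one, Matrix.cons_val,
    Bool.false_eq_true, if_true, if_false, Pi.single_zero, hv0, ← hh, ← hw, ← hu, add_zero,
    zero_add] at q001 q010 q011 q100 q101 q110 q111
  have e1 := q001 (z + w)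
  have e2 := q010 (z + w)
  have e3 := q011 (z + w)
  have e4 := q100 (z + h)
  have e5 := q100 (z + u)
  have e6 := q100 (z + h + u)
  have e7 := q101 z
  have e8 := q110 z
  have e9 := q111 z
  have a1 : z + w + (u + h) = z + (w + u + h) := by abel
  have a2 : z + w + h = z + (w + h) := by abel
  have a3 : z + w + u = z + (w + u) := by abel
  have a4 : z + h + w = z + (w + h) := by abel
  have a5 : z + u + w = z + (w + u) := by abel
  have a6 : z + h + u + w = z + (w + u + h) := by abel
  rw [a1] at e3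
  rw [a2] at e1
  rw [a3] at e2
  rw [a4] at e4
  rw [a5] at e5
  rw [a6] at e6
  generalize pp hA c 0 (z + h + u) = x1 at *
  generalize pp hA c 0 (z + h) = x2 at *
  generalize pp hA c 0 (z + u) = x3 at *
  generalize pp hA c 0 z = x4 at *
  generalize pp hA c 1 z = x5 at *
  generalize pp hA c 2 z = x6 at *
  generalize pp hA c 0 (z + (w + u + h)) = y1 at *
  generalize pp hA c 1 (z + (w + u + h)) = y2 at *
  generalize pp hA c 2 (z + (w + u + h)) = y3 at *
  generalize pp hA c 0 (z + (w + h)) = y4 at *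
  generalize pp hA c 2 (z + (w + h)) = y5 at *
  generalize pp hA c 0 (z + (w + u)) = y6 at *
  generalize pp hA c 1 (z + (w + u)) = y7 at *
  generalize pp hA c 1 (z + w) = y8 at *
  generalize pp hA c 2 (z + w) = y9 at *
  have tw := z2_two
  linear_combination e1 + e2 + e3 + e4 + e5 + e6 + e7 + e8 + e9 +
    (4 + x1 + x2 + y9 + y8 + x4 + x6 + x5 - y5 - y7 - y2 - y3 - y4 - y6 - y1) * tw

lemma clock (hA : IsTil bIx A) (hR : P2Rel D A) (c : C) (x : ℤ × ℤ) :
    D.SC c (st hA hR (x + D.hC c)) = !(D.SC c (st hA hR x)) := by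
  apply bool_of_ite'
  rw [← sum_st, ← sum_st, phi_eq hA hR, phi_eq hA hR, hv_add]
  exact clock_id hA hR c (hv x)

omit [Fintype Om] in
lemma par_period (hA : IsTil bIx A) (n : ℤ)
    (hn : ∀ i, ∀ a ∈ A, a + Pi.single i n ∈ A) (i : Om) (z : Ix Om C → ℤ) :
    par hA (.R i) (z + Pi.single .g1 n) = par hA (.R i) z := by
  have : cor hA (z + Pi.single .g1 n) = cor hA z + Pi.single .g1 n := by
    apply cor_eq hA (hn _ _ (cor_mem hA z))
    rw [add_sub_add_right_eq_sub]
    exact cor_box hA z
  unfold par
  rw [this]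
  simp

lemma st_period (hA : IsTil bIx A) (hR : P2Rel D A) (n : ℤ)
    (hn : ∀ i, ∀ a ∈ A, a + Pi.single i n ∈ A) (x : ℤ × ℤ) :
    st hA hR (x + (n, 0)) = st hA hR x := by
  have h1 := st_spec hA hR (x + (n, 0)) (st hA hR x)
  have h2 := st_spec hA hR x (st hA hR x)
  rw [if_pos rfl] at h2
  have h3 : mm hA (st hA hR x) (hv (x + (n, 0))) = mm hA (st hA hR x) (hv x) := by
    have e1 : (hv (x + (n, 0)) : Ix Om C → ℤ) = hv x + Pi.single .g1 n := by
      rw [hv_add]
      simp [hv]
    unfold mm
    rw [e1, add_right_comm, par_period hA n hn, par_period hA n hn]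
  rw [h3, h2] at h1
  by_contra hne
  rw [if_neg (fun h => hne h.symm)] at h1
  exact absurd h1 (by decide)

end main

end P2ConvAux

open P2ConvAux in
theorem p2Conv : StmtP2Conv := by
  intro Om F C _ _ _ D A hA hR
  exact ⟨st hA hR, ⟨fun f x => feature hA hR f x, fun c x => clock hA hR c x⟩,
    fun n hn x => st_period hA hR n hn x⟩

end Pool.Agent.Helper492_PTC
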