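import Pool.Agent.Helper492_PTC.Stmts2

/-!
Task P2Ex: a solution of the finite-alphabet system gives a tiling satisfying the relations.
-/

set_option autoImplicit false
set_option linter.unusedSectionVars false

namespace Pool.Agent.Helper492_PTC

namespace P2ExAux

/-- truth value as a residue mod two -/
def bz (b : Bool) : ZMod 2 := if b then 1 else 0

/-- the three clock functions -/
def ff (l : Fin 3) (q1 q2 q3 : ZMod 2) : ZMod 2 :=
  match l with
  | 0 => q1 + q2 + q2 * q3
  | 1 => q2 + q3 + q1 * q3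
  | 2 => q3 + q1 + q1 * q2

theorem ff_flip : ∀ (a : Fin 3 → Bool), (∃ l, a l = true) → ∀ q1 q2 q3 : ZMod 2,
    ∑ l ∈ Finset.univ.filter (fun l => a l = true),
      ff l (q1 + bz (a 0)) (q2 + bz (a 1)) (q3 + bz (a 2)) =
    ∑ l ∈ Finset.univ.filter (fun l => a l = true), ff l q1 q2 q3 + 1 := by
  decide

theorem ff_zero : ∀ q1 q2 q3 : ZMod 2, ff 0 q1 (q2 + 1) q3 = ff 0 q1 q2 q3 + (1 + q3) := by
  decide

section
variable {Om F C : Type} [DecidableEq Om] [DecidableEq C] [Fintype Om]

/-- the parity functions -/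
def ee (D : FC Om F C) (s : ℤ × ℤ → Om) (z : Ix Om C → ℤ) : Ix Om C → ZMod 2
  | .g1 => 0
  | .g2 => 0
  | .u => 0
  | .w => 0
  | .P i => if s (z .g1, z .g2) = i then
      ((z .u : ℤ) : ZMod 2) + ∑ j ∈ Finset.univ.erase i, (((z (.P j)) / 2 : ℤ) : ZMod 2) else 0
  | .R i => if s (z .g1, z .g2) = i then ((z .u : ℤ) : ZMod 2) else 0
  | .p c l => ff l ((z .w : ℤ) : ZMod 2) ((z .u : ℤ) : ZMod 2)
      (bz (D.SC c (s (z .g1, z .g2))) + 1)

/-- the tiling set -/
def AA (D : FC Om F C) (s : ℤ × ℤ → Om) : Set (Ix Om C → ℤ) :=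
  {z | ∀ i, bIx i = 2 → ((z i : ℤ) : ZMod 2) = ee D s z i}

omit [DecidableEq Om] [DecidableEq C] [Fintype Om] in
theorem bIx_cases (i : Ix Om C) : bIx i = 1 ∨ bIx i = 2 := by
  cases i <;> simp [bIx]

theorem even_of_zmod {x : ℤ} (h : (x : ZMod 2) = 0) : ∃ k, x = 2 * k := by
  rw [ZMod.intCast_zmod_eq_zero_iff_dvd] at h
  obtain ⟨k, hk⟩ := h
  exact ⟨k, by exact_mod_cast hk⟩

/-- the data deciding the parity functions are constant on cells -/
theorem ee_congr (D : FC Om F C) (s : ℤ × ℤ → Om) (z a : Ix Om C → ℤ)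
    (h1 : a .g1 = z .g1) (h2 : a .g2 = z .g2) (h3 : a .u = z .u) (h4 : a .w = z .w)
    (hP : ∀ j, s (z .g1, z .g2) ≠ j → a (.P j) / 2 = z (.P j) / 2) :
    ee D s a = ee D s z := by
  funext i
  cases i with
  | g1 => rfl
  | g2 => rfl
  | u => rfl
  | w => rfl
  | P i =>
    simp only [ee, h1, h2, h3]
    by_cases hi : s (z .g1, z .g2) = i
    · rw [if_pos hi, if_pos hi]
      congr 1
      apply Finset.sum_congr rfl
      intro j hj
      rw [hP j (by
        intro h
        rw [hi] at h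
        exact (Finset.mem_erase.1 hj).1 h.symm)]
    · rw [if_neg hi, if_neg hi]
  | R i => simp only [ee, h1, h2, h3]
  | p c l => simp only [ee, h1, h2, h3, h4]

theorem corner (D : FC Om F C) (s : ℤ × ℤ → Om) (z a : Ix Om C → ℤ) (ha : a ∈ AA D s)
    (hz : z - a ∈ IBox bIx) : ee D s a = ee D s z := by
  have hb : ∀ i, 0 ≤ z i - a i ∧ z i - a i < ((bIx i : ℕ) : ℤ) := hz
  have h1 : a .g1 = z .g1 := by
    have := hb .g1; simp [bIx] at this; omega
  have h2 : a .g2 = z .g2 := by
    have := hb .g2; simp [bIx] at this; omega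
  have h3 : a .u = z .u := by
    have := hb .u; simp [bIx] at this; omega
  have h4 : a .w = z .w := by
    have := hb .w; simp [bIx] at this; omega
  apply ee_congr D s z a h1 h2 h3 h4
  intro j hj
  have h5 := ha (.P j) rfl
  simp only [ee, h1, h2] at h5
  rw [if_neg hj] at h5
  obtain ⟨k, hk⟩ := even_of_zmod h5
  have h6 := hb (.P j)
  simp [bIx] at h6
  omega

/-- the corner of a cell -/
def cor (D : FC Om F C) (s : ℤ × ℤ → Om) (z : Ix Om C → ℤ) : Ix Om C → ℤ := fun i =>
  if bIx i = 1 then z i else if ((z i : ℤ) : ZMod 2) = ee D s z i then z i else z i - 1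

theorem zmod_sub_one : ∀ x y : ZMod 2, x ≠ y → x - 1 = y := by decide

theorem cor_par (D : FC Om F C) (s : ℤ × ℤ → Om) (z : Ix Om C → ℤ) (i : Ix Om C)
    (hi : bIx i = 2) : ((cor D s z i : ℤ) : ZMod 2) = ee D s z i := by
  unfold cor
  rw [if_neg (by omega)]
  split_ifs with h
  · exact h
  · push_cast
    exact zmod_sub_one _ _ h

theorem cor_box (D : FC Om F C) (s : ℤ × ℤ → Om) (z : Ix Om C → ℤ) :
    z - cor D s z ∈ IBox bIx := by
  intro i
  have h : (z - cor D s z) i = z i - cor D s z i := rfl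
  rw [h]
  unfold cor
  rcases bIx_cases i with hi | hi
  · rw [if_pos hi, hi]; simp
  · rw [if_neg (by omega), hi]
    split_ifs <;> simp

theorem cor_mem (D : FC Om F C) (s : ℤ × ℤ → Om) (z : Ix Om C → ℤ) : cor D s z ∈ AA D s := by
  intro i hi
  rw [cor_par D s z i hi]
  have : ee D s (cor D s z) = ee D s z := by
    have hb : ∀ i, 0 ≤ z i - cor D s z i ∧ z i - cor D s z i < ((bIx i : ℕ) : ℤ) := cor_box D s z
    have h1 : cor D s z .g1 = z .g1 := by
      have := hb .g1; simp [bIx] at this; omega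
    have h2 : cor D s z .g2 = z .g2 := by
      have := hb .g2; simp [bIx] at this; omega
    have h3 : cor D s z .u = z .u := by
      have := hb .u; simp [bIx] at this; omega
    have h4 : cor D s z .w = z .w := by
      have := hb .w; simp [bIx] at this; omega
    apply ee_congr D s z _ h1 h2 h3 h4
    intro j hj
    have h5 := cor_par D s z (.P j) rfl
    simp only [ee] at h5
    rw [if_neg hj] at h5
    obtain ⟨k, hk⟩ := even_of_zmod h5
    have h6 := hb (.P j)
    simp [bIx] at h6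
    omega
  rw [this]

theorem isTil (D : FC Om F C) (s : ℤ × ℤ → Om) : IsTil bIx (AA D s) := by
  intro z
  refine ⟨cor D s z, ⟨cor_mem D s z, cor_box D s z⟩, ?_⟩
  rintro a ⟨ha, hza⟩
  funext i
  have hc := corner D s z a ha hza
  have hb : ∀ i, 0 ≤ z i - a i ∧ z i - a i < ((bIx i : ℕ) : ℤ) := hza
  have hb' : ∀ i, 0 ≤ z i - cor D s z i ∧ z i - cor D s z i < ((bIx i : ℕ) : ℤ) := cor_box D s z
  have h1 := hb i
  have h2 := hb' i
  rcases bIx_cases i with hi | hi
  · rw [hi] at h1 h2
    simp at h1 h2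
    omega
  · rw [hi] at h1 h2
    have h3 := ha i hi
    rw [hc, ← cor_par D s z i hi] at h3
    have h4 : ((a i - cor D s z i : ℤ) : ZMod 2) = 0 := by
      push_cast
      rw [h3]
      ring
    obtain ⟨k, hk⟩ := even_of_zmod h4
    push_cast at h1 h2
    omega

/-- relations between corner parities follow from relations between parity functions -/
theorem lin_of (D : FC Om F C) (s : ℤ × ℤ → Om) (S : Finset (Ix Om C)) (v : Ix Om C → ℤ)
    (c : ZMod 2) (hS : ∀ i ∈ S, bIx i = 2)
    (h : ∀ z, ∑ i ∈ S, ee D s (z + v) i = ∑ i ∈ S, ee D s z i + c) :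
    Lin bIx (AA D s) S v c := by
  intro z a a' ha hza ha' hza'
  rw [Finset.sum_congr rfl (fun i hi => by
      rw [ha' i (hS i hi), corner D s (z + v) a' ha' hza'] : ∀ i ∈ S, _ = ee D s (z + v) i),
    Finset.sum_congr rfl (fun i hi => by
      rw [ha i (hS i hi), corner D s z a ha hza] : ∀ i ∈ S, ((a i : ℤ) : ZMod 2) = ee D s z i)]
  exact h z

end

end P2ExAux

open P2ExAux in
theorem p2Ex : StmtP2Ex := by
  intro Om F C _ _ _ D s hs
  refine ⟨AA D s, isTil D s, ?_⟩
  have two : (2 : ZMod 2) = 0 := by decide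
  have addself : ∀ x : ZMod 2, x + x = 0 := by decide
  refine ⟨?_, ?_, ?_, ?_, ?_, ?_, ?_, ?_⟩
  · -- r1
    intro i k h1 h2 h3
    apply lin_of
    · simp [bIx]
    intro z
    simp only [Finset.sum_singleton, ee, Pi.add_apply, Pi.single_eq_of_ne (Ne.symm h1),
      Pi.single_eq_of_ne (Ne.symm h2), Pi.single_eq_of_ne (Ne.symm h3), add_zero]
  · -- r2
    intro i
    apply lin_of
    · simp [bIx]
    intro z
    simp [ee, two]
  · -- r3
    intro i
    apply lin_of
    · simp [bIx]
    intro z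
    rw [Finset.sum_pair (by simp), Finset.sum_pair (by simp)]
    simp only [ee, Pi.add_apply]
    have e1 : (Pi.single Ix.u 1 : Ix Om C → ℤ) .g1 = 0 := by simp
    have e2 : (Pi.single Ix.u 1 : Ix Om C → ℤ) .g2 = 0 := by simp
    have e3 : (Pi.single Ix.u 1 : Ix Om C → ℤ) .u = 1 := by simp
    have e4 : ∀ j, (Pi.single Ix.u 1 : Ix Om C → ℤ) (.P j) = 0 := by simp
    simp only [e1, e2, e3, e4, add_zero]
    split_ifs
    · push_cast
      generalize (∑ j ∈ Finset.univ.erase i, ((z (Ix.P j) / 2 : ℤ) : ZMod 2)) = t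
      generalize ((z Ix.u : ℤ) : ZMod 2) = q
      revert t q
      decide
    · rfl
  · -- r4
    intro i j hij
    apply lin_of
    · simp [bIx]
    intro z
    simp only [Finset.sum_singleton, ee, Pi.add_apply]
    have e1 : (Pi.single Ix.u 1 : Ix Om C → ℤ) .g1 = 0 := by simp
    have e2 : (Pi.single Ix.u 1 : Ix Om C → ℤ) .g2 = 0 := by simp
    have e3 : (Pi.single Ix.u 1 : Ix Om C → ℤ) .u = 1 := by simp
    have e4 : ∀ j, (Pi.single Ix.u 1 : Ix Om C → ℤ) (.P j) = 0 := by simp
    have f1 : (Pi.single (Ix.P j) 2 : Ix Om C → ℤ) .g1 = 0 := by simp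
    have f2 : (Pi.single (Ix.P j) 2 : Ix Om C → ℤ) .g2 = 0 := by simp
    have f3 : (Pi.single (Ix.P j) 2 : Ix Om C → ℤ) .u = 0 := by simp
    simp only [e1, e2, e3, e4, f1, f2, f3, add_zero, zero_add]
    split_ifs
    · have hj : j ∈ Finset.univ.erase i := Finset.mem_erase.2 ⟨Ne.symm hij, Finset.mem_univ _⟩
      rw [← Finset.add_sum_erase _ _ hj, ← Finset.add_sum_erase _ _ hj]
      have g1 : ∀ k ∈ (Finset.univ.erase i).erase j,
          (((z (Ix.P k) + (Pi.single (Ix.P j) 2 : Ix Om C → ℤ) (Ix.P k)) / 2 : ℤ) : ZMod 2) =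
            ((z (Ix.P k) / 2 : ℤ) : ZMod 2) := by
        intro k hk
        have hkj : k ≠ j := (Finset.mem_erase.1 hk).1
        have : (Pi.single (Ix.P j) 2 : Ix Om C → ℤ) (Ix.P k) = 0 := by
          apply Pi.single_eq_of_ne
          intro h
          exact hkj (Ix.P.inj h)
        rw [this, add_zero]
      rw [Finset.sum_congr rfl g1]
      have g2 : (Pi.single (Ix.P j) 2 : Ix Om C → ℤ) (Ix.P j) = 2 := by simp
      rw [g2]
      have g3 : (z (Ix.P j) + 2) / 2 = z (Ix.P j) / 2 + 1 := by omega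
      rw [g3]
      push_cast
      generalize (∑ k ∈ (Finset.univ.erase i).erase j, ((z (Ix.P k) / 2 : ℤ) : ZMod 2)) = t
      generalize ((z (Ix.P j) / 2 : ℤ) : ZMod 2) = r
      generalize ((z Ix.u : ℤ) : ZMod 2) = q
      revert t r q
      decide
    · rfl
  · -- r5
    apply lin_of
    · intro i hi
      obtain ⟨j, -, rfl⟩ := Finset.mem_image.1 hi
      rfl
    intro z
    rw [Finset.sum_image (fun _ _ _ _ h => Ix.R.inj h),
      Finset.sum_image (fun _ _ _ _ h => Ix.R.inj h)]
    simp [ee]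
  · -- r6
    intro f
    apply lin_of
    · intro i hi
      obtain ⟨j, -, rfl⟩ := Finset.mem_image.1 hi
      rfl
    intro z
    rw [Finset.sum_image (fun _ _ _ _ h => Ix.R.inj h),
      Finset.sum_image (fun _ _ _ _ h => Ix.R.inj h)]
    have e1 : (hv (D.hF f) : Ix Om C → ℤ) .g1 = (D.hF f).1 := by simp [hv]
    have e2 : (hv (D.hF f) : Ix Om C → ℤ) .g2 = (D.hF f).2 := by simp [hv]
    have e3 : (hv (D.hF f) : Ix Om C → ℤ) .u = 0 := by simp [hv]
    simp only [ee, Pi.add_apply, e1, e2, e3, add_zero]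
    have hf := hs.1 f (z .g1, z .g2)
    have e4 : ((z .g1, z .g2) : ℤ × ℤ) + D.hF f = (z .g1 + (D.hF f).1, z .g2 + (D.hF f).2) := rfl
    rw [e4] at hf
    rw [Finset.sum_ite_eq, Finset.sum_ite_eq]
    simp only [Finset.mem_filter, Finset.mem_univ, true_and, hf]
  · -- r7a
    intro c
    apply lin_of
    · intro i hi
      rcases Finset.mem_union.1 hi with hi | hi
      · obtain ⟨j, -, rfl⟩ := Finset.mem_image.1 hi
        rfl
      · rw [Finset.mem_singleton.1 hi]; rfl
    intro z
    have hd : Disjoint ((Finset.univ.filter (fun i => D.SC c i = true)).image (Ix.R : Om → Ix Om C))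
        {Ix.p c 0} := by
      rw [Finset.disjoint_singleton_right]
      intro h
      obtain ⟨j, -, hj⟩ := Finset.mem_image.1 h
      cases hj
    rw [Finset.sum_union hd, Finset.sum_union hd, Finset.sum_singleton, Finset.sum_singleton,
      Finset.sum_image (fun _ _ _ _ h => Ix.R.inj h),
      Finset.sum_image (fun _ _ _ _ h => Ix.R.inj h)]
    have e1 : (Pi.single Ix.u 1 : Ix Om C → ℤ) .g1 = 0 := by simp
    have e2 : (Pi.single Ix.u 1 : Ix Om C → ℤ) .g2 = 0 := by simp
    have e3 : (Pi.single Ix.u 1 : Ix Om C → ℤ) .u = 1 := by simp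
    have e4 : (Pi.single Ix.u 1 : Ix Om C → ℤ) .w = 0 := by simp
    simp only [ee, Pi.add_apply, e1, e2, e3, e4, add_zero]
    rw [Finset.sum_ite_eq, Finset.sum_ite_eq]
    simp only [Finset.mem_filter, Finset.mem_univ, true_and]
    have e5 : ((z Ix.u + 1 : ℤ) : ZMod 2) = ((z Ix.u : ℤ) : ZMod 2) + 1 := by push_cast; rfl
    rw [e5, ff_zero]
    generalize (ff 0 ((z Ix.w : ℤ) : ZMod 2) ((z Ix.u : ℤ) : ZMod 2)
      (bz (D.SC c (s (z Ix.g1, z Ix.g2))) + 1)) = t
    generalize ((z Ix.u : ℤ) : ZMod 2) = q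
    generalize D.SC c (s (z Ix.g1, z Ix.g2)) = b
    revert t q b
    unfold bz
    decide
  · -- r7b
    intro c a ha
    apply lin_of
    · intro i hi
      obtain ⟨j, -, rfl⟩ := Finset.mem_image.1 hi
      rfl
    intro z
    rw [Finset.sum_image (fun _ _ _ _ h => (Ix.p.inj h).2),
      Finset.sum_image (fun _ _ _ _ h => (Ix.p.inj h).2)]
    simp only [ee]
    have hw : (((z + (Pi.single .w (if a 0 then 1 else 0) + Pi.single .u (if a 1 then 1 else 0) +
        hv (if a 2 then D.hC c else 0)) : Ix Om C → ℤ) .w : ℤ) : ZMod 2) =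
          ((z .w : ℤ) : ZMod 2) + bz (a 0) := by
      simp only [Pi.add_apply]
      have e1 : (hv (if a 2 then D.hC c else 0) : Ix Om C → ℤ) .w = 0 := by simp [hv]
      rw [e1]
      cases a 0 <;> simp [bz]
    have hu : (((z + (Pi.single .w (if a 0 then 1 else 0) + Pi.single .u (if a 1 then 1 else 0) +
        hv (if a 2 then D.hC c else 0)) : Ix Om C → ℤ) .u : ℤ) : ZMod 2) =
          ((z .u : ℤ) : ZMod 2) + bz (a 1) := by
      simp only [Pi.add_apply]
      have e1 : (hv (if a 2 then D.hC c else 0) : Ix Om C → ℤ) .u = 0 := by simp [hv]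
      rw [e1]
      cases a 1 <;> simp [bz]
    have hg : bz (D.SC c (s ((z + (Pi.single .w (if a 0 then 1 else 0) +
        Pi.single .u (if a 1 then 1 else 0) +
        hv (if a 2 then D.hC c else 0)) : Ix Om C → ℤ) .g1,
        (z + (Pi.single .w (if a 0 then 1 else 0) + Pi.single .u (if a 1 then 1 else 0) +
        hv (if a 2 then D.hC c else 0)) : Ix Om C → ℤ) .g2))) + 1 =
          (bz (D.SC c (s (z .g1, z .g2))) + 1) + bz (a 2) := by
      have g1 : (z + (Pi.single .w (if a 0 then 1 else 0) +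
        Pi.single .u (if a 1 then 1 else 0) +
        hv (if a 2 then D.hC c else 0)) : Ix Om C → ℤ) .g1 =
          z .g1 + (if a 2 then (D.hC c).1 else 0) := by
        cases a 2 <;> simp [hv]
      have g2 : (z + (Pi.single .w (if a 0 then 1 else 0) +
        Pi.single .u (if a 1 then 1 else 0) +
        hv (if a 2 then D.hC c else 0)) : Ix Om C → ℤ) .g2 =
          z .g2 + (if a 2 then (D.hC c).2 else 0) := by
        cases a 2 <;> simp [hv]
      rw [g1, g2]
      cases a 2 with
      | false => simp [bz]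
      | true =>
        have hc := hs.2 c (z .g1, z .g2)
        have e4 : ((z .g1, z .g2) : ℤ × ℤ) + D.hC c =
          (z .g1 + (D.hC c).1, z .g2 + (D.hC c).2) := rfl
        rw [e4] at hc
        simp only [if_true]
        rw [hc]
        generalize D.SC c (s (z Ix.g1, z Ix.g2)) = b
        revert b
        unfold bz
        decide
    rw [Finset.sum_congr rfl (fun l _ => by rw [hw, hu, hg])]
    exact ff_flip a ha _ _ _

end Pool.Agent.Helper492_PTC
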