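import Pool.Agent.Helper492_PTC.Stmts2

/-!
Task P2Lin: linear relations between corner parities are tile relations.
-/

set_option autoImplicit false
set_option linter.unusedSectionVars false

namespace Pool.Agent.Helper492_PTC

namespace P2LinAux

variable {ι : Type} [Fintype ι] [DecidableEq ι]

/-- the box as a finite set -/
noncomputable def fbox (b : ι → ℕ) : Finset (ι → ℤ) := Fintype.piFinset (fun i => Finset.Ico 0 (b i : ℤ))

theorem mem_fbox (b : ι → ℕ) (t : ι → ℤ) : t ∈ fbox b ↔ t ∈ IBox b := by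
  simp [fbox, IBox, Fintype.mem_piFinset, Finset.mem_Ico]

theorem inSum_iff (b : ι → ℕ) (A X : Set (ι → ℤ)) (hX : ∀ t ∈ X, t ∈ IBox b) (hA : IsTil b A)
    (z a : ι → ℤ) (ha : a ∈ A) (hz : z - a ∈ IBox b) : InSum A X z ↔ z - a ∈ X := by
  constructor
  · rintro ⟨a', ha', hz'⟩
    have : a' = a := (hA z).unique ⟨ha', hX _ hz'⟩ ⟨ha, hz⟩
    rw [← this]
    exact hz'
  · intro h
    exact ⟨a, ha, h⟩

/-- parity sum -/
def ps (S : Finset ι) (t : ι → ℤ) : ZMod 2 := ∑ i ∈ S, ((t i : ℤ) : ZMod 2)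

theorem ps_sub (S : Finset ι) (t t' : ι → ℤ) : ps S (t - t') = ps S t - ps S t' := by
  simp [ps, Finset.sum_sub_distrib]

theorem ps_add (S : Finset ι) (t t' : ι → ℤ) : ps S (t + t') = ps S t + ps S t' := by
  simp [ps, Finset.sum_add_distrib]

theorem zm (x y p q c : ZMod 2) :
    ((x - p = 0) ↔ (x - y - q = c + y)) ↔ p = q + c := by
  revert x y p q c
  decide

end P2LinAux

open P2LinAux in
theorem p2Lin : StmtP2Lin := by
  intro ι _ _ b S v c
  refine ⟨(fbox b).filter (fun t => ps S t = c + ps S v), (fbox b).filter (fun t => ps S t = 0),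
    ?_, ?_, ?_⟩
  · intro t ht
    exact (mem_fbox b t).1 (Finset.mem_filter.1 ht).1
  · intro t ht
    exact (mem_fbox b t).1 (Finset.mem_filter.1 ht).1
  intro A hA
  have key : ∀ z a a' : ι → ℤ, a ∈ A → z - a ∈ IBox b → a' ∈ A → z - v - a' ∈ IBox b →
      ((InSum A ((fbox b).filter (fun t => ps S t = 0)) z ↔
        InSum A ((fbox b).filter (fun t => ps S t = c + ps S v)) (z - v)) ↔
          ps S a = ps S a' + c) := by
    intro z a a' ha hza ha' hza'
    rw [inSum_iff b A _ (by
        intro t ht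
        exact (mem_fbox b t).1 (Finset.mem_filter.1 ht).1) hA z a ha hza,
      inSum_iff b A _ (by
        intro t ht
        exact (mem_fbox b t).1 (Finset.mem_filter.1 ht).1) hA (z - v) a' ha' hza']
    have h1 : z - a ∈ (((fbox b).filter (fun t => ps S t = 0) : Finset (ι → ℤ)) : Set (ι → ℤ)) ↔
        ps S z - ps S a = 0 := by
      rw [Finset.mem_coe, Finset.mem_filter, mem_fbox, ps_sub]
      exact ⟨fun h => h.2, fun h => ⟨hza, h⟩⟩
    have h2 : z - v - a' ∈ (((fbox b).filter (fun t => ps S t = c + ps S v) :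
        Finset (ι → ℤ)) : Set (ι → ℤ)) ↔ ps S z - ps S v - ps S a' = c + ps S v := by
      rw [Finset.mem_coe, Finset.mem_filter, mem_fbox, ps_sub, ps_sub]
      exact ⟨fun h => h.2, fun h => ⟨hza', h⟩⟩
    rw [h1, h2]
    exact zm _ _ _ _ _
  constructor
  · intro h z a a' ha hza ha' hza'
    have h1 := (key (z + v) a' a ha' hza' ha (by rwa [add_sub_cancel_right])).1 (h (z + v))
    exact h1
  · intro h z
    obtain ⟨a, ⟨ha, hza⟩, -⟩ := hA z
    obtain ⟨a', ⟨ha', hza'⟩, -⟩ := hA (z - v)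
    apply (key z a a' ha hza ha' hza').2
    exact h (z - v) a' a ha' hza' ha (by rwa [sub_add_cancel])

end Pool.Agent.Helper492_PTC
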