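import Pool.Agent.Helper492_PTC.Stmts

/-!
Geometric data with prescribed combinatorics.
-/

set_option autoImplicit false
open MeasureTheory

namespace Pool.Agent.Helper492_PTC

/-- TASK Param. -/
theorem param : StmtParam := by
  intro ι J _ _ _ b hb X X' v i0 i1 h01 hX hX'
  obtain ⟨N, hN⟩ : ∃ N : ℕ, N = Fintype.card J := ⟨_, rfl⟩
  let f : J ≃ Fin (Fintype.card J) := Fintype.equivFin J
  let m : J → ℕ := fun j => (f j : ℕ)
  have hm : ∀ j, m j < N := fun j => by rw [hN]; exact (f j).2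
  have hminj : ∀ j k, m j = m k → j = k := fun j k h => f.injective (Fin.ext h)
  have hN1 : (0 : ℝ) < (N : ℝ) + 1 := by positivity
  have hN2 : (0 : ℝ) < (N : ℝ) + 2 := by positivity
  let r : ℝ := 1 / (8 * ((N : ℝ) + 2))
  have hr : 0 < r := by positivity
  have hr8 : r < 1 / 8 := by
    show 1 / (8 * ((N : ℝ) + 2)) < 1 / 8
    apply one_div_lt_one_div_of_lt (by norm_num)
    nlinarith
  have hrN : 3 * r < 1 / ((N : ℝ) + 1) := by
    show 3 * (1 / (8 * ((N : ℝ) + 2))) < 1 / ((N : ℝ) + 1)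
    rw [lt_div_iff₀ hN1]
    rw [mul_one_div, div_mul_eq_mul_div, div_lt_one (by positivity)]
    nlinarith
  have hcast : ∀ j, ((m j : ℝ)) + 1 ≤ N := fun j => by exact_mod_cast hm j
  refine ⟨{
    b := b, hb := hb, X := X, X' := X', hX := hX, hX' := hX', v := v, i0 := i0, i1 := i1,
    h01 := h01,
    s := fun j => ((m j : ℝ) + 1) / ((N : ℝ) + 1),
    al := fun j => ((m j : ℝ) + 1) / ((N : ℝ) + 1),
    r := r, hr := hr, hr8 := hr8,
    hs := ?_, hsep := ?_, hal := ?_, hinj := ?_ }, rfl, rfl, rfl, rfl⟩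
  · intro j
    have h1 : 1 / ((N : ℝ) + 1) ≤ ((m j : ℝ) + 1) / ((N : ℝ) + 1) := by
      apply div_le_div_of_nonneg_right _ hN1.le
      have : (0 : ℝ) ≤ m j := Nat.cast_nonneg _
      linarith
    have h2 : ((m j : ℝ) + 1) / ((N : ℝ) + 1) ≤ 1 - 1 / ((N : ℝ) + 1) := by
      rw [div_le_iff₀ hN1, sub_mul, one_div, inv_mul_cancel₀ hN1.ne']
      linarith [hcast j]
    constructor <;> linarith
  · intro j k hjk n
    have hne : (m j : ℤ) - m k - n * (N + 1) ≠ 0 := by
      intro h0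
      have h1 : m j ≠ m k := fun h => hjk (hminj _ _ h)
      have h2 := hm j
      have h3 := hm k
      have h4 : (m j : ℤ) - m k = n * (N + 1) := by linarith
      rcases lt_trichotomy n 0 with hn | hn | hn
      · have : n * ((N : ℤ) + 1) ≤ -1 * ((N : ℤ) + 1) :=
          mul_le_mul_of_nonneg_right (by omega) (by omega)
        omega
      · rw [hn] at h4
        omega
      · have : 1 * ((N : ℤ) + 1) ≤ n * ((N : ℤ) + 1) :=
          mul_le_mul_of_nonneg_right (by omega) (by omega)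
        omega
    have habs : (1 : ℝ) ≤ |(m j : ℝ) - m k - n * (N + 1)| := by
      have : (1 : ℤ) ≤ |(m j : ℤ) - m k - n * (N + 1)| := Int.one_le_abs hne
      exact_mod_cast this
    have heq : ((m j : ℝ) + 1) / ((N : ℝ) + 1) - ((m k : ℝ) + 1) / ((N : ℝ) + 1) - n =
        ((m j : ℝ) - m k - n * (N + 1)) / ((N : ℝ) + 1) := by
      field_simp
      ring
    show 3 * r < |((m j : ℝ) + 1) / ((N : ℝ) + 1) - ((m k : ℝ) + 1) / ((N : ℝ) + 1) - n|
    rw [heq, abs_div, abs_of_pos hN1]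
    exact lt_of_lt_of_le hrN (div_le_div_of_nonneg_right habs hN1.le)
  · intro j
    refine ⟨by positivity, ?_⟩
    rw [div_le_one hN1]
    linarith [hcast j]
  · intro j k hjk
    apply hminj
    have h1 : ((m j : ℝ) + 1) / ((N : ℝ) + 1) = ((m k : ℝ) + 1) / ((N : ℝ) + 1) := hjk
    rw [div_left_inj' hN1.ne'] at h1
    have h2 : (m j : ℝ) = m k := by linarith
    exact_mod_cast h2

end Pool.Agent.Helper492_PTC
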