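import Pool.Agent.Helper492_PTC.Stmts

/-!
Independent integer periods give periods `n e_i`.
-/

set_option autoImplicit false
open MeasureTheory

namespace Pool.Agent.Helper492_PTC

namespace PeriodAux

theorem sum_emb {ι : Type} {n : ℕ} (c : Fin n → ℤ) (z : Fin n → ι → ℤ) (m : Fin n → ℤ) :
    ∑ k, c k • (emb (z k) (m k) : EE ι) = emb (∑ k, c k • z k) (∑ k, c k * m k) := by
  ext i
  · simp [emb, zc, Prod.fst_sum, Finset.sum_apply]
  · simp [emb, Prod.snd_sum]

end PeriodAux

/-- TASK Period. -/
theorem period : StmtPeriod := by
  intro ι _ _ n v hn hv hint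
  choose z m hzm using hint
  have hcard : Fintype.card (Fin n) = Fintype.card (Option ι) := by
    rw [Fintype.card_fin, Fintype.card_option, hn]
  let e : Fin n ≃ Option ι := Fintype.equivOfCardEq hcard
  let M : Matrix (Option ι) (Option ι) ℤ := fun a c =>
    match c with
    | none => m (e.symm a)
    | some i => z (e.symm a) i
  have hdet : M.det ≠ 0 := by
    intro h0
    have h1 : (M.map (Int.castRingHom ℝ)).det = 0 := by
      have := (Int.castRingHom ℝ).map_det M
      rw [h0, map_zero] at this
      exact this.symm
    obtain ⟨w, hw0, hw⟩ := Matrix.exists_vecMul_eq_zero_iff.mpr h1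
    apply hw0
    have hli : LinearIndependent ℝ (v ∘ e.symm) := hv.comp _ e.symm.injective
    have hsum : ∑ a, w a • (v ∘ e.symm) a = 0 := by
      ext i
      · have h2 := congrFun hw (some i)
        simp only [Matrix.vecMul, dotProduct, Matrix.map_apply, Pi.zero_apply] at h2
        simp only [Function.comp, hzm, emb, zc, Prod.fst_sum, Prod.smul_fst, Finset.sum_apply,
          Pi.smul_apply, smul_eq_mul, Prod.fst_zero, Pi.zero_apply]
        exact h2
      · have h2 := congrFun hw none
        simp only [Matrix.vecMul, dotProduct, Matrix.map_apply, Pi.zero_apply] at h2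
        simp only [Function.comp, hzm, emb, zc, Prod.snd_sum, Prod.smul_snd, 
          smul_eq_mul, Prod.snd_zero]
        exact h2
    have := Fintype.linearIndependent_iff.mp hli w hsum
    funext a
    exact this a
  refine ⟨M.det.natAbs, Int.natAbs_pos.mpr hdet, fun i => ?_⟩
  refine ⟨fun k => M.det.sign * M.adjugate (some i) (e k), ?_⟩
  have hadj : ∀ c, ∑ k, (M.det.sign * M.adjugate (some i) (e k)) * M (e k) c =
      if c = some i then (M.det.natAbs : ℤ) else 0 := by
    intro c
    have h1 : ∑ a, M.adjugate (some i) a * M a c = M.det * (1 : Matrix _ _ ℤ) (some i) c := by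
      have := congrFun (congrFun (Matrix.adjugate_mul M) (some i)) c
      rw [Matrix.mul_apply] at this
      rw [this, Matrix.smul_apply, smul_eq_mul]
    have h2 : ∑ k, (M.det.sign * M.adjugate (some i) (e k)) * M (e k) c =
        M.det.sign * ∑ a, M.adjugate (some i) a * M a c := by
      rw [Finset.mul_sum, ← e.sum_comp]
      apply Finset.sum_congr rfl
      intro k _
      ring
    rw [h2, h1, Matrix.one_apply]
    by_cases hc : c = some i
    · subst hc
      simp only [if_true, mul_one]
      exact Int.sign_mul_self_eq_natAbs _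
    · rw [if_neg hc, if_neg (fun h => hc h.symm)]
      simp
  have h3 : ∀ k i', M (e k) (some i') = z k i' := fun k i' => by
    show z (e.symm (e k)) i' = z k i'
    rw [e.symm_apply_apply]
  have h4 : ∀ k, M (e k) none = m k := fun k => by
    show m (e.symm (e k)) = m k
    rw [e.symm_apply_apply]
  simp only [hzm]
  rw [PeriodAux.sum_emb]
  have e1 : (Pi.single i (M.det.natAbs : ℤ) : ι → ℤ) =
      ∑ k, (M.det.sign * M.adjugate (some i) (e k)) • z k := by
    funext i'
    have h1 := hadj (some i')
    simp only [h3] at h1
    simp only [Finset.sum_apply, Pi.smul_apply, smul_eq_mul]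
    rw [h1]
    by_cases hc : i' = i
    · subst hc
      simp
    · rw [Pi.single_eq_of_ne hc, if_neg]
      simpa using hc
  have e2 : (0 : ℤ) = ∑ k, (M.det.sign * M.adjugate (some i) (e k)) * m k := by
    have h1 := hadj none
    simp only [h4] at h1
    rw [h1]
    simp
  rw [← e1, ← e2]

end Pool.Agent.Helper492_PTC
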