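import Pool.Agent.Helper492_PTC.Stmts

/-!
Facts about the shears.
-/

set_option autoImplicit false
open MeasureTheory

namespace Pool.Agent.Helper492_PTC
namespace ShA

lemma dz_le (x : ℝ) (n : ℤ) : dz x ≤ |x - n| := round_le x n

lemma dz_add_int (x : ℝ) (n : ℤ) : dz (x + n) = dz x := by
  unfold dz
  rw [round_add_intCast]
  congr 1
  push_cast
  ring

lemma dz_nonneg (x : ℝ) : 0 ≤ dz x := abs_nonneg _

lemma dz_lip : LipschitzWith 1 dz := by
  apply LipschitzWith.of_dist_le_mul
  intro x y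
  rw [NNReal.coe_one, one_mul, Real.dist_eq, Real.dist_eq, abs_sub_le_iff]
  constructor
  · have h1 := dz_le x (round y)
    have h2 : |x - (round y : ℤ)| ≤ |x - y| + |y - (round y : ℤ)| := by
      have e : x - (round y : ℤ) = (x - y) + (y - (round y : ℤ)) := by ring
      rw [e]; exact abs_add_le _ _
    unfold dz at *
    linarith
  · have h1 := dz_le y (round x)
    have h2 : |y - (round x : ℤ)| ≤ |x - y| + |x - (round x : ℤ)| := by
      have e : y - (round x : ℤ) = (y - x) + (x - (round x : ℤ)) := by ring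
      rw [e, abs_sub_comm x y]; exact abs_add_le _ _
    unfold dz at *
    linarith

set_option linter.unusedSectionVars false

variable {ι J : Type} [Fintype ι] [DecidableEq ι] [Fintype J] (G : Geo ι J)

lemma eta_add_int (x : ℝ) (n : ℤ) : G.eta (x + n) = G.eta x := by
  unfold Geo.eta
  rw [dz_add_int]

lemma eta_one (x : ℝ) (n : ℤ) (h : |x - n| ≤ G.r) : G.eta x = 1 := by
  unfold Geo.eta
  have h1 := (dz_le x n).trans h
  have h2 : dz x / G.r ≤ 1 := by rw [div_le_one G.hr]; exact h1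
  have h3 : min 1 (2 - dz x / G.r) = 1 := min_eq_left (by linarith)
  rw [h3]
  exact max_eq_right zero_le_one

lemma eta_zero (x : ℝ) (h : ∀ n : ℤ, 2 * G.r ≤ |x - n|) : G.eta x = 0 := by
  unfold Geo.eta
  have h1 : 2 * G.r ≤ dz x := h (round x)
  have h2 : 2 ≤ dz x / G.r := by rw [le_div_iff₀ G.hr]; exact h1
  apply max_eq_left
  exact (min_le_right _ _).trans (by linarith)

lemma eta_lip : LocallyLipschitz G.eta := by
  have h1 : LocallyLipschitz (fun x : ℝ => dz x) := dz_lip.locallyLipschitz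
  have h2 : LocallyLipschitz (fun x : ℝ => x / G.r) := by
    apply ContDiff.locallyLipschitz (𝕂 := ℝ)
    fun_prop
  have h3 : LocallyLipschitz (fun x : ℝ => dz x / G.r) := h2.comp h1
  have h4 : LocallyLipschitz (fun x : ℝ => (2 : ℝ) - dz x / G.r) :=
    (LocallyLipschitz.const (2 : ℝ)).sub h3
  exact (h4.const_min 1).const_max 0

lemma Fi_add_int (i : ι) (x : ℝ) (n : ℤ) : G.Fi i (x + n) = G.Fi i x := by
  unfold Geo.Fi
  apply Finset.sum_congr rfl
  intro j _
  have e : x + n - G.s j = (x - G.s j) + n := by ring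
  rw [e, eta_add_int]

lemma Fi_val (i : ι) (x : ℝ) (j : J) (n : ℤ) (h : |x - G.s j - n| ≤ G.r) :
    G.Fi i x = (G.v j i : ℝ) := by
  classical
  unfold Geo.Fi
  rw [Finset.sum_eq_single j]
  · rw [eta_one G _ n h, mul_one]
  · intro k _ hk
    rw [eta_zero G _ ?_, mul_zero]
    intro m
    have h1 := G.hsep j k (Ne.symm hk) (m - n)
    have h2 : |G.s j - G.s k - ((m - n : ℤ) : ℝ)| ≤ |x - G.s k - m| + |x - G.s j - n| := by
      have e : G.s j - G.s k - ((m - n : ℤ) : ℝ) = (x - G.s k - m) - (x - G.s j - n) := by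
        push_cast; ring
      rw [e]; exact abs_sub _ _
    linarith
  · intro hj
    exact absurd (Finset.mem_univ j) hj

lemma sum_lip {α β : Type} [PseudoEMetricSpace α] (s : Finset β) (f : β → α → ℝ)
    (hf : ∀ b ∈ s, LocallyLipschitz (f b)) : LocallyLipschitz (fun x => ∑ b ∈ s, f b x) := by
  classical
  induction s using Finset.induction_on with
  | empty => simpa using LocallyLipschitz.const (0 : ℝ)
  | insert a s ha ih =>
    simp only [Finset.sum_insert ha]
    exact (hf a (Finset.mem_insert_self _ _)).add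
      (ih (fun b hb => hf b (Finset.mem_insert_of_mem hb)))

lemma Fi_lip (i : ι) : LocallyLipschitz (G.Fi i) := by
  unfold Geo.Fi
  apply sum_lip
  intro j _
  have h1 : LocallyLipschitz (fun x : ℝ => x - G.s j) := by
    apply ContDiff.locallyLipschitz (𝕂 := ℝ)
    fun_prop
  have h2 : LocallyLipschitz (fun x : ℝ => (G.v j i : ℝ) * x) := by
    apply ContDiff.locallyLipschitz (𝕂 := ℝ)
    fun_prop
  exact h2.comp ((eta_lip G).comp h1)

lemma cc_lip : LocallyLipschitz Geo.cc := by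
  unfold Geo.cc
  have h1 : LocallyLipschitz (fun x : ℝ => 2 * x - 1 / 2) := by
    apply ContDiff.locallyLipschitz (𝕂 := ℝ)
    fun_prop
  exact (h1.const_min 1).const_max 0

lemma pi_lip {α : Type} [PseudoEMetricSpace α] (f : α → ι → ℝ)
    (hf : ∀ i, LocallyLipschitz (fun x => f x i)) : LocallyLipschitz f := by
  intro x
  choose K t ht hK using fun i => hf i x
  refine ⟨Finset.univ.sup K, ⋂ i, t i, ?_, ?_⟩
  · exact (Filter.iInter_mem).2 ht
  · intro y hy z hz
    rw [edist_pi_le_iff]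
    intro i
    have h1 := hK i (Set.mem_iInter.1 hy i) (Set.mem_iInter.1 hz i)
    refine h1.trans ?_
    gcongr
    exact Finset.le_sup (f := K) (Finset.mem_univ i)

lemma eval_lip (i : ι) : LocallyLipschitz (fun w : ι → ℝ => w i) :=
  (LipschitzWith.eval i).locallyLipschitz

lemma mul_lip : LocallyLipschitz (fun p : ℝ × ℝ => p.1 * p.2) := by
  apply ContDiff.locallyLipschitz (𝕂 := ℝ)
  fun_prop

/-- joint version of the first shear -/
lemma shA_lip : LocallyLipschitz (fun p : EE ι => G.shA p.2 p.1) := by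
  apply pi_lip
  intro i
  have hfst : ∀ i, LocallyLipschitz (fun p : EE ι => p.1 i) := fun i =>
    (eval_lip i).comp LipschitzWith.prod_fst.locallyLipschitz
  have hsnd : LocallyLipschitz (Prod.snd : EE ι → ℝ) :=
    LipschitzWith.prod_snd.locallyLipschitz
  by_cases h : i = G.i0
  · simp only [Geo.shA, h, if_true]
    exact hfst _
  · simp only [Geo.shA, h, if_false]
    exact (hfst i).add (mul_lip.comp (hsnd.prodMk ((Fi_lip G i).comp (hfst G.i0))))

lemma shB_lip : LocallyLipschitz (fun p : EE ι => G.shB p.2 p.1) := by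
  apply pi_lip
  intro i
  have hfst : ∀ i, LocallyLipschitz (fun p : EE ι => p.1 i) := fun i =>
    (eval_lip i).comp LipschitzWith.prod_fst.locallyLipschitz
  have hsnd : LocallyLipschitz (Prod.snd : EE ι → ℝ) :=
    LipschitzWith.prod_snd.locallyLipschitz
  by_cases h : i = G.i0
  · simp only [Geo.shB, h, if_true]
    exact (hfst G.i0).add (mul_lip.comp (hsnd.prodMk ((Fi_lip G G.i0).comp (hfst G.i1))))
  · simp only [Geo.shB, h, if_false]
    exact hfst i

lemma neg_lip : LocallyLipschitz (fun x : ℝ => -x) := by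
  apply ContDiff.locallyLipschitz (𝕂 := ℝ)
  fun_prop

lemma shA_inv (τ : ℝ) (w : ι → ℝ) : G.shA (-τ) (G.shA τ w) = w := by
  funext i
  by_cases h : i = G.i0
  · subst h; simp [Geo.shA]
  · simp [Geo.shA, h]

lemma shB_inv (τ : ℝ) (w : ι → ℝ) : G.shB (-τ) (G.shB τ w) = w := by
  have h1 := G.h01
  funext i
  by_cases h : i = G.i0
  · subst h; simp [Geo.shB, h1.symm]
  · simp [Geo.shB, h]

lemma shA_add (τ : ℝ) (w : ι → ℝ) (z : ι → ℤ) : G.shA τ (w + zc z) = G.shA τ w + zc z := by
  funext i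
  by_cases h : i = G.i0
  · subst h; simp [Geo.shA]
  · have e : (w + zc z) G.i0 = w G.i0 + (z G.i0 : ℝ) := rfl
    simp only [Geo.shA, h, if_false, Pi.add_apply]
    rw [show (zc z) G.i0 = (z G.i0 : ℝ) from rfl, Fi_add_int]
    ring

lemma shB_add (τ : ℝ) (w : ι → ℝ) (z : ι → ℤ) : G.shB τ (w + zc z) = G.shB τ w + zc z := by
  funext i
  by_cases h : i = G.i0
  · subst h
    simp only [Geo.shB, if_true, Pi.add_apply]
    rw [show (zc z) G.i1 = (z G.i1 : ℝ) from rfl, Fi_add_int]
    ring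
  · simp [Geo.shB, h]

lemma shA_zero (w : ι → ℝ) : G.shA 0 w = w := by
  funext i
  by_cases h : i = G.i0
  · subst h; simp [Geo.shA]
  · simp [Geo.shA, h]

lemma shB_zero (w : ι → ℝ) : G.shB 0 w = w := by
  funext i
  by_cases h : i = G.i0
  · subst h; simp [Geo.shB]
  · simp [Geo.shB, h]

lemma cc_low {y : ℝ} (h : y ≤ 1 / 4) : Geo.cc y = 0 := by
  unfold Geo.cc
  apply max_eq_left
  exact (min_le_right _ _).trans (by linarith)

lemma cc_high {y : ℝ} (h : 3 / 4 ≤ y) : Geo.cc y = 1 := by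
  unfold Geo.cc
  rw [min_eq_left (by linarith)]
  exact max_eq_right zero_le_one

lemma coord {w : ι → ℝ} {j : J} {z : ι → ℤ} (h : ‖w - G.sig j - zc z‖ ≤ G.r) (i : ι) :
    |w i - G.s j - (z i : ℝ)| ≤ G.r := by
  have h1 := (norm_le_pi_norm (w - G.sig j - zc z) i).trans h
  rw [Real.norm_eq_abs] at h1
  exact h1

lemma phi_high (y : ℝ) (w : ι → ℝ) (j : J) (z : ι → ℤ) (hy : 3 / 4 ≤ y)
    (h : ‖w - G.sig j - zc z‖ ≤ G.r) : G.Phi y w = w + zc (G.v j) := by
  unfold Geo.Phi
  rw [cc_high hy]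
  have hA : G.shA 1 w = fun i => if i = G.i0 then w G.i0 else w i + G.v j i := by
    funext i
    by_cases hi : i = G.i0
    · simp [Geo.shA, hi]
    · simp only [Geo.shA, hi, if_false, one_mul]
      rw [Fi_val G i (w G.i0) j (z G.i0) (coord G h G.i0)]
  rw [hA]
  funext i
  by_cases hi : i = G.i0
  · subst hi
    simp only [Geo.shB, if_true, G.h01.symm, if_false, one_mul, Pi.add_apply]
    rw [Fi_val G G.i0 (w G.i1 + G.v j G.i1) j (z G.i1 + G.v j G.i1) ?_]
    · rfl
    · have := coord G h G.i1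
      have e : w G.i1 + (G.v j G.i1 : ℝ) - G.s j - ((z G.i1 + G.v j G.i1 : ℤ) : ℝ) =
          w G.i1 - G.s j - (z G.i1 : ℝ) := by push_cast; ring
      rw [e]; exact this
  · simp only [Geo.shB, hi, if_false, Pi.add_apply]
    rfl

lemma psi_high (y : ℝ) (w : ι → ℝ) (j : J) (z : ι → ℤ) (hy : 3 / 4 ≤ y)
    (h : ‖w - G.sig j - zc z‖ ≤ G.r) : G.Psi y w = w - zc (G.v j) := by
  unfold Geo.Psi
  rw [cc_high hy]
  have hB : G.shB (-1) w = fun i => if i = G.i0 then w G.i0 - G.v j G.i0 else w i := by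
    funext i
    by_cases hi : i = G.i0
    · subst hi
      simp only [Geo.shB, if_true]
      rw [Fi_val G G.i0 (w G.i1) j (z G.i1) (coord G h G.i1)]
      ring
    · simp [Geo.shB, hi]
  rw [hB]
  funext i
  by_cases hi : i = G.i0
  · subst hi
    simp only [Geo.shA, if_true, Pi.sub_apply]
    rfl
  · simp only [Geo.shA, hi, if_false, if_true, Pi.sub_apply]
    rw [Fi_val G i (w G.i0 - G.v j G.i0) j (z G.i0 - G.v j G.i0) ?_]
    · show w i + -1 * (G.v j i : ℝ) = w i - (G.v j i : ℝ)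
      ring
    · have := coord G h G.i0
      have e : w G.i0 - (G.v j G.i0 : ℝ) - G.s j - ((z G.i0 - G.v j G.i0 : ℤ) : ℝ) =
          w G.i0 - G.s j - (z G.i0 : ℝ) := by push_cast; ring
      rw [e]; exact this

lemma cfst : LocallyLipschitz (Prod.fst : EE ι → (ι → ℝ)) :=
  LipschitzWith.prod_fst.locallyLipschitz

lemma csnd : LocallyLipschitz (Prod.snd : EE ι → ℝ) :=
  LipschitzWith.prod_snd.locallyLipschitz

lemma comb_lip (f g : EE ι → ι → ℝ) (c : EE ι → ℝ) (hf : LocallyLipschitz f)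
    (hc : LocallyLipschitz c) (F : ℝ → (ι → ℝ) → ι → ℝ)
    (hF : LocallyLipschitz (fun p : EE ι => F p.2 p.1)) (hg : ∀ p, g p = F (c p) (f p)) :
    LocallyLipschitz g := by
  have h2 : LocallyLipschitz (fun p : EE ι => ((f p, c p) : EE ι)) := hf.prodMk hc
  have h3 := hF.comp h2
  have e : g = ((fun p : EE ι => F p.2 p.1) ∘ (fun p : EE ι => ((f p, c p) : EE ι))) := by
    funext p
    simp only [Function.comp_apply]
    exact hg p
  rw [e]; exact h3

lemma cc2_lip : LocallyLipschitz (fun p : EE ι => Geo.cc p.2) := cc_lip.comp csnd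

lemma ncc2_lip : LocallyLipschitz (fun p : EE ι => -Geo.cc p.2) := neg_lip.comp cc2_lip

lemma phi_lip' : LocallyLipschitz (fun p : EE ι => G.Phi p.2 p.1) :=
  comb_lip (fun p => G.shA (Geo.cc p.2) p.1) _ (fun p => Geo.cc p.2)
    (comb_lip Prod.fst _ (fun p => Geo.cc p.2) cfst cc2_lip G.shA (shA_lip G) (fun _ => rfl))
    cc2_lip G.shB (shB_lip G) (fun _ => rfl)

lemma psi_lip' : LocallyLipschitz (fun p : EE ι => G.Psi p.2 p.1) :=
  comb_lip (fun p => G.shB (-Geo.cc p.2) p.1) _ (fun p => -Geo.cc p.2)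
    (comb_lip Prod.fst _ (fun p => -Geo.cc p.2) cfst ncc2_lip G.shB (shB_lip G) (fun _ => rfl))
    ncc2_lip G.shA (shA_lip G) (fun _ => rfl)

end ShA

open ShA in
theorem shear : StmtShear := by
  intro ι J _ _ _ G
  constructor
  · intro y w
    unfold Geo.Psi Geo.Phi
    rw [shB_inv, shA_inv]
  · intro y w
    unfold Geo.Psi Geo.Phi
    have h1 := shA_inv G (-Geo.cc y) (G.shB (-Geo.cc y) w)
    have h2 := shB_inv G (-Geo.cc y) w
    rw [neg_neg] at h1 h2
    rw [h1, h2]
  · intro y w z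
    unfold Geo.Phi
    rw [shA_add, shB_add]
  · intro y w z
    unfold Geo.Psi
    rw [shB_add, shA_add]
  · intro y w hy
    unfold Geo.Phi
    rw [cc_low hy, shA_zero, shB_zero]
  · intro y w hy
    unfold Geo.Psi
    rw [cc_low hy, neg_zero, shB_zero, shA_zero]
  · intro y w j z hy h
    exact phi_high G y w j z hy h
  · intro y w j z hy h
    exact psi_high G y w j z hy h
  · exact phi_lip' G
  · exact psi_lip' G

end Pool.Agent.Helper492_PTC
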