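import Pool.Agent.Helper492_PTC.Align

/-!
Task Slices of the periodic tiling project: an aligned tiling by the marked tile is a
product of a solution of the discrete system with the integers.
-/

set_option autoImplicit false
set_option linter.unusedSectionVars false
open MeasureTheory

namespace Pool.Agent.Helper492_PTC

open Align256

namespace Slices256

variable {ι J : Type} [Fintype ι] [DecidableEq ι] [Fintype J] (G : Geo ι J)

/-- The tip over the marker `t'` of type `j` lies in the tile. -/
theorem tip_mem (hS : ShearFacts G) (hB : BumpFacts G) (j : J) (t' : ι → ℤ) (ht' : t' ∈ G.X j) :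
    ((G.sig j + zc (t' + G.v j), 1 + G.al j * G.r) : EE ι) ∈ G.T := by
  have hr := G.hr
  have hr8 := G.hr8
  obtain ⟨ha0, ha1⟩ := G.hal j
  have hpos : 0 < G.al j * G.r := mul_pos ha0 hr
  have hle : G.al j * G.r ≤ G.r := by nlinarith
  have hpsi : G.Psi (1 + G.al j * G.r) (G.sig j + zc (t' + G.v j)) = G.sig j + zc t' := by
    rw [hS.psi_high (1 + G.al j * G.r) (G.sig j + zc (t' + G.v j)) j (t' + G.v j)
      (by linarith) (by simp [hr.le]), zc_add]
    abel
  have hc : ‖G.sig j + zc t' - G.sig j - zc t'‖ = 0 := by simp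
  unfold Geo.T
  simp only [Set.mem_ofPred_eq, hpsi]
  refine ⟨?_, ?_, ?_⟩
  · have := hB.cube_box (G.sig j + zc t') j t' (by rw [hc]; exact hr.le) (G.hX j t' ht')
    intro i
    exact ⟨(this i).1.le, (this i).2.le⟩
  · have := hB.dn_le (G.sig j + zc t')
    linarith
  · rw [hB.up_in (G.sig j + zc t') j t' (by rw [hc]; exact hr.le) ht', hc, sub_zero]

/-- If `t` is a box point which is not a dent of type `j`, then the tip point over it is in
the interior of the tile. -/
theorem tip_interior (hS : ShearFacts G) (hB : BumpFacts G) (j : J) (t : ι → ℤ)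
    (ht : t ∈ IBox G.b) (ht' : t ∉ G.X' j) :
    ((G.sig j + zc t, G.al j * G.r) : EE ι) ∈ G.To := by
  have hr := G.hr
  have hr8 := G.hr8
  obtain ⟨ha0, ha1⟩ := G.hal j
  have hpos : 0 < G.al j * G.r := mul_pos ha0 hr
  have hle : G.al j * G.r ≤ G.r := by nlinarith
  have hc : ‖G.sig j + zc t - G.sig j - zc t‖ = 0 := by simp
  unfold Geo.To
  simp only [Set.mem_ofPred_eq, hS.psi_low (G.al j * G.r) _ (by linarith)]
  refine ⟨?_, ?_, ?_⟩
  · exact hB.cube_box (G.sig j + zc t) j t (by rw [hc]; exact hr.le) ht
  · rw [hB.dn_out (G.sig j + zc t) j t (by rw [hc]; exact hr.le) ht']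
    exact hpos
  · have := hB.up_nonneg (G.sig j + zc t)
    linarith

/-- The middle of a cell at a low height is in the interior of the tile. -/
theorem mid_interior (hS : ShearFacts G) (hB : BumpFacts G) (t : ι → ℤ) (ht : t ∈ IBox G.b) :
    ((hf + zc t, 1 / 5) : EE ι) ∈ G.To := by
  have hr8 := G.hr8
  unfold Geo.To
  simp only [Set.mem_ofPred_eq, hS.psi_low (1 / 5) _ (by norm_num)]
  refine ⟨hf_add_mem G t ht, ?_, ?_⟩
  · have := hB.dn_le (hf + zc t)
    linarith
  · have := hB.up_nonneg (hf + zc t)
    linarith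

/-- Conversely a tile containing the middle of a cell at a low height modulo the integers
has height coordinate zero and contains the cell. -/
theorem mid_mem (hS : ShearFacts G) (hB : BumpFacts G) (t : ι → ℤ) (n : ℤ)
    (h : ((hf + zc t, (n : ℝ) + 1 / 5) : EE ι) ∈ G.T) : n = 0 ∧ t ∈ IBox G.b := by
  have hr8 := G.hr8
  unfold Geo.T at h
  simp only [Set.mem_ofPred_eq] at h
  obtain ⟨h1, h2, h3⟩ := h
  have h4 := hB.dn_nonneg (G.Psi ((n : ℝ) + 1 / 5) (hf + zc t))
  have h5 := hB.up_le (G.Psi ((n : ℝ) + 1 / 5) (hf + zc t))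
  have hn : n = 0 := by
    have a1 : (-1 : ℝ) < (n : ℝ) := by linarith
    have a2 : (n : ℝ) < 1 := by linarith
    have b1 : -1 < n := by exact_mod_cast a1
    have b2 : n < 1 := by exact_mod_cast a2
    omega
  refine ⟨hn, ?_⟩
  subst hn
  rw [hS.psi_low _ _ (by norm_num)] at h1
  intro i
  obtain ⟨c1, c2⟩ := h1 i
  simp only [hf, zc, Pi.add_apply] at c1 c2
  have d1 : (-1 : ℝ) < (t i : ℝ) := by linarith
  have d2 : (t i : ℝ) < ((G.b i : ℕ) : ℤ) := by push_cast; linarith
  have e1 : -1 < t i := by exact_mod_cast d1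
  have e2 : t i < (G.b i : ℤ) := by exact_mod_cast d2
  exact ⟨by omega, e2⟩

end Slices256

open Slices256 in
theorem slices : StmtSlices := by
  intro ι J _ _ _ G hS hB hT hR L hL hM hA l hl
  have hr := G.hr
  have hr8 := G.hr8
  -- each slice is a tiling set
  have htil : ∀ m : ℤ, IsTil G.b {a | l + emb a m ∈ L} := by
    intro m z
    obtain ⟨l', hl', hx⟩ := hL.cover (l + (hf + zc z, (m : ℝ) + 1 / 5))
    obtain ⟨a, n, rfl⟩ := hA l hl l' hl'
    have e : l + (hf + zc z, (m : ℝ) + 1 / 5) - (l + emb a n)
        = ((hf + zc (z - a), ((m - n : ℤ) : ℝ) + 1 / 5) : EE ι) := by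
      ext i
      · simp only [emb, zc, Prod.fst_sub, Prod.fst_add, Pi.sub_apply, Pi.add_apply]
        push_cast
        ring
      · simp only [emb, Prod.snd_sub, Prod.snd_add]
        push_cast
        ring
    rw [e] at hx
    obtain ⟨hn, hz⟩ := mid_mem G hS hB _ _ hx
    have hmn : n = m := by omega
    subst hmn
    refine ⟨a, ⟨hl', hz⟩, ?_⟩
    rintro a' ⟨ha', hz'⟩
    by_contra hne
    have hne' : l + emb a' n ≠ l + emb a n := by
      intro h
      apply hne
      have h2 := add_left_cancel h
      exact zc_inj (congrArg Prod.fst h2)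
    apply hL.disj _ ha' _ hl' hne' (l + (hf + zc z, (n : ℝ) + 1 / 5))
    · rw [hT.interior_T]
      have e' : l + (hf + zc z, (n : ℝ) + 1 / 5) - (l + emb a' n)
          = ((hf + zc (z - a'), 1 / 5) : EE ι) := by
        ext i
        · simp only [emb, zc, Prod.fst_sub, Prod.fst_add, Pi.sub_apply, Pi.add_apply]
          push_cast
          ring
        · simp only [emb, Prod.snd_sub, Prod.snd_add]
          ring
      rw [e']
      exact mid_interior G hS hB _ hz'
    · rw [e]
      exact hx
  -- the relations between neighbouring slices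
  have hrel : ∀ (m : ℤ) (j : J) (z : ι → ℤ),
      InSum {a | l + emb a m ∈ L} (G.X' j) z ↔
        InSum {a | l + emb a (m - 1) ∈ L} (G.X j) (z - G.v j) := by
    intro m j z
    constructor
    · rintro ⟨a, ha, hz⟩
      obtain ⟨t', ht', hL'⟩ := hM _ ha j (z - a) hz
      refine ⟨a + (z - a - t' - G.v j), ?_, ?_⟩
      · rw [add_assoc, ← emb_add] at hL'
        exact hL'
      · have e : z - G.v j - (a + (z - a - t' - G.v j)) = t' := by abel
        rw [e]
        exact ht'
    · rintro ⟨a', ha', hz⟩
      obtain ⟨a, ⟨ha, hza⟩, -⟩ := htil m z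
      refine ⟨a, ha, ?_⟩
      by_contra hcon
      have hint := tip_interior G hS hB j (z - a) hza hcon
      have htip := tip_mem G hS hB j (z - G.v j - a') hz
      have hne : l + emb a m ≠ l + emb a' (m - 1) := by
        intro h
        have h2 := congrArg Prod.snd (add_left_cancel h)
        simp only [emb] at h2
        push_cast at h2
        linarith
      apply hL.disj _ ha _ ha' hne (l + (G.sig j + zc z, (m : ℝ) + G.al j * G.r))
      · rw [hT.interior_T]
        have e : l + (G.sig j + zc z, (m : ℝ) + G.al j * G.r) - (l + emb a m)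
            = ((G.sig j + zc (z - a), G.al j * G.r) : EE ι) := by
          ext i
          · simp only [emb, zc, Prod.fst_sub, Prod.fst_add, Pi.sub_apply, Pi.add_apply]
            push_cast
            ring
          · simp only [emb, Prod.snd_sub, Prod.snd_add]
            ring
        rw [e]
        exact hint
      · have e : l + (G.sig j + zc z, (m : ℝ) + G.al j * G.r) - (l + emb a' (m - 1))
            = ((G.sig j + zc (z - G.v j - a' + G.v j), 1 + G.al j * G.r) : EE ι) := by
          ext i
          · simp only [emb, zc, Prod.fst_sub, Prod.fst_add, Pi.sub_apply, Pi.add_apply]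
            push_cast
            ring
          · simp only [emb, Prod.snd_sub, Prod.snd_add]
            push_cast
            ring
        rw [e]
        exact htip
  -- the slices are all equal
  have hstep : ∀ (m : ℤ) (a : ι → ℤ), l + emb a m ∈ L ↔ l + emb a (m - 1) ∈ L := by
    intro m a
    obtain ⟨j, h1, h2, h3⟩ := hR.orig
    have := hrel m j a
    rw [h3, sub_zero] at this
    constructor
    · intro h
      obtain ⟨a', ha', hz⟩ := this.1 ⟨a, h, by
        rw [sub_self]
        exact (h2 0).2 rfl⟩
      have hz' : a - a' = 0 := (h1 _).1 hz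
      rw [sub_eq_zero] at hz'
      rw [hz']
      exact ha'
    · intro h
      obtain ⟨a', ha', hz⟩ := this.2 ⟨a, h, by
        rw [sub_self]
        exact (h1 0).2 rfl⟩
      have hz' : a - a' = 0 := (h2 _).1 hz
      rw [sub_eq_zero] at hz'
      rw [hz']
      exact ha'
  have hall : ∀ (m : ℤ) (a : ι → ℤ), l + emb a m ∈ L ↔ l + emb a 0 ∈ L := by
    intro m a
    induction m using Int.induction_on with
    | zero => exact Iff.rfl
    | succ n ih =>
      rw [hstep, add_sub_cancel_right]
      exact ih
    | pred n ih =>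
      rw [← hstep]
      exact ih
  refine ⟨{a | l + emb a 0 ∈ L}, fun a n => hall n a, htil 0, ?_⟩
  intro j z
  have h := hrel 0 j z
  have hset : {a : ι → ℤ | l + emb a (0 - 1) ∈ L} = {a | l + emb a 0 ∈ L} := by
    ext a
    exact hall (0 - 1) a
  rw [hset] at h
  exact h

end Pool.Agent.Helper492_PTC
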