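import Pool.Agent.Helper492_PTC.Defs

/-!
Statements of the pieces of Part 3, and the two halves of Part 2.
-/

set_option autoImplicit false
open MeasureTheory

namespace Pool.Agent.Helper492_PTC

/-- Facts about the shears. -/
structure ShearFacts {ι J : Type} [Fintype ι] [DecidableEq ι] [Fintype J] (G : Geo ι J) : Prop where
  psi_phi : ∀ y w, G.Psi y (G.Phi y w) = w
  phi_psi : ∀ y w, G.Phi y (G.Psi y w) = w
  phi_add : ∀ y w z, G.Phi y (w + zc z) = G.Phi y w + zc z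
  psi_add : ∀ y w z, G.Psi y (w + zc z) = G.Psi y w + zc z
  phi_low : ∀ y w, y ≤ 1 / 4 → G.Phi y w = w
  psi_low : ∀ y w, y ≤ 1 / 4 → G.Psi y w = w
  phi_high : ∀ y w j z, 3 / 4 ≤ y → ‖w - G.sig j - zc z‖ ≤ G.r → G.Phi y w = w + zc (G.v j)
  psi_high : ∀ y w j z, 3 / 4 ≤ y → ‖w - G.sig j - zc z‖ ≤ G.r → G.Psi y w = w - zc (G.v j)
  phi_lip : LocallyLipschitz (fun p : EE ι => G.Phi p.2 p.1)
  psi_lip : LocallyLipschitz (fun p : EE ι => G.Psi p.2 p.1)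

/-- TASK Shear. -/
def StmtShear : Prop :=
  ∀ (ι J : Type) [Fintype ι] [DecidableEq ι] [Fintype J] (G : Geo ι J), ShearFacts G

/-- Facts about bumps and dents. -/
structure BumpFacts {ι J : Type} [Fintype ι] [DecidableEq ι] [Fintype J] (G : Geo ι J) : Prop where
  up_lip : LocallyLipschitz G.up
  dn_lip : LocallyLipschitz G.dn
  up_nonneg : ∀ w, 0 ≤ G.up w
  dn_nonneg : ∀ w, 0 ≤ G.dn w
  up_le : ∀ w, G.up w ≤ G.r
  dn_le : ∀ w, G.dn w ≤ G.r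
  up_pos : ∀ w, 0 < G.up w → ∃ j, ∃ t ∈ G.X j, ‖w - G.sig j - zc t‖ < G.r
  dn_pos : ∀ w, 0 < G.dn w → ∃ j, ∃ t ∈ G.X' j, ‖w - G.sig j - zc t‖ < G.r
  up_in : ∀ w j z, ‖w - G.sig j - zc z‖ ≤ G.r → z ∈ G.X j →
    G.up w = G.al j * (G.r - ‖w - G.sig j - zc z‖)
  up_out : ∀ w j z, ‖w - G.sig j - zc z‖ ≤ G.r → z ∉ G.X j → G.up w = 0
  dn_in : ∀ w j z, ‖w - G.sig j - zc z‖ ≤ G.r → z ∈ G.X' j →
    G.dn w = G.al j * (G.r - ‖w - G.sig j - zc z‖)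
  dn_out : ∀ w j z, ‖w - G.sig j - zc z‖ ≤ G.r → z ∉ G.X' j → G.dn w = 0
  cube_unique : ∀ w j z k z', ‖w - G.sig j - zc z‖ ≤ G.r → ‖w - G.sig k - zc z'‖ ≤ G.r →
    j = k ∧ z = z'
  cube_cell : ∀ w j z i, ‖w - G.sig j - zc z‖ ≤ G.r → (z i : ℝ) < w i ∧ w i < (z i : ℝ) + 1
  cube_box : ∀ w j z, ‖w - G.sig j - zc z‖ ≤ G.r → z ∈ IBox G.b → w ∈ G.BBo

/-- TASK Bump. -/
def StmtBump : Prop :=
  ∀ (ι J : Type) [Fintype ι] [DecidableEq ι] [Fintype J] (G : Geo ι J), BumpFacts G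

/-- Facts about the tile. -/
structure TileFacts {ι J : Type} [Fintype ι] [DecidableEq ι] [Fintype J] (G : Geo ι J) : Prop where
  compact : IsCompact G.T
  open_To : IsOpen G.To
  interior_T : interior G.T = G.To
  closure_To : closure G.To = G.T
  null : volume (frontier G.T) = 0
  homeo : Nonempty (G.T ≃ₜ ((Set.Icc (0 : ι → ℝ) (fun i => (G.b i : ℝ)) ×ˢ Set.Icc (0 : ℝ) 1 : Set (EE ι))))

/-- TASK Tile. -/
def StmtTile : Prop :=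
  ∀ (ι J : Type) [Fintype ι] [DecidableEq ι] [Fintype J] (G : Geo ι J),
    ShearFacts G → BumpFacts G → TileFacts G

/-- The translation set over an integer set. -/
def Lam {ι : Type} (A : Set (ι → ℤ)) : Set (EE ι) := {x | ∃ a ∈ A, ∃ n : ℤ, x = emb a n}

/-- TASK Exist. -/
def StmtExist : Prop :=
  ∀ (ι J : Type) [Fintype ι] [DecidableEq ι] [Fintype J] (G : Geo ι J),
    ShearFacts G → BumpFacts G → TileFacts G →
    ∀ A, IsTil G.b A → (∀ j, RelHolds A (G.X j) (G.X' j) (G.v j)) → AETil G.T (Lam A)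

/-- General facts about almost everywhere tilings by a regular closed compact set. -/
structure TilFacts {ι : Type} [Fintype ι] (T L : Set (EE ι)) : Prop where
  disj : ∀ l ∈ L, ∀ m ∈ L, l ≠ m → ∀ x, x - l ∈ interior T → x - m ∉ T
  cover : ∀ x, ∃ l ∈ L, x - l ∈ T
  locfin : ∀ x, ∃ ε > 0, ∀ y, ‖y - x‖ < ε → ∀ l ∈ L, y - l ∈ T → x - l ∈ T

/-- TASK Gen. -/
def StmtGen : Prop :=
  ∀ (ι : Type) [Fintype ι] (T L : Set (EE ι)), IsCompact T → T ⊆ closure (interior T) →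
    T.Nonempty → AETil T L → TilFacts T L

/-- TASK Tip. -/
def StmtTip : Prop :=
  ∀ (ι J : Type) [Fintype ι] [DecidableEq ι] [Fintype J] (G : Geo ι J),
    ShearFacts G → BumpFacts G →
    ∀ q ∈ G.T, ∀ ε > 0, (∀ q' ∈ G.T, ‖q' - q‖ < ε → q' ≠ q → q'.2 < q.2) →
      ∃ k, ∃ t ∈ G.X k, q = (G.sig k + zc t + zc (G.v k), 1 + G.al k * G.r)

/-- TASK LemM. -/
def StmtLemM : Prop :=
  ∀ (ι J : Type) [Fintype ι] [DecidableEq ι] [Fintype J] (G : Geo ι J),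
    ShearFacts G → BumpFacts G → TileFacts G →
    (∀ q ∈ G.T, ∀ ε > 0, (∀ q' ∈ G.T, ‖q' - q‖ < ε → q' ≠ q → q'.2 < q.2) →
      ∃ k, ∃ t ∈ G.X k, q = (G.sig k + zc t + zc (G.v k), 1 + G.al k * G.r)) →
    ∀ L, TilFacts G.T L → ∀ l ∈ L, ∀ j, ∀ t ∈ G.X' j, ∃ t' ∈ G.X j,
      l + emb (t - t' - G.v j) (-1) ∈ L

/-- The markers needed for alignment. -/
structure Rich {ι J : Type} [DecidableEq ι] (G : Geo ι J) : Prop where
  zero : ∃ j, (∀ t, t ∈ G.X j ↔ t ∈ IBox G.b) ∧ (∀ t, t ∈ G.X' j ↔ t ∈ IBox G.b) ∧ G.v j = 0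
  plus : ∀ i, ∃ j, (∀ t, t ∈ G.X j ↔ t ∈ IBox G.b) ∧ (∀ t, t ∈ G.X' j ↔ t ∈ IBox G.b) ∧
    G.v j = Pi.single i 1
  minus : ∀ i, ∃ j, (∀ t, t ∈ G.X j ↔ t ∈ IBox G.b) ∧ (∀ t, t ∈ G.X' j ↔ t ∈ IBox G.b) ∧
    G.v j = Pi.single i (-1)
  orig : ∃ j, (∀ t, t ∈ G.X j ↔ t = 0) ∧ (∀ t, t ∈ G.X' j ↔ t = 0) ∧ G.v j = 0

/-- TASK Align. -/
def StmtAlign : Prop :=
  ∀ (ι J : Type) [Fintype ι] [DecidableEq ι] [Fintype J] (G : Geo ι J),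
    ShearFacts G → BumpFacts G → TileFacts G → Rich G →
    ∀ L, TilFacts G.T L →
    (∀ l ∈ L, ∀ j, ∀ t ∈ G.X' j, ∃ t' ∈ G.X j, l + emb (t - t' - G.v j) (-1) ∈ L) →
    ∀ l ∈ L, ∀ m ∈ L, ∃ (z : ι → ℤ) (n : ℤ), m = l + emb z n

/-- TASK Slices. -/
def StmtSlices : Prop :=
  ∀ (ι J : Type) [Fintype ι] [DecidableEq ι] [Fintype J] (G : Geo ι J),
    ShearFacts G → BumpFacts G → TileFacts G → Rich G →
    ∀ L, TilFacts G.T L →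
    (∀ l ∈ L, ∀ j, ∀ t ∈ G.X' j, ∃ t' ∈ G.X j, l + emb (t - t' - G.v j) (-1) ∈ L) →
    (∀ l ∈ L, ∀ m ∈ L, ∃ (z : ι → ℤ) (n : ℤ), m = l + emb z n) →
    ∀ l ∈ L, ∃ A : Set (ι → ℤ), (∀ a (n : ℤ), l + emb a n ∈ L ↔ a ∈ A) ∧
      IsTil G.b A ∧ ∀ j, RelHolds A (G.X j) (G.X' j) (G.v j)

/-- TASK Param: geometric data with prescribed combinatorics. -/
def StmtParam : Prop :=
  ∀ (ι J : Type) [Fintype ι] [DecidableEq ι] [Fintype J]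
    (b : ι → ℕ) (_ : ∀ i, 0 < b i) (X X' : J → Finset (ι → ℤ)) (v : J → ι → ℤ) (i0 i1 : ι),
    i0 ≠ i1 → (∀ j, ∀ t ∈ X j, t ∈ IBox b) → (∀ j, ∀ t ∈ X' j, t ∈ IBox b) →
    ∃ G : Geo ι J, G.b = b ∧ G.X = X ∧ G.X' = X' ∧ G.v = v

/-- TASK Period: independent integer periods give periods `n e_i`. -/
def StmtPeriod : Prop :=
  ∀ (ι : Type) [Fintype ι] [DecidableEq ι] (n : ℕ) (v : Fin n → EE ι), n = Fintype.card ι + 1 →
    LinearIndependent ℝ v → (∀ k, ∃ (z : ι → ℤ) (m : ℤ), v k = emb z m) →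
    ∃ N : ℕ, 0 < N ∧ ∀ i : ι, ∃ c : Fin n → ℤ, emb (Pi.single i (N : ℤ)) 0 = ∑ k, c k • v k

/-- The negation of the periodic tiling conjecture for balls (the frozen statement). -/
def Goal : Prop :=
    ¬ (∀ (d : ℕ) (T : Set (EuclideanSpace ℝ (Fin d))),
      Nonempty (T ≃ₜ Metric.closedBall (0 : EuclideanSpace ℝ (Fin d)) 1) →
      (∃ Λ : Set (EuclideanSpace ℝ (Fin d)),
        ∀ᵐ x ∂(volume : Measure (EuclideanSpace ℝ (Fin d))),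
          ∃! t, t ∈ Λ ∧ x - t ∈ T) →
      ∃ Λ : Set (EuclideanSpace ℝ (Fin d)),
        (∀ᵐ x ∂(volume : Measure (EuclideanSpace ℝ (Fin d))),
          ∃! t, t ∈ Λ ∧ x - t ∈ T) ∧
        ∃ v : Fin d → EuclideanSpace ℝ (Fin d),
          LinearIndependent ℝ v ∧
            ∀ i, ∀ t ∈ Λ, t + v i ∈ Λ ∧ t - v i ∈ Λ)

/-- TASK Transfer: from the sup-norm product space to Euclidean space. -/
def StmtTransfer : Prop :=
  ∀ (ι : Type) [Fintype ι] (b : ι → ℕ) (_ : ∀ i, 0 < b i) (T : Set (EE ι)),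
    Nonempty (T ≃ₜ ((Set.Icc (0 : ι → ℝ) (fun i => (b i : ℝ)) ×ˢ Set.Icc (0 : ℝ) 1 : Set (EE ι)))) →
    (∃ L, AETil T L) →
    (∀ L, AETil T L → ∀ (n : ℕ) (v : Fin n → EE ι), n = Fintype.card ι + 1 →
      LinearIndependent ℝ v → ¬ ∀ i, ∀ t ∈ L, t + v i ∈ L ∧ t - v i ∈ L) → Goal

end Pool.Agent.Helper492_PTC
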