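import Pool.Agent.Helper492_PTC.Stmts

/-!
The tile is the image of a box under a locally Lipschitz homeomorphism.
-/

set_option autoImplicit false
open MeasureTheory Module

namespace Pool.Agent.Helper492_PTC
namespace TileA

/-- Locally Lipschitz maps send null subsets of compact sets to null sets. -/
lemma null_image {E : Type} [NormedAddCommGroup E] [NormedSpace ℝ E] [FiniteDimensional ℝ E]
    [MeasurableSpace E] [BorelSpace E] (μ : Measure E) [μ.IsAddHaarMeasure]
    {f : E → E} (hf : LocallyLipschitz f) {K S : Set E} (hK : IsCompact K) (hS : S ⊆ K)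
    (h0 : μ S = 0) : μ (f '' S) = 0 := by
  obtain ⟨C, hC⟩ := (hf.locallyLipschitzOn (s := K)).exists_lipschitzOnWith_of_compact hK
  have hC' := hC.mono hS
  have h1 : (Measure.hausdorffMeasure (finrank ℝ E : ℝ) : Measure E) ≪ μ :=
    Measure.absolutelyContinuous_isAddHaarMeasure _ _
  have h2 : μ ≪ (Measure.hausdorffMeasure (finrank ℝ E : ℝ) : Measure E) :=
    Measure.absolutelyContinuous_isAddHaarMeasure _ _
  apply h2
  have h3 := hC'.hausdorffMeasure_image_le (d := (finrank ℝ E : ℝ)) (by positivity)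
  rw [h1 h0, mul_zero] at h3
  exact le_antisymm h3 (by simp)

lemma haarEE (ι : Type) [Fintype ι] : (volume : Measure (EE ι)).IsAddHaarMeasure := by
  rw [Measure.volume_eq_prod]
  infer_instance

set_option linter.unusedSectionVars false

variable {ι J : Type} [Fintype ι] [DecidableEq ι] [Fintype J] (G : Geo ι J)

/-- vertical thickness -/
noncomputable def hk (w : ι → ℝ) : ℝ := 1 + G.up w - G.dn w

lemma hk_pos (hB : BumpFacts G) (w : ι → ℝ) : 0 < hk G w := by
  have h1 := hB.up_nonneg w
  have h2 := hB.dn_le w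
  have h3 := G.hr8
  unfold hk
  linarith

lemma up_cont (hB : BumpFacts G) : Continuous G.up := hB.up_lip.continuous
lemma dn_cont (hB : BumpFacts G) : Continuous G.dn := hB.dn_lip.continuous
lemma hk_cont (hB : BumpFacts G) : Continuous (hk G) := by
  unfold hk
  exact (continuous_const.add (up_cont G hB)).sub (dn_cont G hB)

/-- vertical rescaling -/
noncomputable def G1 (hB : BumpFacts G) : EE ι ≃ₜ EE ι where
  toFun p := (p.1, G.dn p.1 + p.2 * hk G p.1)
  invFun p := (p.1, (p.2 - G.dn p.1) / hk G p.1)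
  left_inv p := by
    have := (hk_pos G hB p.1).ne'
    ext
    · rfl
    · simp [this]
  right_inv p := by
    have := (hk_pos G hB p.1).ne'
    ext
    · rfl
    · simp [this]
  continuous_toFun := by
    have h1 := dn_cont G hB
    have h2 := hk_cont G hB
    fun_prop
  continuous_invFun := by
    have h1 := dn_cont G hB
    have h2 := hk_cont G hB
    refine Continuous.prodMk continuous_fst ?_
    refine Continuous.div (by fun_prop) (by fun_prop) ?_
    intro p
    exact (hk_pos G hB p.1).ne'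

/-- horizontal shearing -/
noncomputable def G2 (hS : ShearFacts G) : EE ι ≃ₜ EE ι where
  toFun p := (G.Phi p.2 p.1, p.2)
  invFun p := (G.Psi p.2 p.1, p.2)
  left_inv p := by
    ext
    · simp [hS.psi_phi]
    · rfl
  right_inv p := by
    ext
    · simp [hS.phi_psi]
    · rfl
  continuous_toFun := hS.phi_lip.continuous.prodMk continuous_snd
  continuous_invFun := hS.psi_lip.continuous.prodMk continuous_snd

/-- the homeomorphism -/
noncomputable def GG (hS : ShearFacts G) (hB : BumpFacts G) : EE ι ≃ₜ EE ι :=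
  (G1 G hB).trans (G2 G hS)

/-- the model box -/
def KK : Set (EE ι) := Set.Icc (0 : ι → ℝ) (fun i => (G.b i : ℝ)) ×ˢ Set.Icc (0 : ℝ) 1

lemma GG_image (hS : ShearFacts G) (hB : BumpFacts G) : GG G hS hB '' KK G = G.T := by
  rw [Homeomorph.image_eq_preimage_symm]
  ext p
  have hp := hk_pos G hB (G.Psi p.2 p.1)
  simp only [Set.mem_preimage, KK, Set.mem_prod, Set.mem_Icc]
  have e1 : ((GG G hS hB).symm p).1 = G.Psi p.2 p.1 := rfl
  have e2 : ((GG G hS hB).symm p).2 = (p.2 - G.dn (G.Psi p.2 p.1)) / hk G (G.Psi p.2 p.1) := rfl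
  rw [e1, e2, le_div_iff₀ hp, div_le_iff₀ hp, zero_mul, one_mul]
  unfold Geo.T Geo.BB hk
  simp only [Set.mem_ofPred_eq, Pi.le_def, Pi.zero_apply]
  constructor
  · rintro ⟨⟨h1, h2⟩, h3, h4⟩
    exact ⟨fun i => ⟨h1 i, h2 i⟩, by linarith, by linarith⟩
  · rintro ⟨h1, h3, h4⟩
    exact ⟨⟨fun i => (h1 i).1, fun i => (h1 i).2⟩, by linarith, by linarith⟩

/-- the open model box -/
def KKo : Set (EE ι) := (Set.pi Set.univ fun i => Set.Ioo (0 : ℝ) (G.b i : ℝ)) ×ˢ Set.Ioo (0 : ℝ) 1

lemma GG_image_o (hS : ShearFacts G) (hB : BumpFacts G) : GG G hS hB '' KKo G = G.To := by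
  rw [Homeomorph.image_eq_preimage_symm]
  ext p
  have hp := hk_pos G hB (G.Psi p.2 p.1)
  simp only [Set.mem_preimage, KKo, Set.mem_prod, Set.mem_Ioo, Set.mem_pi, Set.mem_univ,
    true_implies]
  have e1 : ((GG G hS hB).symm p).1 = G.Psi p.2 p.1 := rfl
  have e2 : ((GG G hS hB).symm p).2 = (p.2 - G.dn (G.Psi p.2 p.1)) / hk G (G.Psi p.2 p.1) := rfl
  rw [e1, e2, lt_div_iff₀ hp, div_lt_iff₀ hp, zero_mul, one_mul]
  unfold Geo.To Geo.BBo hk
  simp only [Set.mem_ofPred_eq]
  constructor
  · rintro ⟨h1, h3, h4⟩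
    exact ⟨h1, by linarith, by linarith⟩
  · rintro ⟨h1, h3, h4⟩
    exact ⟨h1, by linarith, by linarith⟩

lemma interior_KK : interior (KK G) = KKo G := by
  unfold KK KKo
  rw [interior_prod_eq, interior_Icc, ← Set.pi_univ_Icc, interior_pi_set Set.finite_univ]
  congr 1
  apply Set.pi_congr rfl
  intro i _
  rw [interior_Icc]
  rfl

lemma closure_KKo : closure (KKo G) = KK G := by
  unfold KK KKo
  rw [closure_prod_eq, closure_Ioo (by norm_num : (0 : ℝ) ≠ 1), closure_pi_set]
  congr 1
  rw [← Set.pi_univ_Icc]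
  apply Set.pi_congr rfl
  intro i _
  have := G.hb i
  rw [closure_Ioo]
  · rfl
  · have : (0 : ℝ) < G.b i := by exact_mod_cast this
    exact this.ne

lemma KK_compact : IsCompact (KK G) := isCompact_Icc.prod isCompact_Icc

lemma KK_convex : Convex ℝ (KK G) := (convex_Icc _ _).prod (convex_Icc _ _)

lemma GG_lip (hS : ShearFacts G) (hB : BumpFacts G) : LocallyLipschitz (GG G hS hB) := by
  have hfst : LocallyLipschitz (Prod.fst : EE ι → (ι → ℝ)) :=
    LipschitzWith.prod_fst.locallyLipschitz
  have hsnd : LocallyLipschitz (Prod.snd : EE ι → ℝ) :=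
    LipschitzWith.prod_snd.locallyLipschitz
  have hd : LocallyLipschitz (fun p : EE ι => G.dn p.1) := hB.dn_lip.comp hfst
  have hu : LocallyLipschitz (fun p : EE ι => G.up p.1) := hB.up_lip.comp hfst
  have hk1 : LocallyLipschitz (fun p : EE ι => hk G p.1) := by
    have h1 : LocallyLipschitz (fun p : EE ι => (1 : ℝ) + G.up p.1) :=
      (LocallyLipschitz.const (1 : ℝ)).add hu
    exact h1.sub hd
  have hmul : LocallyLipschitz (fun p : ℝ × ℝ => p.1 * p.2) := by
    apply ContDiff.locallyLipschitz (𝕂 := ℝ)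
    fun_prop
  have h3 : LocallyLipschitz (fun p : EE ι => p.2 * hk G p.1) :=
    hmul.comp (hsnd.prodMk hk1)
  have h4 : LocallyLipschitz (fun p : EE ι => G.dn p.1 + p.2 * hk G p.1) := hd.add h3
  have h5 : LocallyLipschitz (G1 G hB) := hfst.prodMk h4
  have h6 : LocallyLipschitz (G2 G hS) := hS.phi_lip.prodMk hsnd
  exact h6.comp h5

end TileA

open TileA in
theorem tile : StmtTile := by
  intro ι J _ _ _ G hS hB
  have hT := GG_image G hS hB
  have hTo := GG_image_o G hS hB
  have hint : interior G.T = G.To := by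
    rw [← hT, ← hTo, ← Homeomorph.image_interior, interior_KK]
  have hcl : closure G.To = G.T := by
    rw [← hT, ← hTo, ← Homeomorph.image_closure, closure_KKo]
  have hcomp : IsCompact G.T := by
    rw [← hT]
    exact (KK_compact G).image (GG G hS hB).continuous
  refine ⟨hcomp, ?_, hint, hcl, ?_, ?_⟩
  · rw [← hint]; exact isOpen_interior
  · rw [← hT, ← Homeomorph.image_frontier]
    have := haarEE ι
    exact null_image (volume : Measure (EE ι)) (GG_lip G hS hB) (KK_compact G)
      (KK_compact G).isClosed.frontier_subset ((KK_convex G).addHaar_frontier volume)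
  · refine ⟨?_⟩
    rw [← hT]
    exact ((GG G hS hB).image (KK G)).symm

end Pool.Agent.Helper492_PTC
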