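import Pool.Agent.Helper492_PTC.Stmts

/-!
TASK Tip of the disproof of the periodic tiling conjecture for balls (helper699).
-/

set_option autoImplicit false
set_option linter.unusedSectionVars false
open MeasureTheory

namespace Pool.Agent.Helper492_PTC

namespace TipAux

/-- a continuous curve stays close for small positive times -/
theorem small {E : Type} [SeminormedAddCommGroup E] (f : ℝ → E) (hf : Continuous f) {ε d : ℝ}
    (hε : 0 < ε) (hd : 0 < d) : ∃ e, 0 < e ∧ e ≤ d ∧ ‖f e - f 0‖ < ε := by
  have h1 : ContinuousAt f 0 := hf.continuousAt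
  rw [Metric.continuousAt_iff] at h1
  obtain ⟨δ, hδ, h2⟩ := h1 ε hε
  refine ⟨min (δ / 2) d, lt_min (by linarith) hd, min_le_right _ _, ?_⟩
  have h3 : dist (min (δ / 2) d) 0 < δ := by
    rw [Real.dist_eq, sub_zero, abs_of_pos (lt_min (by linarith) hd)]
    exact lt_of_le_of_lt (min_le_left _ _) (by linarith)
  have h4 := h2 h3
  rwa [dist_eq_norm] at h4

variable {ι J : Type} [Fintype ι] [DecidableEq ι] [Fintype J] (G : Geo ι J)

theorem core (hS : ShearFacts G) (hB : BumpFacts G) (W : ι → ℝ) (y : ℝ) (w : ι → ℝ)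
    (hw : G.Psi y W = w) (hy : y = 1 + G.up w) (hbox : w ∈ G.BB) (ε : ℝ) (hε : 0 < ε)
    (hq : ∀ q' ∈ G.T, ‖q' - ((W, y) : EE ι)‖ < ε → q' ≠ (W, y) → q'.2 < y)
    (c : ι → ℝ) (hc : c ∈ G.BB) (hup : ∀ e : ℝ, 0 ≤ e → e ≤ 1 → G.up w ≤ G.up (w + e • (c - w))) :
    c = w := by
  by_contra hne
  have hW : G.Phi y w = W := by rw [← hw]; exact hS.phi_psi y W
  have hcont : Continuous (fun e : ℝ => ((G.Phi y (w + e • (c - w)), y) : EE ι)) := by
    have h1 : Continuous (fun e : ℝ => ((w + e • (c - w), y) : EE ι)) := by fun_prop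
    have h2 := hS.phi_lip.continuous.comp h1
    exact Continuous.prodMk h2 continuous_const
  obtain ⟨e, he0, he1, he2⟩ := small _ hcont hε one_pos
  have h0 : ((G.Phi y (w + (0 : ℝ) • (c - w)), y) : EE ι) = (W, y) := by
    rw [zero_smul, add_zero, hW]
  rw [h0] at he2
  have hpsi : G.Psi y (G.Phi y (w + e • (c - w))) = w + e • (c - w) := hS.psi_phi _ _
  have hmem : ((G.Phi y (w + e • (c - w)), y) : EE ι) ∈ G.T := by
    refine ⟨?_, ?_, ?_⟩
    · show G.Psi y (G.Phi y (w + e • (c - w))) ∈ G.BB
      rw [hpsi]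
      intro i
      have h1 := hbox i
      have h2 := hc i
      have h3 : (w + e • (c - w)) i = (1 - e) * w i + e * c i := by
        simp only [Pi.add_apply, Pi.smul_apply, Pi.sub_apply, smul_eq_mul]; ring
      rw [h3]
      constructor
      · have := mul_nonneg (sub_nonneg.mpr he1) h1.1
        have := mul_nonneg he0.le h2.1
        linarith
      · have := mul_le_mul_of_nonneg_left h1.2 (sub_nonneg.mpr he1)
        have := mul_le_mul_of_nonneg_left h2.2 he0.le
        nlinarith
    · show G.dn (G.Psi y (G.Phi y (w + e • (c - w)))) ≤ y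
      rw [hpsi]
      have h1 := hB.dn_le (w + e • (c - w))
      have h2 := hB.up_nonneg w
      have h3 := G.hr8
      linarith
    · show y ≤ 1 + G.up (G.Psi y (G.Phi y (w + e • (c - w))))
      rw [hpsi]
      have h1 := hup e he0.le he1
      linarith
  have hneq : ((G.Phi y (w + e • (c - w)), y) : EE ι) ≠ (W, y) := by
    intro h
    have h1 : G.Phi y (w + e • (c - w)) = G.Phi y w := by
      rw [hW]; exact congrArg Prod.fst h
    have h2 : w + e • (c - w) = w := by
      rw [← hS.psi_phi y (w + e • (c - w)), h1, hS.psi_phi]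
    have h3 : e • (c - w) = 0 := by
      have := congrArg (fun x => x - w) h2
      simpa using this
    rcases smul_eq_zero.mp h3 with h4 | h4
    · exact he0.ne' h4
    · exact hne (sub_eq_zero.mp h4)
  exact lt_irrefl _ (hq _ hmem he2 hneq)

end TipAux

open TipAux in
theorem tip : StmtTip := by
  intro ι J _ _ _ G hS hB q hqT ε hε hq
  obtain ⟨W, y⟩ := q
  obtain ⟨hbox, hdn, hup⟩ := hqT
  simp only at hbox hdn hup hq
  generalize hw : G.Psi y W = w at hbox hdn hup
  have hW : G.Phi y w = W := by rw [← hw]; exact hS.phi_psi y W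
  -- step 1: the point is on the upper lid
  have hy : y = 1 + G.up w := by
    by_contra hne
    have hlt : y < 1 + G.up w := lt_of_le_of_ne hup hne
    have hcont : Continuous (fun e : ℝ => ((G.Phi (y + e) w, y + e) : EE ι)) := by
      have h1 : Continuous (fun e : ℝ => ((w, y + e) : EE ι)) := by fun_prop
      have h2 := hS.phi_lip.continuous.comp h1
      exact Continuous.prodMk h2 (by fun_prop)
    obtain ⟨e, he0, he1, he2⟩ := small _ hcont hε (sub_pos.mpr hlt)
    have h0 : ((G.Phi (y + 0) w, y + 0) : EE ι) = (W, y) := by rw [add_zero, hW]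
    rw [h0] at he2
    have hpsi : G.Psi (y + e) (G.Phi (y + e) w) = w := hS.psi_phi _ _
    have hmem : ((G.Phi (y + e) w, y + e) : EE ι) ∈ G.T := by
      refine ⟨?_, ?_, ?_⟩
      · show G.Psi (y + e) (G.Phi (y + e) w) ∈ G.BB
        rw [hpsi]; exact hbox
      · show G.dn (G.Psi (y + e) (G.Phi (y + e) w)) ≤ y + e
        rw [hpsi]; linarith
      · show y + e ≤ 1 + G.up (G.Psi (y + e) (G.Phi (y + e) w))
        rw [hpsi]; linarith
    have hneq : ((G.Phi (y + e) w, y + e) : EE ι) ≠ (W, y) := by
      intro h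
      have h1 : y + e = y := congrArg Prod.snd h
      linarith
    have h5 := hq _ hmem he2 hneq
    simp only at h5
    linarith
  -- step 2: there is a bump here
  by_cases hpos : 0 < G.up w
  · obtain ⟨j, t, ht, hnear⟩ := hB.up_pos w hpos
    have hcen : G.sig j + zc t - G.sig j - zc t = 0 := by abel
    have hcb : G.sig j + zc t ∈ G.BB := by
      have h1 : ‖G.sig j + zc t - G.sig j - zc t‖ ≤ G.r := by
        rw [hcen, norm_zero]; exact G.hr.le
      have h2 := hB.cube_box (G.sig j + zc t) j t h1 (G.hX j t ht)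
      intro i
      exact ⟨(h2 i).1.le, (h2 i).2.le⟩
    have hc := core G hS hB W y w hw hy hbox ε hε hq (G.sig j + zc t) hcb (by
      intro e he0 he1
      have h1 : w + e • (G.sig j + zc t - w) - G.sig j - zc t
          = (1 - e) • (w - G.sig j - zc t) := by
        funext i
        simp only [Pi.add_apply, Pi.sub_apply, Pi.smul_apply, smul_eq_mul]
        ring
      have h2 : ‖w + e • (G.sig j + zc t - w) - G.sig j - zc t‖
          = (1 - e) * ‖w - G.sig j - zc t‖ := by
        rw [h1, norm_smul, Real.norm_eq_abs, abs_of_nonneg (by linarith)]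
      have hn := norm_nonneg (w - G.sig j - zc t)
      have h3 : (1 - e) * ‖w - G.sig j - zc t‖ ≤ ‖w - G.sig j - zc t‖ := by nlinarith
      rw [hB.up_in w j t hnear.le ht,
        hB.up_in (w + e • (G.sig j + zc t - w)) j t (by rw [h2]; linarith) ht, h2]
      exact mul_le_mul_of_nonneg_left (by linarith) (G.hal j).1.le)
    refine ⟨j, t, ht, ?_⟩
    have hupw : G.up w = G.al j * G.r := by
      rw [hB.up_in w j t hnear.le ht, ← hc, hcen, norm_zero, sub_zero]
    have hyy : y = 1 + G.al j * G.r := by rw [hy, hupw]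
    have hph : G.Phi y w = w + zc (G.v j) := by
      apply hS.phi_high y w j t _ hnear.le
      have := hB.up_nonneg w
      linarith
    refine Prod.ext ?_ hyy
    show W = G.sig j + zc t + zc (G.v j)
    rw [← hW, hph, ← hc]
  · exfalso
    have hz : G.up w = 0 := le_antisymm (not_lt.mp hpos) (hB.up_nonneg w)
    have hany : ∀ c ∈ G.BB, c = w := by
      intro c hc
      apply core G hS hB W y w hw hy hbox ε hε hq c hc
      intro e _ _
      rw [hz]
      exact hB.up_nonneg _
    have h0 : (fun _ => 0 : ι → ℝ) ∈ G.BB := by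
      intro i
      exact ⟨le_refl _, by positivity⟩
    have h1 : (fun _ => 1 : ι → ℝ) ∈ G.BB := by
      intro i
      refine ⟨zero_le_one, ?_⟩
      have := G.hb i
      have h2 : 1 ≤ G.b i := this
      show (1 : ℝ) ≤ (G.b i : ℝ)
      exact_mod_cast h2
    have h2 : (fun _ => 0 : ι → ℝ) = (fun _ => 1 : ι → ℝ) := by rw [hany _ h0, hany _ h1]
    have h3 := congrFun h2 G.i0
    simp at h3

end Pool.Agent.Helper492_PTC
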