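import Pool.Agent.Helper492_PTC.Stmts

/-!
Transfer of the counterexample from the product space to Euclidean space.
-/

set_option autoImplicit false
open MeasureTheory

namespace Pool.Agent.Helper492_PTC

namespace TransferAux

/-- The volume of the ambient space is a Haar measure. -/
theorem haarEE' (ι : Type) [Fintype ι] : Measure.IsAddHaarMeasure (volume : Measure (EE ι)) := by
  rw [Measure.volume_eq_prod]; infer_instance

/-- Almost everywhere statements transfer along a continuous linear equivalence. -/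
theorem ae_equiv {E F : Type*} [NormedAddCommGroup E] [NormedSpace ℝ E] [MeasureSpace E]
    [BorelSpace E] [FiniteDimensional ℝ E]
    [NormedAddCommGroup F] [NormedSpace ℝ F] [MeasureSpace F] [BorelSpace F]
    [FiniteDimensional ℝ F]
    (hE : Measure.IsAddHaarMeasure (volume : Measure E))
    (hF : Measure.IsAddHaarMeasure (volume : Measure F))
    (e : E ≃L[ℝ] F) (p : F → Prop) (h : ∀ᵐ x ∂(volume : Measure E), p (e x)) :
    ∀ᵐ y ∂(volume : Measure F), p y := by
  have _i1 := hE
  have _i2 := hF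
  have h1 : Measure.IsAddHaarMeasure (Measure.map e (volume : Measure E)) :=
    e.isAddHaarMeasure_map (volume : Measure E)
  have hac : (volume : Measure F) ≪ Measure.map e (volume : Measure E) :=
    Measure.absolutelyContinuous_isAddHaarMeasure _ _
  have hm : MeasurableEmbedding (e : E → F) := e.toHomeomorph.measurableEmbedding
  have key : ∀ᵐ y ∂(Measure.map e (volume : Measure E)), p y := by
    rw [hm.ae_map_iff]
    exact h
  exact hac.ae_le key

/-- Tilings transfer along a continuous linear equivalence. -/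
theorem til_equiv {E F : Type*} [NormedAddCommGroup E] [NormedSpace ℝ E] [MeasureSpace E]
    [BorelSpace E] [FiniteDimensional ℝ E]
    [NormedAddCommGroup F] [NormedSpace ℝ F] [MeasureSpace F] [BorelSpace F]
    [FiniteDimensional ℝ F]
    (hE : Measure.IsAddHaarMeasure (volume : Measure E))
    (hF : Measure.IsAddHaarMeasure (volume : Measure F))
    (e : E ≃L[ℝ] F) (T L : Set E) (h : ∀ᵐ x ∂(volume : Measure E), ∃! t, t ∈ L ∧ x - t ∈ T) :
    ∀ᵐ y ∂(volume : Measure F), ∃! t, t ∈ e '' L ∧ y - t ∈ e '' T := by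
  apply ae_equiv hE hF e
  filter_upwards [h] with x hx
  obtain ⟨t, ⟨ht, hxt⟩, huniq⟩ := hx
  refine ⟨e t, ⟨⟨t, ht, rfl⟩, ⟨x - t, hxt, by simp⟩⟩, ?_⟩
  rintro s ⟨⟨t', ht', rfl⟩, ⟨y, hy, hys⟩⟩
  have hy2 : y = x - t' := by
    apply e.injective
    rw [hys]; simp
  subst hy2
  rw [huniq t' ⟨ht', hy⟩]

/-- The box is homeomorphic to a ball. -/
theorem box_ball (ι : Type) [Fintype ι] (b : ι → ℕ) (hb : ∀ i, 0 < b i)
    (F : Type) [NormedAddCommGroup F] [NormedSpace ℝ F] [FiniteDimensional ℝ F]
    (e : EE ι ≃L[ℝ] F) :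
    Nonempty ((Set.Icc (0 : ι → ℝ) (fun i => (b i : ℝ)) ×ˢ Set.Icc (0 : ℝ) 1 : Set (EE ι)) ≃ₜ
      Metric.closedBall (0 : F) 1) := by
  set S : Set (EE ι) := Set.Icc (0 : ι → ℝ) (fun i => (b i : ℝ)) ×ˢ Set.Icc (0 : ℝ) 1 with hS
  have hcS : Convex ℝ S := (convex_Icc _ _).prod (convex_Icc _ _)
  have hcompS : IsCompact S := isCompact_Icc.prod isCompact_Icc
  have hintS : (interior S).Nonempty := by
    rw [hS, interior_prod_eq, interior_Icc]
    refine Set.Nonempty.prod ?_ ⟨1/2, by norm_num, by norm_num⟩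
    rw [← Set.pi_univ_Icc, interior_pi_set Set.finite_univ]
    refine ⟨fun i => (b i : ℝ) / 2, ?_⟩
    intro i _
    have := hb i
    have h2 : (0 : ℝ) < b i := by exact_mod_cast this
    simp only [interior_Icc, Set.mem_Ioo, Pi.zero_apply]
    constructor <;> linarith
  set S' : Set F := e '' S with hS'
  have hcS' : Convex ℝ S' := hcS.linear_image e.toLinearEquiv.toLinearMap
  have hcompS' : IsCompact S' := hcompS.image e.continuous
  have hintS' : (interior S').Nonempty := by
    have h1 : e.toHomeomorph '' interior S = interior (e.toHomeomorph '' S) :=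
      e.toHomeomorph.image_interior S
    obtain ⟨x, hx⟩ := hintS
    have h2 : e.toHomeomorph x ∈ interior (e.toHomeomorph '' S) := by
      rw [← h1]; exact ⟨x, hx, rfl⟩
    exact ⟨e.toHomeomorph x, h2⟩
  obtain ⟨h, -, h2, -⟩ := exists_homeomorph_image_interior_closure_frontier_eq_unitBall hcS'
    hintS' hcompS'.isBounded
  rw [hcompS'.isClosed.closure_eq] at h2
  have k1 : S ≃ₜ S' := e.toHomeomorph.image S
  have k2 : S' ≃ₜ (h '' S' : Set F) := h.image S'
  exact ⟨(k1.trans k2).trans (Homeomorph.setCongr h2)⟩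

end TransferAux

open TransferAux in
/-- TASK Transfer. -/
theorem transfer : StmtTransfer := by
  intro ι _ b hb T hT hex hnp hG
  obtain ⟨h⟩ := hT
  obtain ⟨L, hL⟩ := hex
  have hfin : Module.finrank ℝ (EE ι) =
      Module.finrank ℝ (EuclideanSpace ℝ (Fin (Fintype.card ι + 1))) := by
    simp
  let e : EE ι ≃L[ℝ] EuclideanSpace ℝ (Fin (Fintype.card ι + 1)) :=
    ContinuousLinearEquiv.ofFinrankEq hfin
  have hE := haarEE' ι
  have hF : Measure.IsAddHaarMeasure
      (volume : Measure (EuclideanSpace ℝ (Fin (Fintype.card ι + 1)))) := inferInstance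
  obtain ⟨k⟩ := box_ball ι b hb (EuclideanSpace ℝ (Fin (Fintype.card ι + 1))) e
  have k1 : (e '' T : Set (EuclideanSpace ℝ (Fin (Fintype.card ι + 1)))) ≃ₜ T :=
    (e.toHomeomorph.image T).symm
  obtain ⟨L', hL', v, hv, hper⟩ := hG (Fintype.card ι + 1) (e '' T) ⟨(k1.trans h).trans k⟩
    ⟨e '' L, til_equiv hE hF e T L hL⟩
  have key := til_equiv hF hE e.symm (e '' T) L' hL'
  have hTT : e.symm '' (e '' T) = T := by
    ext x; simp
  rw [hTT] at key
  refine hnp (e.symm '' L') key (Fintype.card ι + 1) (fun i => e.symm (v i)) rfl ?_ ?_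
  · have := hv.map' e.symm.toLinearEquiv.toLinearMap (LinearEquiv.ker _)
    exact this
  · rintro i _ ⟨t, ht, rfl⟩
    obtain ⟨h1, h2⟩ := hper i t ht
    exact ⟨⟨t + v i, h1, by simp⟩, ⟨t - v i, h2, by simp⟩⟩

end Pool.Agent.Helper492_PTC
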